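import Mathlib

/-!
# Subgroups of small index: definitions
-/

set_option autoImplicit false

open Cardinal

namespace Pool.Agent.J6H96.SI

variable (G : Type) [Group G]

/-- `G` has no proper subgroup of index less than the continuum -/
def NoSmallIndex : Prop := ∀ H : Subgroup G, #(G ⧸ H) < continuum → H = ⊤

/-- every action of `G` on a set with fewer than continuum many elements is trivial -/
def SmallActionsTrivial : Prop :=
  ∀ (X : Type) [MulAction G X], #X < continuum → ∀ (g : G) (x : X), g • x = x

/-- every action of `G` on a countable set is trivial -/
def CountableActionsTrivial : Prop :=
  ∀ (X : Type) [MulAction G X], Countable X → ∀ (g : G) (x : X), g • x = x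

/-- `G` has no proper normal subgroup of countable index -/
def NoCountableQuotient : Prop := ∀ H : Subgroup G, H.Normal → Countable (G ⧸ H) → H = ⊤

variable {G}

/-- the set of the subgroups of `G` conjugate to `N` -/
def Conjugates (N : Subgroup G) : Set (Subgroup G) :=
  {N' | ∃ g : G, ∀ x, x ∈ N' ↔ g⁻¹ * x * g ∈ N}

/-- `S` has no proper subgroup of index less than the continuum, it acts trivially on all sets with
fewer than continuum many elements, and it is contained in every subgroup of `G` of index less than
the continuum and in every nontrivial subgroup of `G` with fewer than continuum many conjugates -/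
def SmallIndexCore (S : Subgroup G) : Prop :=
  NoSmallIndex S ∧ SmallActionsTrivial S ∧
    (∀ H : Subgroup G, #(G ⧸ H) < continuum → S ≤ H) ∧
    ∀ N : Subgroup G, N ≠ ⊥ → #(Conjugates N) < continuum → S ≤ N

/-- The following are equivalent: `G` is simple; every subgroup with fewer than continuum many
conjugates is trivial or `G`; `F = G` and `G` has no proper subgroup of index less than the
continuum; `F = G` and every action of `G` on a countable set is trivial; `F = G` and `G` has no
proper normal subgroup of countable index. -/
def SimpleCriteria (F : Subgroup G) : Prop :=
  List.TFAE [IsSimpleGroup G, ∀ N : Subgroup G, #(Conjugates N) < continuum → N = ⊥ ∨ N = ⊤,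
    F = ⊤ ∧ NoSmallIndex G, F = ⊤ ∧ CountableActionsTrivial G, F = ⊤ ∧ NoCountableQuotient G]

/-- The following are equivalent: `F` is simple; `F = S`; `F` has no proper subgroup of index less
than the continuum; every action of `F` on a countable set is trivial; `F` has no proper normal
subgroup of countable index. -/
def SubgroupCriteria (F S : Subgroup G) : Prop :=
  List.TFAE [IsSimpleGroup F, F = S, NoSmallIndex F, CountableActionsTrivial F,
    NoCountableQuotient F]

end Pool.Agent.J6H96.SI
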