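import Pool.Agent.J6H96.SI.Alg
import Pool.Agent.J6H96.SI.Defs

/-!
# Consequences of the small index property (algebra)
-/

set_option autoImplicit false

open Cardinal
open scoped commutatorElement

namespace Pool.Agent.J6H96.SI

/-- pigeonhole principle -/
theorem pigeon {Z : Type} (h : #Z < continuum) (Φ : (ℕ → Bool) → Z) :
    ∃ x y, x ≠ y ∧ Φ x = Φ y := by
  by_contra hcon
  push Not at hcon
  have hinj : Function.Injective Φ := fun x y hxy => by
    by_contra hne
    exact hcon x y hne hxy
  have h1 := Cardinal.mk_le_of_injective hinj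
  have h2 : #(ℕ → Bool) = continuum := by simp
  rw [h2] at h1
  exact absurd h (not_lt.2 h1)

theorem smallIn_index {G : Type} [Group G] {S H : Subgroup G} (h : #(G ⧸ H) < continuum) :
    SmallIn S H := fun f _ => by
  obtain ⟨x, y, hxy, he⟩ := pigeon h fun x => (QuotientGroup.mk (f x) : G ⧸ H)
  exact ⟨x, y, hxy, QuotientGroup.eq.1 he⟩

theorem smallIn_sub {G : Type} [Group G] {S : Subgroup G} {H : Subgroup S}
    (h : #(S ⧸ H) < continuum) : SmallIn S (H.map S.subtype) := fun f hf => by
  obtain ⟨x, y, hxy, he⟩ := pigeon h fun x => (QuotientGroup.mk (⟨f x, hf x⟩ : S) : S ⧸ H)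
  exact ⟨x, y, hxy, _, QuotientGroup.eq.1 he, rfl⟩

/-- a proper subgroup of countable index -/
theorem exists_countable {G : Type} [Group G] (h : commutator G ≠ ⊤) :
    ∃ H : Subgroup G, H.Normal ∧ H ≠ ⊤ ∧ Countable (G ⧸ H) := by
  obtain ⟨g, hg⟩ : ∃ g, g ∉ commutator G := by
    by_contra hcon
    push Not at hcon
    exact h ((Subgroup.eq_top_iff' _).2 hcon)
  have h1 : Additive.ofMul (Abelianization.of g) ≠ 0 := by
    intro h0
    apply hg
    have h2 : Abelianization.of g = 1 := h0
    rw [← Abelianization.ker_of, MonoidHom.mem_ker]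
    exact h2
  obtain ⟨c, hc⟩ := CharacterModule.exists_character_apply_ne_zero_of_ne_zero h1
  let ψ : G →* Multiplicative (AddCircle (1 : ℚ)) :=
    (AddMonoidHom.toMultiplicativeRight
      (c : Additive (Abelianization G) →+ AddCircle (1 : ℚ))).comp Abelianization.of
  have hψ : ψ g ≠ 1 := fun h0 => hc h0
  refine ⟨ψ.ker, inferInstance, fun h0 => hψ ?_, ?_⟩
  · have h2 : g ∈ ψ.ker := by
      rw [h0]
      exact Subgroup.mem_top _
    exact h2
  · have h3 : Countable (AddCircle (1 : ℚ)) :=
      (QuotientAddGroup.mk'_surjective (AddSubgroup.zmultiples (1 : ℚ))).countable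
    have h4 : Countable (Multiplicative (AddCircle (1 : ℚ))) := h3
    exact (QuotientGroup.kerLift_injective ψ).countable

section

variable {G : Type} [Group G] {S : Subgroup G}

theorem few_conj {N : Subgroup G} (h : #(Conjugates N) < continuum) :
    SmallIn S (Nrm N) := fun f _ => by
  let C : G → Subgroup G := fun g => N.comap (MulAut.conj g⁻¹).toMonoidHom
  have hC : ∀ g x, x ∈ C g ↔ g⁻¹ * x * g ∈ N := by
    intro g x
    show g⁻¹ * x * g⁻¹⁻¹ ∈ N ↔ _
    rw [inv_inv]
  obtain ⟨x, y, hxy, he⟩ := pigeon h fun x => (⟨C (f x), f x, hC (f x)⟩ : Conjugates N)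
  have he' : C (f x) = C (f y) := congrArg Subtype.val he
  refine ⟨x, y, hxy, fun z hz => ?_, fun z hz => ?_⟩
  · have h1 : f y * z * (f y)⁻¹ ∈ C (f y) := by
      rw [hC]
      have e : (f y)⁻¹ * (f y * z * (f y)⁻¹) * f y = z := by group
      rwa [e]
    rw [← he', hC] at h1
    have e : (f x)⁻¹ * (f y * z * (f y)⁻¹) * f x =
        (f x)⁻¹ * f y * z * ((f x)⁻¹ * f y)⁻¹ := by group
    rwa [e] at h1
  · have h1 : f x * z * (f x)⁻¹ ∈ C (f x) := by
      rw [hC]
      have e : (f x)⁻¹ * (f x * z * (f x)⁻¹) * f x = z := by group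
      rwa [e]
    rw [he', hC] at h1
    have e : (f y)⁻¹ * (f x * z * (f x)⁻¹) * f y =
        ((f x)⁻¹ * f y)⁻¹ * z * ((f x)⁻¹ * f y) := by group
    rwa [e] at h1

theorem normalised (hS : S.Normal) (hs : IsSimpleGroup S)
    (hcent : ∀ a : G, (∀ s ∈ S, a * s = s * a) → a = 1) {N : Subgroup G} (hne : N ≠ ⊥)
    (hN : S ≤ Nrm N) : S ≤ N := by
  have hnorm : (N.subgroupOf S).Normal := ⟨fun x hx g => by
    rw [Subgroup.mem_subgroupOf] at hx ⊢
    exact (hN g.2).1 _ hx⟩
  rcases hs.eq_bot_or_eq_top_of_normal _ hnorm with h | h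
  · exfalso
    apply hne
    rw [eq_bot_iff]
    intro a ha
    rw [Subgroup.mem_bot]
    refine hcent a fun s hsS => ?_
    have h1 : ⁅a, s⁆ ∈ N := by
      have e : ⁅a, s⁆ = a * (s * a⁻¹ * s⁻¹) := by
        rw [commutatorElement_def]
        group
      rw [e]
      exact N.mul_mem ha ((hN hsS).1 _ (N.inv_mem ha))
    have h2 : ⁅a, s⁆ ∈ S := by
      have e : ⁅a, s⁆ = (a * s * a⁻¹) * s⁻¹ := by rw [commutatorElement_def]
      rw [e]
      exact S.mul_mem (hS.conj_mem s hsS a) (S.inv_mem hsS)
    have h3 : (⟨⁅a, s⁆, h2⟩ : S) ∈ N.subgroupOf S := Subgroup.mem_subgroupOf.2 h1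
    rw [h, Subgroup.mem_bot] at h3
    exact commutatorElement_eq_one_iff_mul_comm.1 (congrArg Subtype.val h3)
  · intro x hx
    have h1 : (⟨x, hx⟩ : S) ∈ N.subgroupOf S := by
      rw [h]
      exact Subgroup.mem_top _
    exact Subgroup.mem_subgroupOf.1 h1

end

theorem cc {Z : Type} (h : Countable Z) : #Z < continuum :=
  (Cardinal.mk_le_aleph0_iff.2 h).trans_lt Cardinal.aleph0_lt_continuum

theorem NoSmallIndex.actions {G : Type} [Group G] (h : NoSmallIndex G) :
    CountableActionsTrivial G := by
  intro X _ hX g x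
  have h3 : #(G ⧸ MulAction.stabilizer G x) < continuum := by
    refine lt_of_le_of_lt ?_ (cc hX)
    exact Cardinal.mk_le_of_injective
      (f := MulAction.ofQuotientStabilizer G x) (MulAction.injective_ofQuotientStabilizer G x)
  have h5 : g ∈ MulAction.stabilizer G x := by
    rw [h _ h3]
    exact Subgroup.mem_top _
  exact h5

theorem CountableActionsTrivial.quotient {G : Type} [Group G] (h : CountableActionsTrivial G) :
    NoCountableQuotient G := by
  intro H _ hc
  rw [eq_top_iff]
  intro g _
  have h3 := h (G ⧸ H) hc g ((1 : G) : G ⧸ H)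
  have h4 : ((g * 1 : G) : G ⧸ H) = ((1 : G) : G ⧸ H) := h3
  rw [mul_one, eq_comm, QuotientGroup.eq, inv_one, one_mul] at h4
  exact h4

theorem conj_normal {G : Type} [Group G] {N : Subgroup G} (hN : N.Normal) :
    #(Conjugates N) < continuum := by
  have h1 : Conjugates N ⊆ {N} := by
    rintro N' ⟨g, hg⟩
    rw [Set.mem_singleton_iff]
    ext x
    rw [hg]
    constructor
    · intro h
      have := hN.conj_mem _ h g
      have e : g * (g⁻¹ * x * g) * g⁻¹ = x := by group
      rwa [e] at this
    · intro h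
      have := hN.conj_mem _ h g⁻¹
      rwa [inv_inv] at this
  have h2 : #(Conjugates N) ≤ 1 := by
    refine (Cardinal.mk_le_mk_of_subset h1).trans ?_
    rw [Cardinal.mk_singleton]
  exact h2.trans_lt (Cardinal.one_lt_aleph0.trans Cardinal.aleph0_lt_continuum)

/-- **The consequences.** -/
theorem abs_main {G : Type} [Group G] (S : Subgroup G) (hS : S.Normal) (hs : IsSimpleGroup S)
    (hcent : ∀ a : G, (∀ s ∈ S, a * s = s * a) → a = 1)
    (hsmall : ∀ H : Subgroup G, SmallIn S H → S ≤ H) :
    SmallIndexCore S ∧ ∀ F : Subgroup G, F.Normal → S = ⁅F, F⁆ →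
      (IsSimpleGroup G ↔ F = ⊤ ∧ commutator G = ⊤) → SimpleCriteria F ∧ SubgroupCriteria F S := by
  have hSne : S ≠ ⊥ := by
    rintro rfl
    have := hs.toNontrivial
    exact not_subsingleton _ (inferInstance : Subsingleton (⊥ : Subgroup G))
  have hA : NoSmallIndex S := by
    intro H hH
    have h1 := hsmall _ (smallIn_sub hH)
    rw [eq_top_iff]
    intro x _
    obtain ⟨y, hy, hyx⟩ := h1 x.2
    have : y = x := Subtype.ext hyx
    rwa [← this]
  have hI : ∀ H : Subgroup G, #(G ⧸ H) < continuum → S ≤ H := fun H hH =>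
    hsmall H (smallIn_index hH)
  have hN : ∀ N : Subgroup G, N ≠ ⊥ → #(Conjugates N) < continuum → S ≤ N := fun N hne hN =>
    normalised hS hs hcent hne (hsmall _ (few_conj hN))
  have hGn : Nontrivial G := by
    obtain ⟨x, hx⟩ := (Subgroup.ne_bot_iff_exists_ne_one).1 hSne
    exact ⟨⟨x, 1, fun h => hx (Subtype.ext h)⟩⟩
  refine ⟨⟨hA, ?_, hI, hN⟩, ?_⟩
  · intro X _ hX g x
    have h1 : S ≤ (MulAction.stabilizer S x).map S.subtype := by
      refine hsmall _ fun f hf => ?_
      obtain ⟨a, b, hab, he⟩ := pigeon hX fun a => (⟨f a, hf a⟩ : S) • x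
      refine ⟨a, b, hab, (⟨f a, hf a⟩ : S)⁻¹ * ⟨f b, hf b⟩, ?_, rfl⟩
      show ((⟨f a, hf a⟩ : S)⁻¹ * ⟨f b, hf b⟩) • x = x
      rw [mul_smul, inv_smul_eq_iff]
      exact he.symm
    obtain ⟨y, hy, hyg⟩ := h1 g.2
    have : y = g := Subtype.ext hyg
    rw [← this]
    exact hy
  · intro F hF hSF hsimp
    have hSF' : S ≤ F := by
      rw [hSF]
      exact Subgroup.commutator_le_left _ _
    unfold SimpleCriteria SubgroupCriteria
    constructor
    · tfae_have 1 → 2 := by
        intro h N hNc
        by_cases hb : N = ⊥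
        · exact Or.inl hb
        · right
          have hSt : S = ⊤ := by
            rcases h.eq_bot_or_eq_top_of_normal S hS with h' | h'
            · exact absurd h' hSne
            · exact h'
          rw [eq_top_iff, ← hSt]
          exact hN N hb hNc
      tfae_have 2 → 1 := fun h => ⟨fun N hNn => h N (conj_normal hNn)⟩
      tfae_have 1 → 3 := by
        intro h
        refine ⟨(hsimp.1 h).1, fun H hH => ?_⟩
        have hSt : S = ⊤ := by
          rcases h.eq_bot_or_eq_top_of_normal S hS with h' | h'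
          · exact absurd h' hSne
          · exact h'
        rw [eq_top_iff, ← hSt]
        exact hI H hH
      tfae_have 3 → 4 := fun h => ⟨h.1, h.2.actions⟩
      tfae_have 4 → 5 := fun h => ⟨h.1, h.2.quotient⟩
      tfae_have 5 → 1 := by
        rintro ⟨h1, h2⟩
        refine hsimp.2 ⟨h1, ?_⟩
        by_contra hcon
        obtain ⟨H, hH1, hH2, hH3⟩ := exists_countable hcon
        exact hH2 (h2 H hH1 hH3)
      tfae_finish
    · tfae_have 1 → 2 := by
        intro h
        have hn : (S.subgroupOf F).Normal := ⟨fun x hx g => by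
          rw [Subgroup.mem_subgroupOf] at hx ⊢
          exact hS.conj_mem _ hx g⟩
        rcases h.eq_bot_or_eq_top_of_normal _ hn with h' | h'
        · exfalso
          apply hSne
          rw [eq_bot_iff]
          intro x hx
          have h3 : (⟨x, hSF' hx⟩ : F) ∈ S.subgroupOf F := Subgroup.mem_subgroupOf.2 hx
          rw [h', Subgroup.mem_bot] at h3
          exact congrArg Subtype.val h3
        · exact le_antisymm (Subgroup.subgroupOf_eq_top.1 h') hSF'
      tfae_have 2 → 3 := by
        intro h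
        subst h
        exact hA
      tfae_have 3 → 4 := fun h => h.actions
      tfae_have 4 → 5 := fun h => h.quotient
      tfae_have 5 → 2 := by
        intro h
        have h1 : commutator F = ⊤ := by
          by_contra hcon
          obtain ⟨H, hH1, hH2, hH3⟩ := exists_countable hcon
          exact hH2 (h H hH1 hH3)
        have h2 : (commutator F).map F.subtype = ⁅F, F⁆ := by
          rw [commutator_def, Subgroup.map_commutator, ← MonoidHom.range_eq_map,
            Subgroup.range_subtype]
        rw [h1, ← MonoidHom.range_eq_map, Subgroup.range_subtype] at h2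
        exact h2.trans hSF.symm
      tfae_have 2 → 1 := by
        intro h
        subst h
        exact hs
      tfae_finish

end Pool.Agent.J6H96.SI
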