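import Mathlib

/-!
# Subgroups of small index of infinite products (algebra)
-/

set_option autoImplicit false

open scoped commutatorElement

namespace Pool.Agent.J6H96.SI

/-- every family of elements of `S` indexed by the Cantor set has two members in one left coset of
`H` -/
def SmallIn {G : Type*} [Group G] (S : Subgroup G) (H : Subgroup G) : Prop :=
  ∀ f : (ℕ → Bool) → G, (∀ x, f x ∈ S) → ∃ x y, x ≠ y ∧ (f x)⁻¹ * f y ∈ H

theorem SmallIn.mono {G : Type*} [Group G] {S S' H H' : Subgroup G} (h : SmallIn S H)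
    (hS : S' ≤ S) (hH : H ≤ H') : SmallIn S' H' := fun f hf => by
  obtain ⟨x, y, h1, h2⟩ := h f fun x => hS (hf x)
  exact ⟨x, y, h1, hH h2⟩

theorem SmallIn.comap {G G' : Type*} [Group G] [Group G'] {S H : Subgroup G} (h : SmallIn S H)
    (P : G' →* G) {S' : Subgroup G'} (hS : S' ≤ S.comap P) : SmallIn S' (H.comap P) :=
  fun f hf => by
    obtain ⟨x, y, h1, h2⟩ := h (fun x => P (f x)) fun x => hS (hf x)
    refine ⟨x, y, h1, ?_⟩
    rw [Subgroup.mem_comap, map_mul, map_inv]
    exact h2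

/-- the elements which normalise `T` -/
def Nrm {G : Type*} [Group G] (T : Subgroup G) : Subgroup G where
  carrier := {u | (∀ x ∈ T, u * x * u⁻¹ ∈ T) ∧ ∀ x ∈ T, u⁻¹ * x * u ∈ T}
  one_mem' := ⟨fun x hx => by simpa using hx, fun x hx => by simpa using hx⟩
  mul_mem' := by
    rintro u v ⟨h1, h2⟩ ⟨h3, h4⟩
    refine ⟨fun x hx => ?_, fun x hx => ?_⟩
    · have := h1 _ (h3 x hx)
      have e : u * (v * x * v⁻¹) * u⁻¹ = u * v * x * (u * v)⁻¹ := by group
      rwa [e] at this
    · have := h4 _ (h2 x hx)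
      have e : v⁻¹ * (u⁻¹ * x * u) * v = (u * v)⁻¹ * x * (u * v) := by group
      rwa [e] at this
  inv_mem' := by
    rintro u ⟨h1, h2⟩
    refine ⟨fun x hx => ?_, fun x hx => ?_⟩
    · rw [inv_inv]
      exact h2 x hx
    · rw [inv_inv]
      exact h1 x hx

section block

variable {M : ℕ → Type*} [∀ j, Group (M j)]

/-- the sequences which agree with an element of `H` on the block `i` -/
def onBlock (H : Subgroup (∀ j, M j)) (i : ℕ) : Subgroup (∀ j, M j) where
  carrier := {a | ∃ h ∈ H, ∀ j, j.unpair.1 = i → h j = a j}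
  one_mem' := ⟨1, H.one_mem, fun _ _ => rfl⟩
  mul_mem' := by
    rintro a b ⟨h, hh, h1⟩ ⟨k, hk, h2⟩
    exact ⟨h * k, H.mul_mem hh hk, fun j hj => by
      rw [Pi.mul_apply, Pi.mul_apply, h1 j hj, h2 j hj]⟩
  inv_mem' := by
    rintro a ⟨h, hh, h1⟩
    exact ⟨h⁻¹, H.inv_mem hh, fun j hj => by rw [Pi.inv_apply, Pi.inv_apply, h1 j hj]⟩

theorem exists_block {H : Subgroup (∀ j, M j)} (hH : SmallIn (commutator (∀ j, M j)) H) :
    ∃ i, commutator (∀ j, M j) ≤ onBlock H i := by
  by_contra hcon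
  push Not at hcon
  have h1 : ∀ i, ∃ b c : ∀ j, M j, ⁅b, c⁆ ∉ onBlock H i := by
    intro i
    by_contra hc
    push Not at hc
    refine hcon i ?_
    rw [commutator_def, Subgroup.commutator_le]
    exact fun b _ c _ => hc b c
  choose b c hbc using h1
  let B : (ℕ → Bool) → ∀ j, M j := fun x j => if x j.unpair.1 = true then b j.unpair.1 j else 1
  let C : ∀ j, M j := fun j => c j.unpair.1 j
  obtain ⟨x, y, hxy, hH'⟩ := hH (fun x => ⁅B x, C⁆) fun x =>
    Subgroup.commutator_mem_commutator (Subgroup.mem_top _) (Subgroup.mem_top _)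
  have ev : ∀ (x : ℕ → Bool) (i j : ℕ), j.unpair.1 = i →
      (⁅B x, C⁆ : ∀ j, M j) j = if x i = true then (⁅b i, c i⁆ : ∀ j, M j) j else 1 := by
    intro x i j hj
    subst hj
    rw [commutatorElement_def, commutatorElement_def]
    simp only [Pi.mul_apply, Pi.inv_apply, B, C]
    split_ifs with h
    · rfl
    · group
  obtain ⟨i, hi⟩ : ∃ i, x i ≠ y i := by
    by_contra h
    push Not at h
    exact hxy (funext h)
  cases hx : x i with
  | false =>
    have hy : y i = true := by
      cases hy : y i with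
      | false => exact absurd (hx.trans hy.symm) hi
      | true => rfl
    refine hbc i ⟨_, hH', fun j hj => ?_⟩
    rw [Pi.mul_apply, Pi.inv_apply, ev x i j hj, ev y i j hj, hx, hy]
    simp
  | true =>
    have hy : y i = false := by
      cases hy : y i with
      | false => rfl
      | true => exact absurd (hx.trans hy.symm) hi
    refine hbc i ⟨_, H.inv_mem hH', fun j hj => ?_⟩
    rw [Pi.inv_apply, Pi.mul_apply, Pi.inv_apply, ev x i j hj, ev y i j hj, hx, hy]
    simp

theorem mulSingle_comm (j : ℕ) (a b : M j) :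
    (Pi.mulSingle j ⁅a, b⁆ : ∀ j, M j) = ⁅Pi.mulSingle j a, Pi.mulSingle j b⁆ := by
  rw [commutatorElement_def, commutatorElement_def, Pi.mulSingle_mul, Pi.mulSingle_mul,
    Pi.mulSingle_mul, Pi.mulSingle_inv, Pi.mulSingle_inv]

theorem mulSingle_mem (j : ℕ) {f : M j} (hf : f ∈ commutator (M j)) :
    (Pi.mulSingle j f : ∀ j, M j) ∈ commutator (∀ j, M j) := by
  have h1 : commutator (M j) ≤ (commutator (∀ j, M j)).comap (MonoidHom.mulSingle M j) := by
    rw [commutator_def (M j), Subgroup.commutator_le]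
    intro a _ b _
    rw [Subgroup.mem_comap]
    have : (MonoidHom.mulSingle M j) ⁅a, b⁆ = ⁅Pi.mulSingle j a, Pi.mulSingle j b⁆ :=
      mulSingle_comm j a b
    rw [this]
    exact Subgroup.commutator_mem_commutator (Subgroup.mem_top _) (Subgroup.mem_top _)
  exact h1 hf

/-- **Subgroups of small index of infinite products.** -/
theorem block {H : Subgroup (∀ j, M j)} (hH : SmallIn (commutator (∀ j, M j)) H)
    (u : ∀ j, M j) (hu : ∀ j, ∃ a b : M j, u j = ⁅a, b⁆) :
    ∃ j, (∀ f ∈ commutator (M j), Pi.mulSingle j ⁅f, u j⁆ ∈ H) ∧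
      ∀ f ∈ commutator (M j), ∀ g, Pi.mulSingle j g ∈ H →
        Pi.mulSingle j (f * g * f⁻¹) ∈ H := by
  obtain ⟨i, hi⟩ := exists_block hH
  choose a b hab using hu
  let A : (ℕ → Bool) → ∀ j, M j := fun x j =>
    if j.unpair.1 = i ∧ x j.unpair.2 = true then a j else 1
  obtain ⟨x, y, hxy, hH'⟩ := hH (fun x => ⁅A x, b⁆) fun x =>
    Subgroup.commutator_mem_commutator (Subgroup.mem_top _) (Subgroup.mem_top _)
  have ev : ∀ (x : ℕ → Bool) (j : ℕ), (⁅A x, b⁆ : ∀ j, M j) j =
      if j.unpair.1 = i ∧ x j.unpair.2 = true then u j else 1 := by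
    intro x j
    rw [commutatorElement_def]
    simp only [Pi.mul_apply, Pi.inv_apply, A]
    split_ifs with h
    · rw [hab, commutatorElement_def]
    · group
  obtain ⟨k, hk⟩ : ∃ k, x k ≠ y k := by
    by_contra h
    push Not at h
    exact hxy (funext h)
  set j := Nat.pair i k with hj
  have hj1 : j.unpair.1 = i := by rw [hj, Nat.unpair_pair]
  have hj2 : j.unpair.2 = k := by rw [hj, Nat.unpair_pair]
  -- an element supported in the block
  obtain ⟨κ, hκH, hκj, hκ⟩ : ∃ κ ∈ H, κ j = u j ∧ ∀ j', j'.unpair.1 ≠ i → κ j' = 1 := by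
    cases hx : x k with
    | false =>
      have hy : y k = true := by
        cases hy : y k with
        | false => exact absurd (hx.trans hy.symm) hk
        | true => rfl
      refine ⟨_, hH', ?_, fun j' hj' => ?_⟩
      · rw [Pi.mul_apply, Pi.inv_apply, ev, ev, hj1, hj2, hx, hy]
        simp
      · rw [Pi.mul_apply, Pi.inv_apply, ev, ev, if_neg fun h => hj' h.1, if_neg fun h => hj' h.1]
        group
    | true =>
      have hy : y k = false := by
        cases hy : y k with
        | false => rfl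
        | true => exact absurd (hx.trans hy.symm) hk
      refine ⟨_, H.inv_mem hH', ?_, fun j' hj' => ?_⟩
      · rw [Pi.inv_apply, Pi.mul_apply, Pi.inv_apply, ev, ev, hj1, hj2, hx, hy]
        simp
      · rw [Pi.inv_apply, Pi.mul_apply, Pi.inv_apply, ev, ev, if_neg fun h => hj' h.1,
          if_neg fun h => hj' h.1]
        group
  refine ⟨j, fun f hf => ?_, fun f hf g hg => ?_⟩
  · obtain ⟨h, hh, hh1⟩ := hi (mulSingle_mem j hf)
    have e : (Pi.mulSingle j ⁅f, u j⁆ : ∀ j, M j) = ⁅h, κ⁆ := by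
      funext j'
      have e0 : (⁅h, κ⁆ : ∀ j, M j) j' = h j' * κ j' * (h j')⁻¹ * (κ j')⁻¹ := rfl
      rw [e0]
      rcases eq_or_ne j' j with h0 | h0
      · rw [h0, Pi.mulSingle_eq_same, hh1 j hj1, Pi.mulSingle_eq_same, hκj,
          commutatorElement_def]
      · rw [Pi.mulSingle_eq_of_ne h0]
        by_cases h2 : j'.unpair.1 = i
        · rw [hh1 j' h2, Pi.mulSingle_eq_of_ne h0]
          group
        · rw [hκ j' h2]
          group
    rw [e]
    exact H.mul_mem (H.mul_mem (H.mul_mem hh hκH) (H.inv_mem hh)) (H.inv_mem hκH)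
  · obtain ⟨h, hh, hh1⟩ := hi (mulSingle_mem j hf)
    have e : (Pi.mulSingle j (f * g * f⁻¹) : ∀ j, M j) = h * Pi.mulSingle j g * h⁻¹ := by
      funext j'
      simp only [Pi.mul_apply, Pi.inv_apply]
      rcases eq_or_ne j' j with h0 | h0
      · rw [h0, Pi.mulSingle_eq_same, hh1 j hj1, Pi.mulSingle_eq_same, Pi.mulSingle_eq_same]
      · rw [Pi.mulSingle_eq_of_ne h0, Pi.mulSingle_eq_of_ne h0]
        group
    rw [e]
    exact H.mul_mem (H.mul_mem hh hg) (H.inv_mem hh)

end block

end Pool.Agent.J6H96.SI
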