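import Pool.Agent.J6H96.SI.Alg

/-!
# Sets of small index and increasing sequences of sets in infinite products (algebra)
-/

set_option autoImplicit false

open scoped commutatorElement

namespace Pool.Agent.J6H96.SI

/-- the double commutators `[[h, κ], h']` of elements of `W` -/
def DDW {G : Type*} [Group G] (W : Set G) : Set G :=
  {z | ∃ h ∈ W, ∃ κ ∈ W, ∃ h' ∈ W, z = ⁅⁅h, κ⁆, h'⁆}

/-- their conjugates by elements of `W` -/
def EEW {G : Type*} [Group G] (W : Set G) : Set G := {z | ∃ h ∈ W, ∃ d ∈ DDW W, z = h⁻¹ * d * h}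

theorem DDW.mono {G : Type*} [Group G] {W W' : Set G} (h : W ⊆ W') : DDW W ⊆ DDW W' := by
  rintro _ ⟨a, ha, b, hb, c, hc, rfl⟩
  exact ⟨a, h ha, b, h hb, c, h hc, rfl⟩

theorem EEW.mono {G : Type*} [Group G] {W W' : Set G} (h : W ⊆ W') : EEW W ⊆ EEW W' := by
  rintro _ ⟨a, ha, d, hd, rfl⟩
  exact ⟨a, h ha, d, DDW.mono h hd, rfl⟩

section block

variable {M : ℕ → Type*} [∀ j, Group (M j)]

theorem last {W : Set (∀ j, M j)} {i j : ℕ} (hj : j.unpair.1 = i)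
    (hfull : ∀ b c : ∀ j, M j, ∃ h ∈ W, ∀ j, j.unpair.1 = i → h j = ⁅b j, c j⁆)
    {κ : ∀ j, M j} (hκ : κ ∈ W) (hκo : ∀ j', j'.unpair.1 ≠ i → κ j' = 1) (f₁ f₂ g₁ g₂ : M j) :
    (Pi.mulSingle j ⁅⁅⁅f₁, f₂⁆, κ j⁆, ⁅g₁, g₂⁆⁆ : ∀ j, M j) ∈ DDW W := by
  obtain ⟨h, hh, hh1⟩ := hfull (Pi.mulSingle j f₁) (Pi.mulSingle j f₂)
  obtain ⟨h', hh', hh1'⟩ := hfull (Pi.mulSingle j g₁) (Pi.mulSingle j g₂)
  refine ⟨h, hh, κ, hκ, h', hh', ?_⟩
  have ev : ∀ (a b : M j) (j' : ℕ), ⁅(Pi.mulSingle j a : ∀ j, M j) j',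
      (Pi.mulSingle j b : ∀ j, M j) j'⁆ = (Pi.mulSingle j ⁅a, b⁆ : ∀ j, M j) j' := by
    intro a b j'
    rw [mulSingle_comm]
    rfl
  funext j'
  have e0 : (⁅⁅h, κ⁆, h'⁆ : ∀ j, M j) j' = ⁅⁅h j', κ j'⁆, h' j'⁆ := rfl
  rw [e0]
  rcases eq_or_ne j' j with h0 | h0
  · rw [h0, Pi.mulSingle_eq_same, hh1 j hj, hh1' j hj, ev, ev, Pi.mulSingle_eq_same,
      Pi.mulSingle_eq_same]
  · rw [Pi.mulSingle_eq_of_ne h0]
    by_cases h2 : j'.unpair.1 = i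
    · rw [hh1 j' h2, ev, Pi.mulSingle_eq_of_ne h0]
      simp [commutatorElement_def]
    · rw [hκo j' h2]
      simp [commutatorElement_def]

/-- every family of elements of `S` indexed by the Cantor set has two members with
`(f x)⁻¹ f y ∈ W` -/
def CantorIn {G : Type*} [Group G] (S : Subgroup G) (W : Set G) : Prop :=
  ∀ f : (ℕ → Bool) → G, (∀ x, f x ∈ S) → ∃ x y, x ≠ y ∧ (f x)⁻¹ * f y ∈ W

theorem ne_cases {x y : ℕ → Bool} (h : x ≠ y) :
    ∃ i, (x i = false ∧ y i = true) ∨ (x i = true ∧ y i = false) := by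
  obtain ⟨i, hi⟩ : ∃ i, x i ≠ y i := by
    by_contra h'
    push Not at h'
    exact h (funext h')
  refine ⟨i, ?_⟩
  cases hx : x i with
  | false =>
    left
    cases hy : y i with
    | false => exact absurd (hx.trans hy.symm) hi
    | true => exact ⟨rfl, rfl⟩
  | true =>
    right
    cases hy : y i with
    | false => exact ⟨rfl, rfl⟩
    | true => exact absurd (hx.trans hy.symm) hi

theorem exists_blockW {W : Set (∀ j, M j)} (hW : CantorIn (commutator (∀ j, M j)) W)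
    (hinv : ∀ w ∈ W, w⁻¹ ∈ W) :
    ∃ i, ∀ b c : ∀ j, M j, ∃ h ∈ W, ∀ j, j.unpair.1 = i → h j = ⁅b j, c j⁆ := by
  by_contra hcon
  push Not at hcon
  choose b c hbc using hcon
  let B : (ℕ → Bool) → ∀ j, M j := fun x j => if x j.unpair.1 = true then b j.unpair.1 j else 1
  let C : ∀ j, M j := fun j => c j.unpair.1 j
  obtain ⟨x, y, hxy, hH'⟩ := hW (fun x => ⁅B x, C⁆) fun x =>
    Subgroup.commutator_mem_commutator (Subgroup.mem_top _) (Subgroup.mem_top _)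
  have ev : ∀ (x : ℕ → Bool) (i j : ℕ), j.unpair.1 = i →
      (⁅B x, C⁆ : ∀ j, M j) j = if x i = true then ⁅b i j, c i j⁆ else 1 := by
    intro x i j hj
    subst hj
    have e0 : (⁅B x, C⁆ : ∀ j, M j) j = ⁅B x j, C j⁆ := rfl
    rw [e0]
    show ⁅(if x j.unpair.1 = true then b j.unpair.1 j else 1), c j.unpair.1 j⁆ = _
    split_ifs with h
    · rfl
    · simp [commutatorElement_def]
  obtain ⟨i, ⟨hx, hy⟩ | ⟨hx, hy⟩⟩ := ne_cases hxy
  · obtain ⟨j, hj, hj'⟩ := hbc i _ hH'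
    apply hj'
    rw [Pi.mul_apply, Pi.inv_apply, ev x i j hj, ev y i j hj, hx, hy]
    simp
  · obtain ⟨j, hj, hj'⟩ := hbc i _ (hinv _ hH')
    apply hj'
    rw [Pi.inv_apply, Pi.mul_apply, Pi.inv_apply, ev x i j hj, ev y i j hj, hx, hy]
    simp

/-- **Sets of small index of infinite products.** -/
theorem blockW {W : Set (∀ j, M j)} (hW : CantorIn (commutator (∀ j, M j)) W)
    (hinv : ∀ w ∈ W, w⁻¹ ∈ W) (u : ∀ j, M j) (hu : ∀ j, ∃ a b : M j, u j = ⁅a, b⁆) :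
    ∃ j, ∀ f₁ f₂ g₁ g₂ : M j,
      (Pi.mulSingle j ⁅⁅⁅f₁, f₂⁆, u j⁆, ⁅g₁, g₂⁆⁆ : ∀ j, M j) ∈ DDW W := by
  obtain ⟨i, hi⟩ := exists_blockW hW hinv
  choose a b hab using hu
  let A : (ℕ → Bool) → ∀ j, M j := fun x j =>
    if j.unpair.1 = i ∧ x j.unpair.2 = true then a j else 1
  obtain ⟨x, y, hxy, hH'⟩ := hW (fun x => ⁅A x, b⁆) fun x =>
    Subgroup.commutator_mem_commutator (Subgroup.mem_top _) (Subgroup.mem_top _)
  have ev : ∀ (x : ℕ → Bool) (j : ℕ), (⁅A x, b⁆ : ∀ j, M j) j =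
      if j.unpair.1 = i ∧ x j.unpair.2 = true then u j else 1 := by
    intro x j
    have e0 : (⁅A x, b⁆ : ∀ j, M j) j = ⁅A x j, b j⁆ := rfl
    rw [e0]
    show ⁅(if j.unpair.1 = i ∧ x j.unpair.2 = true then a j else 1), b j⁆ = _
    split_ifs with h
    · rw [hab]
    · simp [commutatorElement_def]
  obtain ⟨k, hk⟩ := ne_cases hxy
  set j := Nat.pair i k with hj
  have hj1 : j.unpair.1 = i := by rw [hj, Nat.unpair_pair]
  have hj2 : j.unpair.2 = k := by rw [hj, Nat.unpair_pair]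
  obtain ⟨κ, hκH, hκj, hκ⟩ : ∃ κ ∈ W, κ j = u j ∧ ∀ j', j'.unpair.1 ≠ i → κ j' = 1 := by
    rcases hk with ⟨hx, hy⟩ | ⟨hx, hy⟩
    · refine ⟨_, hH', ?_, fun j' hj' => ?_⟩
      · rw [Pi.mul_apply, Pi.inv_apply, ev, ev, hj1, hj2, hx, hy]
        simp
      · rw [Pi.mul_apply, Pi.inv_apply, ev, ev, if_neg fun h => hj' h.1, if_neg fun h => hj' h.1]
        group
    · refine ⟨_, hinv _ hH', ?_, fun j' hj' => ?_⟩
      · rw [Pi.inv_apply, Pi.mul_apply, Pi.inv_apply, ev, ev, hj1, hj2, hx, hy]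
        simp
      · rw [Pi.inv_apply, Pi.mul_apply, Pi.inv_apply, ev, ev, if_neg fun h => hj' h.1,
          if_neg fun h => hj' h.1]
        group
  refine ⟨j, fun f₁ f₂ g₁ g₂ => ?_⟩
  have := last hj1 hi hκH hκ f₁ f₂ g₁ g₂
  rwa [hκj] at this

/-- **Increasing sequences of sets.** -/
theorem blockL {W : ℕ → Set (∀ j, M j)} (hmono : Monotone W)
    (hcov : ∀ a ∈ commutator (∀ j, M j), ∃ k, a ∈ W k) (u : ∀ j, M j)
    (hu : ∀ j, ∃ a b : M j, u j = ⁅a, b⁆) :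
    ∃ j, ∀ f₁ f₂ g₁ g₂ : M j,
      (Pi.mulSingle j ⁅⁅⁅f₁, f₂⁆, u j⁆, ⁅g₁, g₂⁆⁆ : ∀ j, M j) ∈ DDW (W j) := by
  obtain ⟨i, hi⟩ : ∃ i, ∀ b c : ∀ j, M j, ∃ h ∈ W i, ∀ j, j.unpair.1 = i →
      h j = ⁅b j, c j⁆ := by
    by_contra hcon
    push Not at hcon
    choose b c hbc using hcon
    let B : ∀ j, M j := fun j => b j.unpair.1 j
    let C : ∀ j, M j := fun j => c j.unpair.1 j
    obtain ⟨k, hk⟩ := hcov ⁅B, C⁆
      (Subgroup.commutator_mem_commutator (Subgroup.mem_top _) (Subgroup.mem_top _))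
    obtain ⟨j, hj, hj'⟩ := hbc k _ hk
    apply hj'
    subst hj
    rfl
  choose a b hab using hu
  let A : ∀ j, M j := fun j => if j.unpair.1 = i then a j else 1
  obtain ⟨m, hm⟩ := hcov ⁅A, b⁆
    (Subgroup.commutator_mem_commutator (Subgroup.mem_top _) (Subgroup.mem_top _))
  have ev : ∀ j : ℕ, (⁅A, b⁆ : ∀ j, M j) j = if j.unpair.1 = i then u j else 1 := by
    intro j
    have e0 : (⁅A, b⁆ : ∀ j, M j) j = ⁅A j, b j⁆ := rfl
    rw [e0]
    show ⁅(if j.unpair.1 = i then a j else 1), b j⁆ = _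
    split_ifs with h
    · rw [hab]
    · simp [commutatorElement_def]
  set j := Nat.pair i m with hj
  have hj1 : j.unpair.1 = i := by rw [hj, Nat.unpair_pair]
  have hij : i ≤ j := Nat.left_le_pair i m
  have hmj : m ≤ j := Nat.right_le_pair i m
  refine ⟨j, fun f₁ f₂ g₁ g₂ => ?_⟩
  have := last (W := W j) (κ := ⁅A, b⁆) hj1 (fun b c => by
    obtain ⟨h, hh, hh1⟩ := hi b c
    exact ⟨h, hmono hij hh, hh1⟩) (hmono hmj hm) (fun j' hj' => by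
    rw [ev, if_neg hj']) f₁ f₂ g₁ g₂
  rwa [ev, if_pos hj1] at this

end block

/-- the property which is used -/
structure Fills {X : Type} [Group X] (S : Subgroup X) (W : ℕ → Set X) : Prop where
  mono : Monotone W
  blk : ∀ (M : ℕ → Type) [∀ j, Group (M j)] (P : (∀ j, M j) →* X),
    commutator (∀ j, M j) ≤ S.comap P → ∀ u : ∀ j, M j, (∀ j, ∃ a b : M j, u j = ⁅a, b⁆) →
    ∃ j, ∀ f₁ f₂ g₁ g₂ : M j, P (Pi.mulSingle j ⁅⁅⁅f₁, f₂⁆, u j⁆, ⁅g₁, g₂⁆⁆) ∈ DDW (W j)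
  two : ∀ f : (ℕ → Bool) → X, (∀ x, f x ∈ S) → ∃ k x y, x ≠ y ∧ (f x)⁻¹ * f y ∈ W k

theorem DDW.map {G G' : Type*} [Group G] [Group G'] (P : G →* G') {W : Set G'} {z : G}
    (hz : z ∈ DDW (P ⁻¹' W)) : P z ∈ DDW W := by
  obtain ⟨a, ha, b, hb, c, hc, rfl⟩ := hz
  exact ⟨_, ha, _, hb, _, hc, by simp only [map_commutatorElement]⟩

theorem fills_cantor {X : Type} [Group X] {S : Subgroup X} {W : Set X} (hW : CantorIn S W)
    (hinv : ∀ w ∈ W, w⁻¹ ∈ W) : Fills S fun _ => W where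
  mono := fun _ _ _ => le_rfl
  blk := by
    intro M _ P hP u hu
    obtain ⟨j, hj⟩ := blockW (W := P ⁻¹' W) (fun f hf => by
      obtain ⟨x, y, hxy, h⟩ := hW (fun x => P (f x)) fun x => hP (hf x)
      refine ⟨x, y, hxy, ?_⟩
      show P ((f x)⁻¹ * f y) ∈ W
      rw [map_mul, map_inv]
      exact h) (fun w hw => by
        show P w⁻¹ ∈ W
        rw [map_inv]
        exact hinv _ hw) u hu
    exact ⟨j, fun f₁ f₂ g₁ g₂ => DDW.map P (hj f₁ f₂ g₁ g₂)⟩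
  two := fun f hf => ⟨0, hW f hf⟩

theorem fills_cover {X : Type} [Group X] {S : Subgroup X} {W : ℕ → Set X} (hmono : Monotone W)
    (hcov : ∀ x ∈ S, ∃ k, x ∈ W k) : Fills S W where
  mono := hmono
  blk := by
    intro M _ P hP u hu
    obtain ⟨j, hj⟩ := blockL (W := fun k => P ⁻¹' W k)
      (fun _ _ h => Set.preimage_mono (hmono h)) (fun a ha => hcov _ (hP ha)) u hu
    exact ⟨j, fun f₁ f₂ g₁ g₂ => DDW.map P (hj f₁ f₂ g₁ g₂)⟩
  two := fun f hf => by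
    obtain ⟨k, hk⟩ := hcov _ (S.mul_mem (S.inv_mem (hf fun _ => false)) (hf fun _ => true))
    exact ⟨k, _, _, fun h => Bool.false_ne_true (congrFun h 0), hk⟩

end Pool.Agent.J6H96.SI
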