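import Pool.Agent.J6H96.SI.Gen2

/-!
# Homomorphisms to countable groups; subadditive functions on countable groups
-/

set_option autoImplicit false

open Set

namespace Pool.Agent.J6H96.SI

section countable

/-- a homomorphism to a countable group which is injective on a given countable subgroup -/
theorem ext_hom {A : Type} [AddCommGroup A] (φ : (ℕ →₀ ℤ) →+ A) :
    ∃ (D : Type) (_ : AddCommGroup D) (_ : Countable D) (h : A →+ D),
      ∀ z, h (φ z) = 0 → φ z = 0 := by
  let ι : (ℕ →₀ ℤ) →+ (ℕ →₀ ℚ) := Finsupp.mapRange.addMonoidHom (Int.castAddHom ℚ)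
  have hι : Function.Injective ι := by
    intro x y hxy
    ext k
    have h1 : ι x k = ι y k := by rw [hxy]
    have h2 : ((x k : ℤ) : ℚ) = ((y k : ℤ) : ℚ) := h1
    exact_mod_cast h2
  let K : AddSubgroup (ℕ →₀ ℚ) := φ.ker.map ι
  let D := (ℕ →₀ ℚ) ⧸ K
  let i1 : DivisibleBy (ℕ →₀ ℚ) ℕ :=
    { div := fun a m => ((m : ℚ)⁻¹) • a
      div_zero := fun a => by simp
      div_cancel := fun {m} a hm => by
        have h1 : (m : ℚ) ≠ 0 := by exact_mod_cast hm
        rw [← Nat.cast_smul_eq_nsmul ℚ, smul_smul, mul_inv_cancel₀ h1, one_smul] }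
  let i2 : DivisibleBy D ℕ := QuotientAddGroup.divisibleBy K
  let i3 : DivisibleBy D ℤ := AddGroup.divisibleByIntOfDivisibleByNat D
  have hB : Module.Baer ℤ D := Module.Baer.of_divisible D
  have hker : φ.ker ≤ ((QuotientAddGroup.mk' K).comp ι).ker := by
    intro z hz
    rw [AddMonoidHom.mem_ker, AddMonoidHom.comp_apply, QuotientAddGroup.mk'_apply,
      QuotientAddGroup.eq_zero_iff]
    exact ⟨z, hz, rfl⟩
  let g : φ.range →+ D := (QuotientAddGroup.lift φ.ker ((QuotientAddGroup.mk' K).comp ι)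
    hker).comp (QuotientAddGroup.quotientKerEquivRange φ).symm.toAddMonoidHom
  obtain ⟨h, hh⟩ := hB.extension_property_addMonoidHom φ.range.subtype
    (AddSubgroup.subtype_injective _) g
  have hcount : Countable D := (QuotientAddGroup.mk'_surjective K).countable
  refine ⟨D, inferInstance, hcount, h, fun z hz => ?_⟩
  have h1 : h (φ z) = g ⟨φ z, z, rfl⟩ := by
    rw [← hh]
    rfl
  have h2 : (QuotientAddGroup.quotientKerEquivRange φ).symm ⟨φ z, z, rfl⟩ =
      ((z : (ℕ →₀ ℤ)) : (ℕ →₀ ℤ) ⧸ φ.ker) := by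
    rw [AddEquiv.symm_apply_eq]
    rfl
  have h3 : g ⟨φ z, z, rfl⟩ = (QuotientAddGroup.mk' K) (ι z) := by
    show (QuotientAddGroup.lift φ.ker ((QuotientAddGroup.mk' K).comp ι) hker)
      ((QuotientAddGroup.quotientKerEquivRange φ).symm ⟨φ z, z, rfl⟩) = _
    rw [h2]
    rfl
  rw [h1, h3, QuotientAddGroup.mk'_apply, QuotientAddGroup.eq_zero_iff] at hz
  obtain ⟨z', hz', he⟩ := hz
  rw [← hι he]
  exact hz'

/-- the homomorphism with given values on a basis -/
theorem exists_phi {A : Type} [AddCommGroup A] (e : ℕ → A) :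
    ∃ φ : (ℕ →₀ ℤ) →+ A, ∀ k, φ (Finsupp.single k 1) = e k := by
  refine ⟨Finsupp.liftAddHom fun k => zmultiplesHom A (e k), fun k => ?_⟩
  rw [Finsupp.liftAddHom_apply_single]
  simp

/-- a homomorphism to a countable group which does not kill the given elements -/
theorem hom_ne {A : Type} [AddCommGroup A] (e : ℕ → A) :
    ∃ (D : Type) (_ : AddCommGroup D) (_ : Countable D) (h : A →+ D),
      ∀ k, h (e k) = 0 → e k = 0 := by
  obtain ⟨φ, hφ⟩ := exists_phi e
  obtain ⟨D, i1, i2, h, hh⟩ := ext_hom φ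
  refine ⟨D, i1, i2, h, fun k hk => ?_⟩
  have := hh (Finsupp.single k 1)
  rw [hφ] at this
  exact this hk

/-- a homomorphism to a countable group such that the images of given infinite sets are infinite -/
theorem hom_infinite {A : Type} [AddCommGroup A] (B : ℕ → Set A) (hB : ∀ k, (B k).Infinite) :
    ∃ (D : Type) (_ : AddCommGroup D) (_ : Countable D) (h : A →+ D),
      ∀ k, (h '' B k).Infinite := by
  let e : ℕ → A := fun j => ((hB j.unpair.1).natEmbedding (B j.unpair.1) j.unpair.2 : A)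
  obtain ⟨φ, hφ⟩ := exists_phi e
  obtain ⟨D, i1, i2, h, hh⟩ := ext_hom φ
  refine ⟨D, i1, i2, h, fun k => ?_⟩
  let a : ℕ → A := fun i => ((hB k).natEmbedding (B k) i : A)
  have ha : ∀ i, a i = e (Nat.pair k i) := by
    intro i
    show _ = ((hB (Nat.pair k i).unpair.1).natEmbedding (B (Nat.pair k i).unpair.1)
      (Nat.pair k i).unpair.2 : A)
    rw [Nat.unpair_pair]
  have hinj : Function.Injective fun i => h (a i) := by
    intro i j hij
    have h1 : h (φ (Finsupp.single (Nat.pair k i) 1 - Finsupp.single (Nat.pair k j) 1)) = 0 := by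
      rw [map_sub, hφ, hφ, map_sub, ← ha, ← ha, sub_eq_zero]
      exact hij
    have h2 := hh _ h1
    rw [map_sub, hφ, hφ, ← ha, ← ha, sub_eq_zero] at h2
    exact ((hB k).natEmbedding (B k)).injective (Subtype.ext h2)
  refine (infinite_range_of_injective hinj).mono ?_
  rintro _ ⟨i, rfl⟩
  exact ⟨a i, ((hB k).natEmbedding (B k) i).2, rfl⟩

end countable

section proper

variable {D : Type*} [Group D]

/-- the weight of a word -/
def wt (l : List ℕ) : ℕ := (l.map fun i => i + 1).sum

theorem wt_append (l l' : List ℕ) : wt (l ++ l') = wt l + wt l' := by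
  unfold wt
  rw [List.map_append, List.sum_append]

theorem fin_wt (d : ℕ → D) (m : ℕ) : {g | ∃ l, wt l ≤ m ∧ (l.map d).prod = g}.Finite := by
  induction m with
  | zero =>
    refine (finite_singleton (1 : D)).subset ?_
    rintro g ⟨l, hl, rfl⟩
    cases l with
    | nil => rfl
    | cons i l =>
      exfalso
      unfold wt at hl
      rw [List.map_cons, List.sum_cons] at hl
      omega
  | succ m ih =>
    refine ((finite_singleton (1 : D)).union ((finite_le_nat m).biUnion fun i _ =>
      ih.image fun x => d i * x)).subset ?_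
    rintro g ⟨l, hl, rfl⟩
    cases l with
    | nil => exact Or.inl rfl
    | cons i l =>
      unfold wt at hl
      rw [List.map_cons, List.sum_cons] at hl
      refine Or.inr (mem_iUnion₂.2 ⟨i, by show i ≤ m; omega, (l.map d).prod, ⟨l, ?_, rfl⟩, ?_⟩)
      · unfold wt
        omega
      · rw [List.map_cons, List.prod_cons]

/-- a proper subadditive function -/
theorem exists_proper [Countable D] : ∃ ν : D → ℝ, Subadd ν ∧ ∀ C : ℝ, {g | ν g ≤ C}.Finite := by
  obtain ⟨d, hd⟩ := exists_surjective_nat D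
  have hne : ∀ g : D, {k | ∃ l, wt l = k ∧ (l.map d).prod = g}.Nonempty := by
    intro g
    obtain ⟨i, rfl⟩ := hd g
    exact ⟨_, [i], rfl, by simp⟩
  refine ⟨fun g => (sInf {k | ∃ l, wt l = k ∧ (l.map d).prod = g} : ℕ), fun g h => ?_,
    fun C => ?_⟩
  · obtain ⟨l, hl, hl'⟩ := Nat.sInf_mem (hne g)
    obtain ⟨k, hk, hk'⟩ := Nat.sInf_mem (hne h)
    have h1 : sInf {k | ∃ l, wt l = k ∧ (l.map d).prod = g * h} ≤ wt (l ++ k) :=
      Nat.sInf_le ⟨l ++ k, rfl, by rw [List.map_append, List.prod_append, hl', hk']⟩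
    rw [wt_append, hl, hk] at h1
    dsimp only
    exact_mod_cast h1
  · obtain ⟨m, hm⟩ := exists_nat_ge C
    refine (fin_wt d m).subset fun g hg => ?_
    obtain ⟨l, hl, hl'⟩ := Nat.sInf_mem (hne g)
    refine ⟨l, ?_, hl'⟩
    have h2 : ((sInf {k | ∃ l, wt l = k ∧ (l.map d).prod = g} : ℕ) : ℝ) ≤ C := hg
    rw [hl]
    exact_mod_cast h2.trans hm

end proper

end Pool.Agent.J6H96.SI
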