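import Pool.Agent.J6H96.SI.Gen2
import Pool.Agent.J6H96.SI.AlgW
import Pool.Agent.J6H96.SI.Abs
import Pool.Agent.J6H85.LR.Alg

/-!
# Subadditive functions and homomorphisms to narrow groups
-/

set_option autoImplicit false

open Set Topology Filter Cardinal
open Pool.Agent.J6H85.LR (Prods)
open scoped commutatorElement

namespace Pool.Agent.J6H96.SI

/-- the elements of length at most `k` -/
def Yb {T : Type*} [Group T] (ν : T → ℝ) (k : ℕ) : Set T := {s | ν s ≤ k ∧ ν s⁻¹ ≤ k}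

theorem Yb_inv {T : Type*} [Group T] {ν : T → ℝ} {k : ℕ} {s : T} (h : s ∈ Yb ν k) :
    s⁻¹ ∈ Yb ν k := ⟨h.2, by rw [inv_inv]; exact h.1⟩

theorem image_inv {T X : Type*} [Group T] [Group X] (f : T →* X) {Y : Set T}
    (hY : ∀ y ∈ Y, y⁻¹ ∈ Y) : ∀ w ∈ f '' Y, w⁻¹ ∈ f '' Y := by
  rintro _ ⟨y, hy, rfl⟩
  exact ⟨y⁻¹, hY y hy, map_inv f y⟩

theorem fills_sub {T X : Type} [Group T] [Group X] (f : T →* X) {S : Subgroup X}
    (hS : S ≤ f.range) (ν : T → ℝ) : Fills S fun k => f '' Yb ν k := by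
  refine fills_cover (fun k m hkm => image_mono ?_) fun x hx => ?_
  · rintro s ⟨h1, h2⟩
    have h3 : (k : ℝ) ≤ m := by exact_mod_cast hkm
    exact ⟨h1.trans h3, h2.trans h3⟩
  · obtain ⟨t, rfl⟩ := hS hx
    obtain ⟨k, hk⟩ := exists_nat_ge (max (ν t) (ν t⁻¹))
    exact ⟨k, t, ⟨(le_max_left _ _).trans hk, (le_max_right _ _).trans hk⟩, rfl⟩

theorem fills_narrow {T X : Type} [Group T] [Group X] (f : T →* X) {S : Subgroup X}
    (hS : S ≤ f.range) {L : Type} [Group L] [TopologicalSpace L] [IsTopologicalGroup L]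
    (hL : Narrow L) (π : T →* L) {V : Set L} (hV : V ∈ 𝓝 (1 : L)) (hinv : ∀ v ∈ V, v⁻¹ ∈ V) :
    Fills S fun _ => f '' {s | π s ∈ V} := by
  refine fills_cantor (fun g hg => ?_) (image_inv f fun s hs => by
    show π s⁻¹ ∈ V
    rw [map_inv]
    exact hinv _ hs)
  have hg' : ∀ x, ∃ t : T, f t = g x := fun x => hS (hg x)
  choose t ht using hg'
  obtain ⟨V₁, hV₁, h1⟩ := exists_nhds_split_inv hV
  obtain ⟨C, hC, h2⟩ := hL V₁⁻¹ (inv_mem_nhds_one L hV₁)
  have h2' : ∀ x, ∃ c : C, (c : L)⁻¹ * π (t x) ∈ V₁⁻¹ := fun x => by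
    obtain ⟨c, hc, h⟩ := h2 (π (t x))
    exact ⟨⟨c, hc⟩, h⟩
  choose c hc using h2'
  obtain ⟨x, y, hxy, he⟩ := pigeon hC c
  refine ⟨x, y, hxy, (t x)⁻¹ * t y, ?_, by rw [map_mul, map_inv, ht, ht]⟩
  show π ((t x)⁻¹ * t y) ∈ V
  have h3 := h1 _ (hc x) _ (hc y)
  rw [he] at h3
  have e : ((c y : L)⁻¹ * π (t x))⁻¹ / ((c y : L)⁻¹ * π (t y))⁻¹ = π ((t x)⁻¹ * t y) := by
    rw [map_mul, map_inv, div_eq_mul_inv]
    group
  rwa [e] at h3

/-- small products -/
theorem nhds_prods {L : Type*} [Group L] [TopologicalSpace L] [IsTopologicalGroup L] {V : Set L}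
    (hV : V ∈ 𝓝 (1 : L)) (k : ℕ) :
    ∃ V' ∈ 𝓝 (1 : L), (∀ v ∈ V', v⁻¹ ∈ V') ∧ Prods V' k ⊆ V := by
  obtain ⟨V', hV', h⟩ : ∃ V' ∈ 𝓝 (1 : L), Prods V' k ⊆ V := by
    induction k generalizing V with
    | zero =>
      refine ⟨V, hV, ?_⟩
      rintro _ ⟨l, hl, -, rfl⟩
      have : l = [] := List.length_eq_zero_iff.1 (Nat.le_zero.1 hl)
      rw [this, List.prod_nil]
      exact mem_of_mem_nhds hV
    | succ k ih =>
      obtain ⟨V₁, hV₁, h1⟩ := exists_nhds_one_split hV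
      obtain ⟨V₂, hV₂, h2⟩ := ih hV₁
      refine ⟨V₁ ∩ V₂, inter_mem hV₁ hV₂, ?_⟩
      rintro _ ⟨l, hl, hlX, rfl⟩
      cases l with
      | nil =>
        rw [List.prod_nil]
        exact mem_of_mem_nhds hV
      | cons x l =>
        rw [List.prod_cons]
        refine h1 _ (hlX x List.mem_cons_self).1 _ (h2 ⟨l, ?_, fun y hy => ?_, rfl⟩)
        · rw [List.length_cons] at hl
          omega
        · exact (hlX y (List.mem_cons_of_mem _ hy)).2
  refine ⟨V' ∩ V'⁻¹, inter_mem hV' (inv_mem_nhds_one L hV'), ?_, ?_⟩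
  · rintro v ⟨h1, h2⟩
    exact ⟨h2, by rw [Set.mem_inv, inv_inv]; exact h1⟩
  · exact (Pool.Agent.J6H85.LR.Prods.mono inter_subset_left le_rfl).trans h

theorem sub_bound {T : Type*} [Group T] {ν : T → ℝ} (hν : Subadd ν) {k m : ℕ} {x : T}
    (hx : x ∈ Prods (Yb ν k) m) : ν x ≤ ν 1 + m * k := by
  obtain ⟨l, hl, hlX, rfl⟩ := hx
  have h2 : ν l.prod ≤ ν 1 + l.length * k := by
    clear hl
    induction l with
    | nil =>
      rw [List.prod_nil, List.length_nil, Nat.cast_zero, zero_mul, add_zero]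
    | cons x l ih =>
      rw [List.prod_cons, List.length_cons]
      have h3 := hν x l.prod
      have h4 := (hlX x List.mem_cons_self).1
      have h5 := ih fun y hy => hlX y (List.mem_cons_of_mem _ hy)
      push_cast
      linarith
  have h3 : (l.length : ℝ) ≤ m := by exact_mod_cast hl
  have h4 : (0 : ℝ) ≤ k := Nat.cast_nonneg k
  nlinarith

/-- a discrete group with fewer than continuum many elements is narrow -/
theorem narrow_card (L : Type) [Group L] [TopologicalSpace L] (h : #L < continuum) :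
    Narrow L := fun V hV => ⟨Set.univ, by rwa [Cardinal.mk_univ], fun g => ⟨g, mem_univ _, by
  rw [inv_mul_cancel]
  exact mem_of_mem_nhds hV⟩⟩

/-- separable groups are narrow -/
theorem narrow_separable (L : Type) [Group L] [TopologicalSpace L] [IsTopologicalGroup L]
    [TopologicalSpace.SeparableSpace L] : Narrow L := by
  intro V hV
  obtain ⟨C, hC, hd⟩ := TopologicalSpace.exists_countable_dense L
  refine ⟨C, cc hC.to_subtype, fun g => ?_⟩
  have h1 : {c : L | c⁻¹ * g ∈ V} ∈ 𝓝 g := by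
    have h2 : ContinuousAt (fun c : L => c⁻¹ * g) g := by fun_prop
    have h3 : V ∈ 𝓝 (g⁻¹ * g) := by
      rw [inv_mul_cancel]
      exact hV
    exact h2.preimage_mem_nhds h3
  obtain ⟨c, hc1, hc2⟩ := hd.inter_nhds_nonempty h1
  exact ⟨c, hc1, hc2⟩

/-- transfer -/
theorem mem_prods_image {T X : Type*} [Group T] [Group X] (f : T →* X)
    (hf : Function.Injective f) {Y : Set T} {m : ℕ} {t : T} (h : f t ∈ Prods (f '' Y) m) :
    t ∈ Prods Y m := by
  obtain ⟨l, h1, h2, h3⟩ := h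
  obtain ⟨l', h4, h5⟩ : ∃ l' : List T, (∀ y ∈ l', y ∈ Y) ∧ l'.map f = l := by
    clear h1 h3
    induction l with
    | nil => exact ⟨[], by simp, rfl⟩
    | cons x l ih =>
      obtain ⟨l', h4, h5⟩ := ih fun y hy => h2 y (List.mem_cons_of_mem _ hy)
      obtain ⟨y, hy, hyx⟩ := h2 x List.mem_cons_self
      refine ⟨y :: l', ?_, by rw [List.map_cons, hyx, h5]⟩
      intro z hz
      rcases List.mem_cons.1 hz with rfl | hz
      · exact hy
      · exact h4 z hz
  refine ⟨l', ?_, h4, hf ?_⟩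
  · rw [← h5, List.length_map] at h1
    exact h1
  · rw [map_list_prod, h5, h3]

end Pool.Agent.J6H96.SI
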