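import Pool.Agent.J6H85.ZO.Main0
import Pool.Agent.J6H96.SI.Cdiv
import Pool.Agent.J6H96.SI.HomW

/-!
# The images of the elements with small supports in the abelianization
-/

set_option autoImplicit false

open Set Filter Topology Function TopologicalSpace MeasureTheory
open Pool.Agent.Y453.HB
open Pool.Agent.N235.DH
open Pool.Agent.J6H85.LR (Prods Sh sc sc_coe mem_Sh)
open Pool.Agent.J6H85.ZO
open scoped commutatorElement

namespace Pool.Agent.J6H96.SI

variable {n : ℕ}

theorem ana_comm : Ana (commutator (HamBar n) : Set (HamBar n)) := by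
  intro K hK
  have t := tame_comm (n := n)
  have e : (commutator (HamBar n) : Set (HamBar n)) =
      ⋃ m, Prods (CommIn (Ex n m : Set (E n))) m := by
    apply Subset.antisymm t.union
    refine iUnion_subset fun m => ?_
    intro x hx
    exact Pool.Agent.J6H85.LR.Prods.mem_subgroup (t.sub m) hx
  rw [e, preimage_iUnion]
  refine AnalyticSet.iUnion fun m => ?_
  obtain ⟨L, hL, T, hT, hX⟩ := t.ana m
  rw [hX, prods_image]
  exact ana_image hL (ana_prods hT m) K hK

/-- a proper subgroup of the form `{g : g^{(t)} ∈ [G, G]}` has index at least the continuum -/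
theorem comap_card {t : ℝ} (ht : 0 < t) (ht1 : t ≤ 1)
    (h : (commutator (HamBar n)).comap (sc t ht ht1) ≠ ⊤) :
    Cardinal.continuum ≤ Cardinal.mk
      (HamBar n ⧸ (commutator (HamBar n)).comap (sc t ht ht1)) := by
  set N := (commutator (HamBar n)).comap (sc t ht ht1) with hN
  obtain ⟨m, hm⟩ : ∃ m, IsMeagre (toH (Ex_InB (n := n) m) ⁻¹' (N : Set (HamBar n))) := by
    by_contra hcon
    push Not at hcon
    apply h
    apply open_top
    intro K hK hKQ
    obtain ⟨m, hm⟩ := exists_Ex hK hKQ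
    have hb : BaireMeasurableSet (toH (Ex_InB (n := n) m) ⁻¹' (N : Set (HamBar n))) := by
      have e : toH (Ex_InB (n := n) m) ⁻¹' (N : Set (HamBar n)) =
          scG t ht ht1 m ⁻¹' (toH (Ex_InB (n := n) m) ⁻¹'
            (commutator (HamBar n) : Set (HamBar n))) := rfl
      rw [e]
      exact analytic_baire ((ana_comm _ _).preimage (scG_cont t ht ht1 m))
    obtain ⟨ε, hε, h1⟩ := bp_ball (Ex_InB m) hb (hcon m)
    exact ⟨ε, hε, fun φ hφ => h1 ⟨HK_mono hm hφ.1, hφ.2⟩⟩
  exact card_of_meagre _ hm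

/-- the image of `Sh n t` in the abelianization is trivial or infinite -/
theorem image_infinite {t : ℝ} (ht : 0 < t) (ht1 : t ≤ 1)
    (h : ¬ Sh n t ⊆ commutator (HamBar n)) :
    ((fun φ : HamBar n => Additive.ofMul (Abelianization.of φ)) '' Sh n t).Infinite := by
  have h1 : (commutator (HamBar n)).comap (sc t ht ht1) ≠ ⊤ := by
    intro htop
    apply h
    intro x hx
    obtain ⟨g, rfl⟩ := (mem_Sh ht ht1).1 hx
    have h2 : g ∈ (commutator (HamBar n)).comap (sc t ht ht1) := by
      rw [htop]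
      exact Subgroup.mem_top _
    exact h2
  have h2 := comap_card ht ht1 h1
  intro hfin
  have h3 : Finite (HamBar n ⧸ (commutator (HamBar n)).comap (sc t ht ht1)) := by
    let ψ : HamBar n →* Abelianization (HamBar n) := Abelianization.of.comp (sc t ht ht1)
    have hk : (commutator (HamBar n)).comap (sc t ht ht1) = ψ.ker := by
      ext g
      rw [Subgroup.mem_comap, MonoidHom.mem_ker, MonoidHom.comp_apply, ← MonoidHom.mem_ker,
        Abelianization.ker_of]
    rw [hk]
    have h4 : Finite ψ.range := by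
      refine (hfin.subset ?_ : ((ψ.range : Set (Abelianization (HamBar n)))).Finite)
      rintro _ ⟨g, rfl⟩
      exact ⟨sc t ht ht1 g, (mem_Sh ht ht1).2 ⟨g, rfl⟩, rfl⟩
    exact Finite.of_equiv _ (QuotientGroup.quotientKerEquivRange ψ).symm.toEquiv
  exact absurd (Cardinal.lt_aleph0_of_finite
    (HamBar n ⧸ (commutator (HamBar n)).comap (sc t ht ht1)))
    (not_lt.2 (Cardinal.aleph0_le_continuum.trans h2))

/-- a homomorphism to a countable group which is not trivial on any `Sh n t` -/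
theorem exists_hom (h : ∀ t : ℝ, 0 < t → t ≤ 1 → ¬ Sh n t ⊆ commutator (HamBar n)) :
    ∃ (D : Type) (_ : AddCommGroup D) (_ : Countable D) (f : HamBar n →* Multiplicative D),
      ∀ t : ℝ, 0 < t → t ≤ 1 → ∃ φ ∈ Sh n t, f φ ≠ 1 := by
  have h1 : ∀ k : ℕ, ∃ φ ∈ Sh n (1 / ((k : ℝ) + 1)), φ ∉ commutator (HamBar n) := fun k =>
    not_subset.1 (h _ (by positivity) (by
      rw [div_le_one (by positivity)]
      linarith [(Nat.cast_nonneg k : (0 : ℝ) ≤ k)]))
  choose φ hφ hφ' using h1
  obtain ⟨D, i1, i2, f, hf⟩ := hom_ne (A := Additive (Abelianization (HamBar n)))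
    fun k => Additive.ofMul (Abelianization.of (φ k))
  refine ⟨D, i1, i2, (AddMonoidHom.toMultiplicativeRight f).comp Abelianization.of,
    fun t ht ht1 => ?_⟩
  obtain ⟨k, hk⟩ := ((tendsto_one_div_add_atTop_nhds_zero_nat (𝕜 := ℝ)).eventually
    (gt_mem_nhds ht)).exists
  refine ⟨φ k, Pool.Agent.J6H85.LR.Sh_mono (by positivity) hk.le ht1 (hφ k), fun h2 => ?_⟩
  have h3 := hf k h2
  apply hφ' k
  have h4 : Abelianization.of (φ k) = 1 := h3
  rw [← Abelianization.ker_of, MonoidHom.mem_ker]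
  exact h4

/-- a subadditive function which is unbounded on all `Sh n t` -/
theorem exists_unbounded (h : ∀ t : ℝ, 0 < t → t ≤ 1 → ¬ Sh n t ⊆ commutator (HamBar n)) :
    ∃ ν : HamBar n → ℝ, Subadd ν ∧ ∀ t : ℝ, 0 < t → t ≤ 1 → ∀ C : ℝ, ∃ φ ∈ Sh n t, C < ν φ := by
  have hk : ∀ k : ℕ, 1 / ((k : ℝ) + 1) ≤ 1 := fun k => by
    rw [div_le_one (by positivity)]
    linarith [(Nat.cast_nonneg k : (0 : ℝ) ≤ k)]
  obtain ⟨D, i1, i2, f, hf⟩ := hom_infinite (A := Additive (Abelianization (HamBar n)))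
    (fun k : ℕ => (fun φ : HamBar n => Additive.ofMul (Abelianization.of φ)) ''
      Sh n (1 / ((k : ℝ) + 1))) fun k => image_infinite (by positivity) (hk k)
        (h _ (by positivity) (hk k))
  have i3 : Countable (Multiplicative D) := i2
  obtain ⟨ν, hν, hfin⟩ := exists_proper (D := Multiplicative D)
  let F : HamBar n →* Multiplicative D :=
    (AddMonoidHom.toMultiplicativeRight f).comp Abelianization.of
  refine ⟨fun φ => ν (F φ), fun g h => ?_, fun t ht ht1 C => ?_⟩
  · show ν (F (g * h)) ≤ ν (F g) + ν (F h)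
    rw [map_mul]
    exact hν _ _
  · obtain ⟨k, hk⟩ := ((tendsto_one_div_add_atTop_nhds_zero_nat (𝕜 := ℝ)).eventually
      (gt_mem_nhds ht)).exists
    by_contra hcon
    push Not at hcon
    refine hf k (((hfin C).image Multiplicative.toAdd).subset ?_)
    rintro _ ⟨_, ⟨φ, hφ, rfl⟩, rfl⟩
    exact ⟨F φ, hcon φ (Pool.Agent.J6H85.LR.Sh_mono (by positivity) hk.le ht1 hφ), rfl⟩

end Pool.Agent.J6H96.SI
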