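import Pool.Agent.J6H96.SI.Loc
import Pool.Agent.J6H96.SI.Abs

/-!
# The small index property for the Hamiltonian homeomorphisms of the ball
-/

set_option autoImplicit false

open Set Filter Topology Function
open Pool.Agent.Y453.HB
open Pool.Agent.N235.DH
open Pool.Agent.R773.HN
open Cardinal
open scoped commutatorElement

namespace Pool.Agent.J6H96.SI

variable {n : ℕ}

/-- the centraliser of the smallest normal subgroup is trivial -/
theorem cent_trivial (hn : 0 < n) {a : E n ≃ₜ E n} (ha : a ∈ HamBar n)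
    (h : ∀ s ∈ Mono (HamBar n), a * s = s * a) : a = 1 := by
  by_contra hne
  obtain ⟨p, hp⟩ := exists_moved hne
  have hp1 : nm p < 1 := by
    obtain ⟨K, -, hK1, hK2⟩ := cpt_supp ha
    apply nm_lt_one
    by_contra hc
    exact hp (hK2 p fun h => hc (hK1 h))
  obtain ⟨r, hr, hpr, -, hd⟩ := displaced hp Filter.univ_mem hp1
  set r' := min r (1 / 4) with hr'
  have hr'0 : 0 < r' := lt_min hr (by norm_num)
  have hr'1 : r' ≤ r := min_le_left _ _
  have hr'2 : r' ≤ 1 / 4 := min_le_right _ _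
  have hsub : D p r' ⊆ D p r := fun x hx => by
    have h1 : nm (x - p) ≤ r' := hx
    show nm (x - p) ≤ r
    linarith
  obtain ⟨b, c, hb, hc, hbs, hcs, hbc⟩ := L3 hT hn hr'0 (show nm p + r' < 1 by linarith)
  have hmem : ⁅b, c⁆ ∈ Mono (HamBar n) := comm_ball hT hR hn (mid_bar n) hr'0 (by linarith)
    (by linarith) (isHam_mem hb) (isHam_mem hc) hbs hcs
  have h1 := h _ hmem
  apply hbc
  have hs := hbs.comm hcs
  refine Homeomorph.ext fun x => ?_
  by_cases hx : x ∈ D p r'
  · -- `a⁻¹ * s * a = s`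
    have h2 : (⁅b, c⁆ : E n ≃ₜ E n) = a * ⁅b, c⁆ * a⁻¹ := by
      rw [h1]
      group
    have h3 : Supp (a '' D p r') (a * ⁅b, c⁆ * a⁻¹) := hs.conj a
    have h4 : x ∉ a '' D p r' := by
      rintro ⟨y, hy, hyx⟩
      exact Set.disjoint_left.1 hd ⟨y, hsub hy, hyx⟩ (hsub hx)
    have h5 := h3 x h4
    rw [← h2] at h5
    exact h5
  · exact hs x hx

/-- **Main theorem**, for subgroups of `E n ≃ₜ E n`. -/
theorem main (n : ℕ) (hn : 0 < n) :
    ∃ S : Subgroup (HamBar n), S.Normal ∧ IsSimpleGroup S ∧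
      (∀ N : Subgroup (HamBar n), N.Normal → N ≠ ⊥ → S ≤ N) ∧ SmallIndexCore S ∧
      ∀ ε : ℝ, 0 < ε → ε ≤ 1 / 100 →
        SimpleCriteria (Subgroup.normalClosure (SmS (HamBar n) ε)) ∧
        SubgroupCriteria (Subgroup.normalClosure (SmS (HamBar n) ε)) S := by
  obtain ⟨S, s1, s2, s3, s4, s5, s6, s7, s8⟩ := main_of' hSm hCo hn (HamBar n)
    (fun u hu => isHam_mem hu) le_rfl
  have hSne : S ≠ ⊥ := by
    rintro rfl
    have := s2.toNontrivial
    exact not_subsingleton _ (inferInstance : Subsingleton (⊥ : Subgroup (HamBar n)))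
  have hSe : S = (Mono (HamBar n)).subgroupOf (HamBar n) :=
    le_antisymm (s3 _ (MS_normal _) (MS_ne hn (mid_bar n))) (MS_le s1 hSne)
  have hcent : ∀ a : HamBar n, (∀ s ∈ S, a * s = s * a) → a = 1 := by
    intro a ha
    apply Subtype.ext
    refine cent_trivial hn a.2 fun s hs => ?_
    have h1 := ha ⟨s, (Mono_norm _).1 hs⟩ (by
      rw [hSe]
      exact Subgroup.mem_subgroupOf.2 hs)
    exact congrArg Subtype.val h1
  have hsmall : ∀ H : Subgroup (HamBar n), SmallIn S H → S ≤ H := by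
    intro H hH
    have h1 : SmallIn (Mono (HamBar n)) (H.map (HamBar n).subtype) := by
      intro f hf
      obtain ⟨x, y, hxy, hm⟩ := hH (fun x => ⟨f x, (Mono_norm _).1 (hf x)⟩) fun x => by
        rw [hSe]
        exact Subgroup.mem_subgroupOf.2 (hf x)
      exact ⟨x, y, hxy, _, hm, rfl⟩
    have h2 := small_index hn h1
    intro x hx
    rw [hSe, Subgroup.mem_subgroupOf] at hx
    obtain ⟨y, hy, hyx⟩ := h2 hx
    have : y = x := Subtype.ext hyx
    rwa [← this]
  obtain ⟨a1, a2⟩ := abs_main S s1 s2 hcent hsmall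
  refine ⟨S, s1, s2, s3, a1, fun ε hε hε1 => ?_⟩
  exact a2 _ inferInstance (s8 ε hε hε1).1 (s8 ε hε hε1).2

end Pool.Agent.J6H96.SI
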