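import Pool.Agent.J6H96.SI.Par2

/-!
# Subadditive functions: the proof
-/

set_option autoImplicit false

open Set Filter Topology Function TopologicalSpace
open Pool.Agent.Y453.HB
open Pool.Agent.N235.DH
open Pool.Agent.J6H85.LR (Prods Sh sc sc_coe mem_Sh cpy cpy_HK cpy_supp cpy_apply W W_dist W_sub_D
  D_sub_Q Q_of_nm)
open Pool.Agent.J6H85.ZO
open Pool.Agent.R773.HN (nm nm_add nm_zero nm_nonneg D D_compact Supp Mono nm_lt_one nm_smul
  main_of' hSm hCo Mono_norm MS_normal MS_ne MS_le)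
open scoped commutatorElement

namespace Pool.Agent.J6H96.SI

variable {n : ℕ}

theorem bos_of (hn : 0 < n) (h2 : Pool.Agent.J6H85.LR.LocallyTwoCommutators n) :
    Par.BoundedOnSmall (HamBar n) := by
  intro ν hν
  obtain ⟨k, s, hs, hs1, h⟩ := small_sh hn h2 (fills_sub (HamBar n).subtype incl_range ν)
    fun k => image_inv (HamBar n).subtype fun y hy => Yb_inv hy
  exact ⟨s, ν 1 + (96 : ℕ) * k, hs, hs1, fun φ hφ => sub_bound hν
    (mem_prods_image (HamBar n).subtype (Subgroup.subtype_injective _) (h φ hφ))⟩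

theorem pre_inv {T L : Type} [Group T] [Group L] (π : T →* L) {V : Set L}
    (hinv : ∀ v ∈ V, v⁻¹ ∈ V) : ∀ s ∈ {s : T | π s ∈ V}, s⁻¹ ∈ {s : T | π s ∈ V} := by
  intro s hs
  show π s⁻¹ ∈ V
  rw [map_inv]
  exact hinv _ hs

theorem si_of (hn : 0 < n) (h2 : Pool.Agent.J6H85.LR.LocallyTwoCommutators n) :
    Par.SmallImages (HamBar n) := by
  intro L _ _ _ hL π V hV
  obtain ⟨V', hV', hinv, hP⟩ := nhds_prods hV 96
  obtain ⟨k, s, hs, hs1, h⟩ := small_sh hn h2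
    (fills_narrow (HamBar n).subtype incl_range hL π hV' hinv)
    fun _ => image_inv (HamBar n).subtype (pre_inv π hinv)
  refine ⟨s, hs, hs1, fun φ hφ => hP ?_⟩
  have h1 := mem_prods_image (HamBar n).subtype (Subgroup.subtype_injective _) (h φ hφ)
  exact Pool.Agent.J6H85.LR.Prods.map π (fun s hs => hs) h1

theorem ci_of_si (h : Par.SmallImages (HamBar n)) : Par.CountableImages (HamBar n) := by
  intro D _ hD π
  letI : TopologicalSpace D := ⊥
  haveI : DiscreteTopology D := ⟨rfl⟩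
  obtain ⟨t, ht, ht1, h1⟩ := h D (narrow_card D (cc hD)) π {1} (by
    rw [nhds_discrete]
    exact mem_pure.2 rfl)
  exact ⟨t, ht, ht1, fun φ hφ => h1 φ hφ⟩

theorem bf_of_ci (hn : 0 < n) (h : Par.CountableImages (HamBar n)) :
    Pool.Agent.J6H85.LR.BoundedFragmentation n := by
  have h3 : Pool.Agent.J6H85.LR.LocallyPerfect n := by
    by_contra hcon
    have h4 : ∀ t : ℝ, 0 < t → t ≤ 1 → ¬ Sh n t ⊆ commutator (HamBar n) :=
      fun t ht ht1 hs => hcon ⟨t, ht, ht1, hs⟩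
    obtain ⟨D, i1, i2, f, hf⟩ := exists_hom h4
    obtain ⟨t, ht, ht1, h5⟩ := h (Multiplicative D) i2 f
    obtain ⟨φ, hφ, hne⟩ := hf t ht ht1
    exact hne (h5 φ hφ)
  exact Pool.Agent.J6H85.LR.CP_CB hn h3

theorem bf_of_bos (hn : 0 < n) (h : Par.BoundedOnSmall (HamBar n)) :
    Pool.Agent.J6H85.LR.BoundedFragmentation n := by
  have h3 : Pool.Agent.J6H85.LR.LocallyPerfect n := by
    by_contra hcon
    have h4 : ∀ t : ℝ, 0 < t → t ≤ 1 → ¬ Sh n t ⊆ commutator (HamBar n) :=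
      fun t ht ht1 hs => hcon ⟨t, ht, ht1, hs⟩
    obtain ⟨ν, hν, hu⟩ := exists_unbounded h4
    obtain ⟨t, C, ht, ht1, h5⟩ := h ν hν
    obtain ⟨φ, hφ, hlt⟩ := hu t ht ht1 C
    exact absurd (h5 φ hφ) (not_le.2 hlt)
  exact Pool.Agent.J6H85.LR.CP_CB hn h3

theorem two_of_bf (hn : 0 < n) (h : Pool.Agent.J6H85.LR.BoundedFragmentation n) :
    Pool.Agent.J6H85.LR.LocallyTwoCommutators n :=
  Pool.Agent.J6H85.LR.CP'_C2 hn (Pool.Agent.J6H85.LR.CB_CP' hn h)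

theorem bos_of_alb (h : Par.AllLocallyBounded (HamBar n) In) :
    Par.BoundedOnSmall (HamBar n) := by
  intro ν hν
  obtain ⟨ε, C, hε, hC⟩ := h ν hν (D 0 (1 / 2)) ⟨D_compact _ _, D_sub_Q (by norm_num)⟩
  have ht : 0 < min (1 / 2) (ε / 4) := lt_min (by norm_num) (by linarith)
  have ht1 : min (1 / 2) (ε / 4) ≤ 1 / 2 := min_le_left _ _
  have ht2 : min (1 / 2) (ε / 4) ≤ ε / 4 := min_le_right _ _
  refine ⟨min (1 / 2) (ε / 4), C, ht, by linarith, fun φ hφ => hC φ ?_⟩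
  have ht3 : min (1 / 2) (ε / 4) ≤ 1 := by linarith
  obtain ⟨g, rfl⟩ := (mem_Sh ht ht3).1 hφ
  have hs := cpy_supp (c := (0 : E n)) ht g.2
  refine ⟨cpy_HK ht (by rw [nm_zero]; linarith) g.2
    (W_sub_D (by rw [nm_zero]; linarith)), fun x => ?_⟩
  show dist (cpy 0 (min (1 / 2) (ε / 4)) ht (g : E n ≃ₜ E n) x) x < ε
  by_cases hx : x ∈ W (0 : E n) (min (1 / 2) (ε / 4))
  · have h1 := W_dist (hs.maps hx) hx
    linarith
  · rw [hs x hx, dist_self]
    exact hε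

theorem perfect_of_alb (h : Par.AllLocallyBounded (HamBar n) In) :
    commutator (HamBar n) = ⊤ := by
  by_contra hne
  obtain ⟨K₀, hK₀, hm⟩ := (tame_comm (n := n)).meagre hne
  have hm0 := hm K₀ hK₀ le_rfl
  have hinf : ∀ k : ℕ, ((fun φ : HamBar n => Additive.ofMul (Abelianization.of φ)) ''
      Ba (K₀ : Set (E n)) (1 / ((k : ℝ) + 1))).Infinite := by
    intro k hfin
    have hch : ∀ a : ((fun φ : HamBar n => Additive.ofMul (Abelianization.of φ)) ''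
      Ba (K₀ : Set (E n)) (1 / ((k : ℝ) + 1))), ∃ φ : HamBar n,
        Additive.ofMul (Abelianization.of φ) = a := fun a => by
      obtain ⟨φ, -, h⟩ := a.2
      exact ⟨φ, h⟩
    choose g hg using hch
    have hfin' := hfin.to_subtype
    have h1 := coset_nonmeagre (countable_range g) hK₀ hm0
    obtain ⟨O, hO1, hO2, hO3⟩ := mem_nhds_iff.1 (ball_nhds (1 : Pool.Agent.J6H85.ZO.GK K₀)
      (show (0 : ℝ) < 1 / ((k : ℝ) + 1) by positivity))
    refine not_isMeagre_of_isOpen hO2 ⟨1, hO3⟩ (h1.mono fun ψ hψ => ?_)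
    have h2 : toH hK₀ ψ ∈ Ba (K₀ : Set (E n)) (1 / ((k : ℝ) + 1)) := ⟨ψ.2, fun x => hO1 hψ x⟩
    refine ⟨_, ⟨⟨_, _, h2, rfl⟩, rfl⟩, ?_⟩
    have h3 := hg ⟨_, _, h2, rfl⟩
    have h4 : Abelianization.of (g ⟨_, _, h2, rfl⟩) = Abelianization.of (toH hK₀ ψ) := h3
    rw [← Abelianization.ker_of, MonoidHom.mem_ker, map_mul, map_inv, h4, inv_mul_cancel]
  obtain ⟨D', i1, i2, f, hf⟩ := hom_infinite (A := Additive (Abelianization (HamBar n))) _ hinf
  have i3 : Countable (Multiplicative D') := i2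
  obtain ⟨ν, hν, hfin⟩ := exists_proper (D := Multiplicative D')
  let F : HamBar n →* Multiplicative D' :=
    (AddMonoidHom.toMultiplicativeRight f).comp Abelianization.of
  obtain ⟨ε, C, hε, hC⟩ := h (fun φ => ν (F φ)) (fun g h => by
    show ν (F (g * h)) ≤ ν (F g) + ν (F h)
    rw [map_mul]
    exact hν _ _) (K₀ : Set (E n)) ⟨K₀.isCompact, hK₀⟩
  obtain ⟨k, hk⟩ := ((tendsto_one_div_add_atTop_nhds_zero_nat (𝕜 := ℝ)).eventually
      (gt_mem_nhds hε)).exists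
  refine hf k (((hfin C).image Multiplicative.toAdd).subset ?_)
  rintro _ ⟨_, ⟨φ, hφ, rfl⟩, rfl⟩
  exact ⟨F φ, hC φ ⟨hφ.1, fun x => (hφ.2 x).trans hk⟩, rfl⟩

/-- the smallest normal subgroup -/
theorem core_gen (hn : 0 < n) {S : Subgroup (HamBar n)}
    (hS : S = (Mono (HamBar n)).subgroupOf (HamBar n)) (Y : ℕ → Set S)
    (hY : ∀ k, ∀ y ∈ Y k, y⁻¹ ∈ Y k)
    (hf : Fills (Mono (HamBar n)) fun k => ((HamBar n).subtype.comp S.subtype) '' Y k)
    {p : E n} (hp : Q p < 1) : ∃ (k : ℕ) (t : ℝ), Par.Inside n p t ∧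
      ∀ φ ∈ Par.DoubleCommutators (HamBar n) p t, ∃ h : φ ∈ S, (⟨φ, h⟩ : S) ∈ Prods (Y k) 12 := by
  have hp1 : nm p < 1 := nm_lt_one hp
  obtain ⟨k, t, ht, hgood⟩ := pointS hn hf (R₀ := (1 + nm p) / 2) (by linarith) (p := p)
    (by linarith)
  have ht' : 0 < min t ((1 - nm p) / 2) := lt_min ht (by linarith)
  have ht1 : min t ((1 - nm p) / 2) ≤ t := min_le_left _ _
  have ht2 : min t ((1 - nm p) / 2) ≤ (1 - nm p) / 2 := min_le_right _ _
  set t' := min t ((1 - nm p) / 2) with ht'def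
  refine ⟨k, t', ⟨ht', fun x hx => Q_of_nm ?_⟩, ?_⟩
  · have h1 := nm_add p (t' • x)
    rw [nm_smul, abs_of_pos ht'] at h1
    have h2 : nm x < 1 := nm_lt_one hx
    nlinarith
  · have hAt : ∀ φ ∈ Par.At (HamBar n) p t', (φ : E n ≃ₜ E n) ∈ HK n (D 0 ((1 + nm p) / 2)) ∧
        Supp (D p t) (φ : E n ≃ₜ E n) := by
      rintro φ ⟨g, hg⟩
      have e : (φ : E n ≃ₜ E n) = cpy p t' ht' g := by
        refine Homeomorph.ext fun y => ?_
        have h1 := hg (t'⁻¹ • (y - p))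
        have h2 := cpy_apply p t' ht' g (t'⁻¹ • (y - p))
        rw [smul_inv_smul₀ ht'.ne', add_sub_cancel] at h1 h2
        rw [h1, h2]
      rw [e]
      refine ⟨cpy_HK ht' (by linarith) g.2 (W_sub_D (by linarith)), ?_⟩
      refine (cpy_supp ht' g.2).mono fun x hx => ?_
      have h1 : nm (x - p) < t' := hx
      exact (h1.trans_le ht1).le
    rintro φ ⟨f₁, hf₁, f₂, hf₂, g₁, hg₁, g₂, hg₂, rfl⟩
    have h1 := hgood f₁ f₂ g₁ g₂ (hAt _ hf₁).1 (hAt _ hf₂).1 (hAt _ hg₁).1 (hAt _ hg₂).1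
      (hAt _ hf₁).2 (hAt _ hf₂).2 (hAt _ hg₁).2 (hAt _ hg₂).2
    have h2 := EEW_prods (image_inv ((HamBar n).subtype.comp S.subtype) (hY k)) h1
    have e : ((⁅⁅f₁, f₂⁆, ⁅g₁, g₂⁆⁆ : HamBar n) : E n ≃ₜ E n) =
        ⁅⁅(f₁ : E n ≃ₜ E n), (f₂ : E n ≃ₜ E n)⁆,
          ⁅(g₁ : E n ≃ₜ E n), (g₂ : E n ≃ₜ E n)⁆⁆ := by
      simp only [commutatorElement_def, Subgroup.coe_mul, Subgroup.coe_inv]
    have h3 : ⁅⁅f₁, f₂⁆, ⁅g₁, g₂⁆⁆ ∈ S := by
      rw [hS, Subgroup.mem_subgroupOf, e]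
      refine Pool.Agent.J6H85.LR.Prods.mem_subgroup ?_ h2
      rintro _ ⟨s, -, rfl⟩
      exact Subgroup.mem_subgroupOf.1 (hS.le s.2)
    refine ⟨h3, mem_prods_image ((HamBar n).subtype.comp S.subtype) ?_ ?_⟩
    · intro a b hab
      exact Subtype.ext (Subtype.ext hab)
    · rw [← e] at h2
      exact h2

theorem core_range {S : Subgroup (HamBar n)} (hS : S = (Mono (HamBar n)).subgroupOf (HamBar n)) :
    Mono (HamBar n) ≤ ((HamBar n).subtype.comp S.subtype).range := by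
  intro x hx
  exact ⟨⟨⟨x, (Mono_norm _).1 hx⟩, by rw [hS]; exact hx⟩, rfl⟩

theorem core (hn : 0 < n) {S : Subgroup (HamBar n)}
    (hS : S = (Mono (HamBar n)).subgroupOf (HamBar n)) : Par.CoreBounded S ∧ Par.CoreSmall S := by
  constructor
  · intro ν hν p hp
    obtain ⟨k, t, ht, h⟩ := core_gen hn hS (Yb ν) (fun k y hy => Yb_inv hy)
      (fills_sub _ (core_range hS) ν) hp
    refine ⟨t, ν 1 + (12 : ℕ) * k, ht, fun φ hφ => ?_⟩
    obtain ⟨h1, h2⟩ := h φ hφ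
    exact ⟨h1, sub_bound hν h2⟩
  · intro L _ _ _ hL π V hV p hp
    obtain ⟨V', hV', hinv, hP⟩ := nhds_prods hV 12
    obtain ⟨k, t, ht, h⟩ := core_gen hn hS (fun _ => {s | π s ∈ V'})
      (fun _ => pre_inv π hinv) (fills_narrow _ (core_range hS) hL π hV' hinv) hp
    refine ⟨t, ht, fun φ hφ => ?_⟩
    obtain ⟨h1, h2⟩ := h φ hφ
    exact ⟨h1, hP (Pool.Agent.J6H85.LR.Prods.map π (fun s hs => hs) h2)⟩

/-- **Main theorem** for `HamBar n`. -/
theorem main2 (hn : 0 < n) : Par.Statement (HamBar n) In := by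
  have h14 : List.TFAE [Pool.Agent.J6H85.LR.BoundedFragmentation n,
      Par.BoundedOnSmall (HamBar n), Par.SmallImages (HamBar n),
      Par.CountableImages (HamBar n)] := by
    tfae_have 1 → 2 := fun h => bos_of hn (two_of_bf hn h)
    tfae_have 2 → 1 := bf_of_bos hn
    tfae_have 1 → 3 := fun h => si_of hn (two_of_bf hn h)
    tfae_have 3 → 4 := ci_of_si
    tfae_have 4 → 1 := bf_of_ci hn
    tfae_finish
  refine ⟨h14, ?_, ?_, ?_, perfect_of_alb, ?_⟩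
  · constructor
    · intro h
      obtain ⟨hB, hF⟩ := (Pool.Agent.J6H85.LR.simple_iff hn).1 h
      exact ⟨fun ν hν K hK => locally_bounded_of_simple hn (two_of_bf hn hB) hF ν hν ⟨K, hK.1⟩
        hK.2, hF⟩
    · rintro ⟨h, hF⟩
      exact (Pool.Agent.J6H85.LR.simple_iff hn).2 ⟨bf_of_bos hn (bos_of_alb h), hF⟩
  · exact (Pool.Agent.J6H85.LR.simple_iff hn).trans (and_congr (h14.out 0 1) Iff.rfl)
  · exact (Pool.Agent.J6H85.LR.simple_iff hn).trans (and_congr (h14.out 0 2) Iff.rfl)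
  · obtain ⟨S, s1, s2, s3, -⟩ := main_of' hSm hCo hn (HamBar n)
      (fun u hu => isHam_mem hu) le_rfl
    have hSne : S ≠ ⊥ := by
      rintro rfl
      have := s2.toNontrivial
      exact not_subsingleton _ (inferInstance : Subsingleton (⊥ : Subgroup (HamBar n)))
    have hSe : S = (Mono (HamBar n)).subgroupOf (HamBar n) :=
      le_antisymm (s3 _ (MS_normal _) (MS_ne hn (mid_bar n))) (MS_le s1 hSne)
    obtain ⟨c1, c2⟩ := core hn hSe
    exact ⟨S, s1, s2, s3, c1, c2⟩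

theorem main_gen2 (Γ : Subgroup (E n ≃ₜ E n)) (G : Set (E n) → Set Γ) (hn : 0 < n)
    (h : Γ = HamBar n) (hG : ∀ K (φ : Γ), φ ∈ G K ↔ (φ : E n ≃ₜ E n) ∈ HK n K) :
    Par.Statement Γ G := by
  subst h
  have h1 : G = In := by
    funext K
    ext φ
    exact hG K φ
  subst h1
  exact main2 hn

end Pool.Agent.J6H96.SI
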