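import Mathlib

/-!
# Subadditive functions and narrow topological groups
-/

set_option autoImplicit false

namespace Pool.Agent.J6H96.SI

/-- `ν(gh) ≤ ν(g) + ν(h)` -/
def Subadd {G : Type*} [Group G] (ν : G → ℝ) : Prop := ∀ g h : G, ν (g * h) ≤ ν g + ν h

/-- `L` is covered by fewer than continuum many translates of every neighbourhood of the identity
(for example, `L` is separable, or `L` is a discrete group with fewer than continuum many
elements) -/
def Narrow (L : Type) [Group L] [TopologicalSpace L] : Prop :=
  ∀ V ∈ nhds (1 : L), ∃ C : Set L, Cardinal.mk C < Cardinal.continuum ∧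
    ∀ g : L, ∃ c ∈ C, c⁻¹ * g ∈ V

end Pool.Agent.J6H96.SI
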