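import Pool.Agent.J6H85.LR.InfP
import Pool.Agent.J6H96.SI.Alg

/-!
# Infinite products and subgroups of small index
-/

set_option autoImplicit false

open Set Filter Topology Function
open Pool.Agent.Y453.HB
open Pool.Agent.Y309.HB
open Pool.Agent.N235.DH
open Pool.Agent.R773.HN
open Pool.Agent.J6H85.LR (IsProd exists_prod)
open scoped commutatorElement

namespace Pool.Agent.J6H96.SI

variable {n : ℕ}

/-- the uniform limits of Hamiltonian diffeomorphisms supported in `K` which are supported in `V` -/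
def LK {K : Set (E n)} (hK : IsCompact K) (V : Set (E n)) : Subgroup (E n ≃ₜ E n) where
  carrier := {y | y ∈ HK n K ∧ Supp V y}
  one_mem' := ⟨HK_one K, Supp.one V⟩
  mul_mem' := fun h h' => ⟨HK_mul hK h.1 h'.1, h.2.mul h'.2⟩
  inv_mem' := fun h => ⟨HK_inv hK h.1, h.2.inv⟩

/-- disjoint sets with diameters tending to zero -/
structure Fam2 (n : ℕ) where
  V : ℕ → Set (E n)
  disj : ∀ i j, i ≠ j → Disjoint (V i) (V j)
  d : ℕ → ℝ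
  lim : Tendsto d atTop (𝓝 0)
  diam : ∀ j, ∀ x ∈ V j, ∀ x' ∈ V j, dist x x' ≤ d j

theorem Fam2.exists_P (F : Fam2 n) {K : Set (E n)} (hK : IsCompact K)
    (a : ∀ j, LK hK (F.V j)) :
    ∃ Y ∈ HK n K, IsProd F.V (fun j => (a j : E n ≃ₜ E n)) Y :=
  exists_prod F.disj hK (fun j => (a j).2.1) (fun j => (a j).2.2) F.lim F.diam

/-- the infinite product -/
noncomputable def Fam2.P (F : Fam2 n) {K : Set (E n)} (hK : IsCompact K) :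
    (∀ j, LK hK (F.V j)) →* (E n ≃ₜ E n) where
  toFun a := (F.exists_P hK a).choose
  map_one' := IsProd.unique (F.exists_P hK 1).choose_spec.2 (IsProd.one F.V)
  map_mul' a b := IsProd.unique (F.exists_P hK (a * b)).choose_spec.2
    (IsProd.mul (fun j => (b j).2.2) (F.exists_P hK a).choose_spec.2
      (F.exists_P hK b).choose_spec.2)

theorem Fam2.P_spec (F : Fam2 n) {K : Set (E n)} (hK : IsCompact K) (a : ∀ j, LK hK (F.V j)) :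
    F.P hK a ∈ HK n K ∧ IsProd F.V (fun j => (a j : E n ≃ₜ E n)) (F.P hK a) :=
  (F.exists_P hK a).choose_spec

theorem Fam2.P_single (F : Fam2 n) {K : Set (E n)} (hK : IsCompact K) (k : ℕ)
    (g : LK hK (F.V k)) : F.P hK (Pi.mulSingle k g) = g := by
  refine IsProd.unique (F.P_spec hK _).2 ⟨fun j x hx => ?_, fun x hx => g.2.2 x (hx k)⟩
  rcases eq_or_ne j k with h | h
  · subst h
    show (g : E n ≃ₜ E n) x =
      ((Pi.mulSingle (M := fun j => LK hK (F.V j)) j g j : LK hK (F.V j)) : E n ≃ₜ E n) x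
    rw [Pi.mulSingle_eq_same]
  · show (g : E n ≃ₜ E n) x =
      ((Pi.mulSingle (M := fun j => LK hK (F.V j)) k g j : LK hK (F.V j)) : E n ≃ₜ E n) x
    rw [Pi.mulSingle_eq_of_ne h]
    exact g.2.2 x fun h' => Set.disjoint_left.1 (F.disj j k h) hx h'

/-- double commutators of elements supported in `B` are in `H` -/
def Good (H : Subgroup (E n ≃ₜ E n)) (K B : Set (E n)) : Prop :=
  ∀ f₁ f₂ g₁ g₂ : E n ≃ₜ E n, f₁ ∈ HK n K → f₂ ∈ HK n K → g₁ ∈ HK n K → g₂ ∈ HK n K →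
    Supp B f₁ → Supp B f₂ → Supp B g₁ → Supp B g₂ → ⁅⁅f₁, f₂⁆, ⁅g₁, g₂⁆⁆ ∈ H

theorem mid_bar (n : ℕ) : Mid (HamBar n) := ⟨fun _ h => isHam_mem h, le_rfl⟩

theorem higman {f g φ : E n ≃ₜ E n} {A : Set (E n)} (hfA : Supp A f) (hgA : Supp A g)
    (hd : Disjoint (φ '' A) A) : ⁅⁅f, φ⁆, g⁆ = ⁅f, g⁆ := by
  have h1 : Supp (φ '' A) (φ * f⁻¹ * φ⁻¹) := hfA.inv.conj φ
  have h2 : (φ * f⁻¹ * φ⁻¹) * g = g * (φ * f⁻¹ * φ⁻¹) := h1.commute hd hgA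
  have e1 : ⁅⁅f, φ⁆, g⁆ = f * ((φ * f⁻¹ * φ⁻¹) * g) * (φ * f⁻¹ * φ⁻¹)⁻¹ * f⁻¹ * g⁻¹ := by
    simp only [commutatorElement_def]
    group
  rw [e1, h2, commutatorElement_def]
  group

/-- one member of each family is good -/
theorem fam_good {K : Set (E n)} (hK : IsCompact K) (hKQ : K ⊆ {p : E n | Q p < 1})
    {H : Subgroup (E n ≃ₜ E n)} (hH : SmallIn (Mono (HamBar n)) H) (F : Fam2 n)
    {A : Set (E n)} (hA : IsCompact A) {κ : E n ≃ₜ E n} (hκ : κ ∈ HamBar n)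
    (hd : Disjoint (κ '' A) A) (hVA : ∀ j, F.V j ⊆ A) (hVK : ∀ j, F.V j ⊆ K)
    (B : ℕ → Set (E n)) (hB : ∀ j, B j ⊆ F.V j)
    (hdisp : ∀ j, ∃ κ₁ κ₂ : E n ≃ₜ E n, IsHam κ₁ ∧ IsHam κ₂ ∧ Supp (F.V j) κ₁ ∧
      Supp (F.V j) κ₂ ∧
      Disjoint ((⁅κ₁, κ₂⁆ : E n ≃ₜ E n) '' B j) (B j)) : ∃ j, Good H K (B j) := by
  choose κ₁ κ₂ hκ₁ hκ₂ hs₁ hs₂ hdis using hdisp
  have hsub : commutator (∀ j, LK hK (F.V j)) ≤ (Mono (HamBar n)).comap (F.P hK) := by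
    rw [commutator_def, Subgroup.commutator_le]
    intro b _ c _
    rw [Subgroup.mem_comap, map_commutatorElement]
    have hs : ∀ a : (∀ j, LK hK (F.V j)), Supp A (F.P hK a) := fun a x hx =>
      (F.P_spec hK a).2.2 x fun j hj => hx (hVA j hj)
    exact comm_mono hT hR (mid_bar n) hA hκ hd (HK_mem hK hKQ (F.P_spec hK b).1)
      (HK_mem hK hKQ (F.P_spec hK c).1) (hs b) (hs c)
  have hm : ∀ j (k : E n ≃ₜ E n), IsHam k → Supp (F.V j) k → k ∈ LK hK (F.V j) :=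
    fun j k h1 h2 => ⟨HK_ham h1 fun x hx => h2 x fun h => hx (hVK j h), h2⟩
  obtain ⟨j, h1, h2⟩ := block (hH.comap (F.P hK) hsub)
    (fun j => ⁅(⟨κ₁ j, hm j _ (hκ₁ j) (hs₁ j)⟩ : LK hK (F.V j)),
      (⟨κ₂ j, hm j _ (hκ₂ j) (hs₂ j)⟩ : LK hK (F.V j))⁆) fun j => ⟨_, _, rfl⟩
  refine ⟨j, fun f₁ f₂ g₁ g₂ hf₁ hf₂ hg₁ hg₂ sf₁ sf₂ sg₁ sg₂ => ?_⟩
  have hm' : ∀ k : E n ≃ₜ E n, k ∈ HK n K → Supp (B j) k → k ∈ LK hK (F.V j) :=
    fun k h3 h4 => ⟨h3, h4.mono (hB j)⟩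
  let f : LK hK (F.V j) := ⁅(⟨f₁, hm' _ hf₁ sf₁⟩ : LK hK (F.V j)), ⟨f₂, hm' _ hf₂ sf₂⟩⁆
  let g : LK hK (F.V j) := ⁅(⟨g₁, hm' _ hg₁ sg₁⟩ : LK hK (F.V j)), ⟨g₂, hm' _ hg₂ sg₂⟩⁆
  let u : LK hK (F.V j) := ⁅(⟨κ₁ j, hm j _ (hκ₁ j) (hs₁ j)⟩ : LK hK (F.V j)),
      (⟨κ₂ j, hm j _ (hκ₂ j) (hs₂ j)⟩ : LK hK (F.V j))⁆
  have hf : f ∈ commutator (LK hK (F.V j)) :=
    Subgroup.commutator_mem_commutator (Subgroup.mem_top _) (Subgroup.mem_top _)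
  have hg : g ∈ commutator (LK hK (F.V j)) :=
    Subgroup.commutator_mem_commutator (Subgroup.mem_top _) (Subgroup.mem_top _)
  have h3 := h1 f hf
  have h4 := h2 g hg ⁅f, u⁆⁻¹ (by rw [Pi.mulSingle_inv]; exact Subgroup.inv_mem _ h3)
  rw [Subgroup.mem_comap, F.P_single] at h3 h4
  have h5 := H.mul_mem h3 h4
  have e1 : ((⁅f, u⁆ : LK hK (F.V j)) : E n ≃ₜ E n) * ((g * ⁅f, u⁆⁻¹ * g⁻¹ : LK hK (F.V j)) :
      E n ≃ₜ E n) = ⁅⁅(f : E n ≃ₜ E n), (u : E n ≃ₜ E n)⁆, (g : E n ≃ₜ E n)⁆ := by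
    simp only [commutatorElement_def, Subgroup.coe_mul, Subgroup.coe_inv]
    group
  have e2 : (f : E n ≃ₜ E n) = ⁅f₁, f₂⁆ := by
    simp only [f, commutatorElement_def, Subgroup.coe_mul, Subgroup.coe_inv]
  have e3 : (g : E n ≃ₜ E n) = ⁅g₁, g₂⁆ := by
    simp only [g, commutatorElement_def, Subgroup.coe_mul, Subgroup.coe_inv]
  have e4 : (u : E n ≃ₜ E n) = ⁅κ₁ j, κ₂ j⁆ := by
    simp only [u, commutatorElement_def, Subgroup.coe_mul, Subgroup.coe_inv]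
  have h6 : ⁅⁅(f : E n ≃ₜ E n), (u : E n ≃ₜ E n)⁆, (g : E n ≃ₜ E n)⁆ ∈ H := by
    rw [← e1]
    exact h5
  rw [e2, e3, e4, higman (sf₁.comm sf₂) (sg₁.comm sg₂) (hdis j)] at h6
  exact h6

end Pool.Agent.J6H96.SI
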