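import Pool.Agent.J6H96.SI.Len
import Pool.Agent.J6H96.SI.Card2

/-!
# Subadditive functions are locally bounded if the group is simple
-/

set_option autoImplicit false

open Set Filter Topology Function TopologicalSpace MeasureTheory
open Pool.Agent.Y453.HB
open Pool.Agent.N235.DH
open Pool.Agent.J6H85.LR (Prods Sh sc sc_coe mem_Sh)
open Pool.Agent.J6H85.ZO
open scoped commutatorElement

namespace Pool.Agent.J6H96.SI

variable {n : ℕ}

theorem incl_range : Pool.Agent.R773.HN.Mono (HamBar n) ≤ (HamBar n).subtype.range := by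
  rw [Subgroup.range_subtype]
  exact (Pool.Agent.R773.HN.Mono_norm (HamBar n)).1

/-- the elements of one conjugated piece -/
def piece {s : ℝ} (hs : 0 < s) (hs1 : s ≤ 1) {j : ℕ} (U : Set (GK (Ex n j))) (c : GK (Ex n j))
    (m : ℕ) : Set (HamBar n) :=
  {φ | ∃ v ∈ U, ∃ g : GK (Ex n m), φ = toH (Ex_InB j) c * (toH (Ex_InB j) v *
    sc s hs hs1 (toH (Ex_InB m) g) * (toH (Ex_InB j) v)⁻¹) * (toH (Ex_InB j) c)⁻¹}

theorem piece_ana {s : ℝ} (hs : 0 < s) (hs1 : s ≤ 1) {j m : ℕ} (hjm : j ≤ m)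
    {U : Set (GK (Ex n j))} (hU : IsOpen U) (c : GK (Ex n j)) :
    ∃ T : Set (GK (Ex n m)), AnalyticSet T ∧ piece hs hs1 U c m = toH (Ex_InB m) '' T := by
  have := polish_mul (GK (Ex n j)) (GK (Ex n m))
  have hinc := inc_cont (Ex_mono (n := n) hjm)
  have hsc := scG_cont (n := n) s hs hs1 m
  let F : GK (Ex n j) × GK (Ex n m) → GK (Ex n m) := fun p => inc (Ex_mono hjm) c *
    (inc (Ex_mono hjm) p.1 * scG s hs hs1 m p.2 * (inc (Ex_mono hjm) p.1)⁻¹) *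
      (inc (Ex_mono hjm) c)⁻¹
  have hF : Continuous F := by
    have h1 : Continuous fun p : GK (Ex n j) × GK (Ex n m) => inc (Ex_mono hjm) p.1 :=
      hinc.comp continuous_fst
    have h2 : Continuous fun p : GK (Ex n j) × GK (Ex n m) => scG s hs hs1 m p.2 :=
      hsc.comp continuous_snd
    exact (continuous_const.mul ((h1.mul h2).mul h1.inv)).mul continuous_const
  refine ⟨F '' (U ×ˢ univ), (hU.prod isOpen_univ).analyticSet_image hF, ?_⟩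
  ext φ
  constructor
  · rintro ⟨v, hv, g, rfl⟩
    exact ⟨_, ⟨(v, g), ⟨hv, mem_univ _⟩, rfl⟩, rfl⟩
  · rintro ⟨_, ⟨⟨v, g⟩, ⟨hv, -⟩, rfl⟩, rfl⟩
    exact ⟨v, hv, g, rfl⟩

theorem piece_inv {s : ℝ} (hs : 0 < s) (hs1 : s ≤ 1) {j m : ℕ} {U : Set (GK (Ex n j))}
    {c : GK (Ex n j)} {φ : HamBar n} (h : φ ∈ piece hs hs1 U c m) :
    φ⁻¹ ∈ piece hs hs1 U c m := by
  obtain ⟨v, hv, g, rfl⟩ := h
  refine ⟨v, hv, g⁻¹, ?_⟩
  rw [map_inv (toH (Ex_InB m)) g, map_inv (sc s hs hs1)]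
  group

theorem piece_mono {s : ℝ} (hs : 0 < s) (hs1 : s ≤ 1) {j k m : ℕ} (hkm : k ≤ m)
    {U : Set (GK (Ex n j))} {c : GK (Ex n j)} : piece hs hs1 U c k ⊆ piece hs hs1 U c m := by
  rintro _ ⟨v, hv, g, rfl⟩
  exact ⟨v, hv, inc (Ex_mono hkm) g, rfl⟩

/-- the tame family -/
theorem tame_pieces {s : ℝ} (hs : 0 < s) (hs1 : s ≤ 1)
    (hF : Subgroup.normalClosure (Sh n s) = ⊤) (U : ∀ j, Set (GK (Ex n j)))
    (hU : ∀ j, IsOpen (U j)) (hne : ∀ j, (U j).Nonempty) (c : ∀ j, ℕ → GK (Ex n j))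
    (hc : ∀ j, DenseRange (c j)) :
    Tame (fun m => ⋃ j : Fin (m + 1), ⋃ i : Fin (m + 1),
      piece hs hs1 (U j) (c j i) m) (⊤ : Subgroup (HamBar n)) where
  mono := by
    intro k m hkm φ hφ
    obtain ⟨j, hφ⟩ := mem_iUnion.1 hφ
    obtain ⟨i, hφ⟩ := mem_iUnion.1 hφ
    exact mem_iUnion.2 ⟨⟨j, by omega⟩, mem_iUnion.2 ⟨⟨i, by omega⟩, piece_mono hs hs1 hkm hφ⟩⟩
  ana := by
    intro m
    have h1 : ∀ j i : Fin (m + 1), ∃ T : Set (GK (Ex n m)), AnalyticSet T ∧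
        piece hs hs1 (U j) (c j i) m = toH (Ex_InB m) '' T := fun j i =>
      piece_ana hs hs1 (by omega) (hU j) (c j i)
    choose T hT hTe using h1
    refine ⟨Ex n m, Ex_InB m, ⋃ j, ⋃ i, T j i,
      AnalyticSet.iUnion fun j => AnalyticSet.iUnion fun i => hT j i, ?_⟩
    simp only [image_iUnion, hTe]
  inv := by
    intro m φ hφ
    obtain ⟨j, hφ⟩ := mem_iUnion.1 hφ
    obtain ⟨i, hφ⟩ := mem_iUnion.1 hφ
    exact mem_iUnion.2 ⟨j, mem_iUnion.2 ⟨i, piece_inv hs hs1 hφ⟩⟩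
  sub := fun m _ _ => Subgroup.mem_top _
  gen := by
    rw [← hF]
    show Subgroup.closure (Group.conjugatesOfSet (Sh n s)) ≤ _
    rw [Subgroup.closure_le]
    intro x hx
    obtain ⟨a, ha, hax⟩ := Group.mem_conjugatesOfSet_iff.1 hx
    obtain ⟨b, hb⟩ := isConj_iff.1 hax
    obtain ⟨g, rfl⟩ := (mem_Sh hs hs1).1 ha
    obtain ⟨j, hj⟩ := exists_In b
    obtain ⟨m, hm⟩ := exists_In g
    obtain ⟨b', rfl⟩ := In_lift (Ex_InB j) hj
    obtain ⟨g', rfl⟩ := In_lift (Ex_InB m) hm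
    have hop : IsOpen {d : GK (Ex n j) | d⁻¹ * b' ∈ U j} :=
      (hU j).preimage (continuous_inv.mul continuous_const)
    obtain ⟨u, hu⟩ := hne j
    obtain ⟨i, hi⟩ := (hc j).exists_mem_open hop ⟨b' * u⁻¹, by
      show (b' * u⁻¹)⁻¹ * b' ∈ U j
      have e : (b' * u⁻¹)⁻¹ * b' = u := by group
      rwa [e]⟩
    apply Subgroup.subset_closure
    refine mem_iUnion.2 ⟨j + i + m, mem_iUnion.2 ⟨⟨j, by omega⟩, mem_iUnion.2 ⟨⟨i, by omega⟩,
      piece_mono hs hs1 (Nat.le_add_left m (j + i)) ⟨(c j i)⁻¹ * b', hi, g', ?_⟩⟩⟩⟩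
    rw [← hb, map_mul, map_inv]
    group

/-- **Local boundedness.** -/
theorem locally_bounded_of_simple (hn : 0 < n)
    (h2 : Pool.Agent.J6H85.LR.LocallyTwoCommutators n)
    (hF : Pool.Agent.J6H85.LR.Fragmentation n) (ν : HamBar n → ℝ) (hν : Subadd ν)
    (K : Compacts (E n)) (hK : InB K) :
    ∃ ε C : ℝ, 0 < ε ∧ ∀ φ ∈ Ba (K : Set (E n)) ε, ν φ ≤ C := by
  obtain ⟨k, s, hs, hs1, η, hη, hsm⟩ := small_conj hn h2
    (fills_sub (HamBar n).subtype incl_range ν)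
    fun k => image_inv (HamBar n).subtype fun y hy => Yb_inv hy
  -- elements of bounded length
  have hC0 : ∀ g y : HamBar n, (∀ z, dist ((y : E n ≃ₜ E n) z) z < η) →
      ν (y * sc s hs hs1 g * y⁻¹) ≤ ν 1 + (96 : ℕ) * k := fun g y hy =>
    sub_bound hν (mem_prods_image (HamBar n).subtype (Subgroup.subtype_injective _)
      (hsm g y hy))
  -- somewhere dense sets
  have hcat : ∀ j : ℕ, ∃ m : ℕ,
      (interior (closure {ψ : GK (Ex n j) | toH (Ex_InB j) ψ ∈ Yb ν m})).Nonempty := by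
    intro j
    refine nonempty_interior_of_iUnion_of_closed (fun m => isClosed_closure) ?_
    refine eq_univ_of_forall fun ψ => ?_
    obtain ⟨m, hm⟩ := exists_nat_ge (max (ν (toH (Ex_InB j) ψ)) (ν (toH (Ex_InB j) ψ)⁻¹))
    exact mem_iUnion.2 ⟨m, subset_closure ⟨(le_max_left _ _).trans hm,
      (le_max_right _ _).trans hm⟩⟩
  choose μ hμ using hcat
  let U : ∀ j : ℕ, Set (GK (Ex n j)) := fun j =>
    interior (closure {ψ : GK (Ex n j) | toH (Ex_InB j) ψ ∈ Yb ν (μ j)})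
  let c : ∀ j : ℕ, ℕ → GK (Ex n j) := fun j => denseSeq (GK (Ex n j))
  -- the bound on the pieces
  let B : ℕ → ℕ → ℝ := fun j i => ν (toH (Ex_InB j) (c j i)) + ν (toH (Ex_InB j) (c j i))⁻¹ +
    (μ j + (ν 1 + (96 : ℕ) * k) + μ j)
  have hB : ∀ j i m, ∀ φ ∈ piece hs hs1 (U j) (c j i) m, ν φ ≤ B j i := by
    rintro j i m _ ⟨v, hv, g, rfl⟩
    have hv' : v ∈ closure {ψ : GK (Ex n j) | toH (Ex_InB j) ψ ∈ Yb ν (μ j)} :=
      interior_subset hv
    have hnb : {w : GK (Ex n j) | w⁻¹ * v ∈ {y : GK (Ex n j) |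
        ∀ z, dist ((y : E n ≃ₜ E n) z) z < η}} ∈ 𝓝 v := by
      have h1 : ContinuousAt (fun w : GK (Ex n j) => w⁻¹ * v) v := by fun_prop
      refine h1.preimage_mem_nhds ?_
      rw [inv_mul_cancel]
      exact ball_nhds 1 hη
    obtain ⟨w, hw1, hw2⟩ := mem_closure_iff_nhds.1 hv' _ hnb
    have e : toH (Ex_InB j) v * sc s hs hs1 (toH (Ex_InB m) g) * (toH (Ex_InB j) v)⁻¹ =
        toH (Ex_InB j) w * (toH (Ex_InB j) (w⁻¹ * v) * sc s hs hs1 (toH (Ex_InB m) g) *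
          (toH (Ex_InB j) (w⁻¹ * v))⁻¹) * (toH (Ex_InB j) w)⁻¹ := by
      rw [map_mul, map_inv]
      group
    have h1 := hC0 (toH (Ex_InB m) g) (toH (Ex_InB j) (w⁻¹ * v)) hw1
    have h3 : ∀ a b d : HamBar n, ν (a * b * d) ≤ ν a + ν b + ν d := fun a b d => by
      have h4 := hν (a * b) d
      have h5 := hν a b
      linarith
    rw [e]
    have h4 := h3 (toH (Ex_InB j) (c j i)) (toH (Ex_InB j) w *
      (toH (Ex_InB j) (w⁻¹ * v) * sc s hs hs1 (toH (Ex_InB m) g) *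
          (toH (Ex_InB j) (w⁻¹ * v))⁻¹) * (toH (Ex_InB j) w)⁻¹) (toH (Ex_InB j) (c j i))⁻¹
    have h5 := h3 (toH (Ex_InB j) w) (toH (Ex_InB j) (w⁻¹ * v) *
      sc s hs hs1 (toH (Ex_InB m) g) * (toH (Ex_InB j) (w⁻¹ * v))⁻¹) (toH (Ex_InB j) w)⁻¹
    have h6 := hw2.1
    have h7 := hw2.2
    show _ ≤ ν (toH (Ex_InB j) (c j i)) + ν (toH (Ex_InB j) (c j i))⁻¹ +
      (μ j + (ν 1 + (96 : ℕ) * k) + μ j)
    linarith
  have ht := tame_pieces hs hs1 (hF s hs hs1) U (fun j => isOpen_interior) hμ c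
    fun j => denseRange_denseSeq _
  obtain ⟨m, l, ε, hε, hball⟩ := ht.unif_top hK
  let C : ℝ := ∑ j ∈ Finset.range (m + 1), ∑ i ∈ Finset.range (m + 1), |B j i|
  have hC : ∀ x ∈ ⋃ j : Fin (m + 1), ⋃ i : Fin (m + 1), piece hs hs1 (U j) (c j i) m,
      ν x ≤ C := by
    intro x hx
    obtain ⟨j, hx⟩ := mem_iUnion.1 hx
    obtain ⟨i, hx⟩ := mem_iUnion.1 hx
    refine (hB j i m x hx).trans ((le_abs_self _).trans ?_)
    refine le_trans ?_ (Finset.single_le_sum (f := fun j => ∑ i ∈ Finset.range (m + 1), |B j i|)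
      (fun _ _ => Finset.sum_nonneg fun _ _ => abs_nonneg _)
      (Finset.mem_range.2 (show (j : ℕ) < m + 1 by omega)))
    exact Finset.single_le_sum (f := fun i => |B j i|) (fun _ _ => abs_nonneg _)
      (Finset.mem_range.2 (show (i : ℕ) < m + 1 by omega))
  have hC' : 0 ≤ C := Finset.sum_nonneg fun _ _ => Finset.sum_nonneg fun _ _ => abs_nonneg _
  exact ⟨ε, ν 1 + l * C, hε, fun φ hφ => norm_bound hν hC' hC (hball hφ)⟩

end Pool.Agent.J6H96.SI
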