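import Pool.Agent.J6H96.SI.Pt

/-!
# From small balls to the smooth group
-/

set_option autoImplicit false

open Set Filter Topology Function
open Pool.Agent.Y453.HB
open Pool.Agent.Y309.HB
open Pool.Agent.N235.DH
open Pool.Agent.R773.HN
open Pool.Agent.J6H85.LR (cpy cpy_mul cpy_inv cpy_one cpy_ham cpy_mem cpy_apply' af)
open scoped commutatorElement

namespace Pool.Agent.J6H96.SI

variable {n : ℕ}

/-- the Hamiltonian diffeomorphisms -/
def Sm (n : ℕ) : Subgroup (E n ≃ₜ E n) where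
  carrier := {u | IsHam u}
  one_mem' := (Pool.Agent.Y510.HB.inv n).1
  mul_mem' := fun h h' => Pool.Agent.Y907.HB.mul n _ _ h h'
  inv_mem' := fun h => (Pool.Agent.Y510.HB.inv n).2 _ h

theorem mid_sm (n : ℕ) : Mid (Sm n) := ⟨fun _ h => h, fun _ h => isHam_mem h⟩

theorem ham_mul {u v : E n ≃ₜ E n} (hu : IsHam u) (hv : IsHam v) : IsHam (u * v) :=
  (Sm n).mul_mem hu hv

theorem ham_inv {u : E n ≃ₜ E n} (hu : IsHam u) : IsHam u⁻¹ := (Sm n).inv_mem hu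

theorem ham_conj {u v : E n ≃ₜ E n} (hu : IsHam u) (hv : IsHam v) : IsHam (u * v * u⁻¹) :=
  ham_mul (ham_mul hu hv) (ham_inv hu)

theorem ham_comm {u v : E n ≃ₜ E n} (hu : IsHam u) (hv : IsHam v) : IsHam ⁅u, v⁆ :=
  ham_mul (ham_mul (ham_mul hu hv) (ham_inv hu)) (ham_inv hv)

theorem conj_closure {G : Type*} [Group G] {X : Set G} {u : G}
    (h : ∀ x ∈ X, u * x * u⁻¹ ∈ Subgroup.closure X) :
    ∀ x ∈ Subgroup.closure X, u * x * u⁻¹ ∈ Subgroup.closure X := by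
  intro x hx
  induction hx using Subgroup.closure_induction with
  | mem x hx => exact h x hx
  | one => simp
  | mul x y _ _ h1 h2 =>
    have e : u * (x * y) * u⁻¹ = (u * x * u⁻¹) * (u * y * u⁻¹) := by group
    rw [e]
    exact Subgroup.mul_mem _ h1 h2
  | inv x _ h1 =>
    have e : u * x⁻¹ * u⁻¹ = (u * x * u⁻¹)⁻¹ := by group
    rw [e]
    exact Subgroup.inv_mem _ h1

/-- many small steps -/
theorem chain {X : E n → Set (E n ≃ₜ E n)} {N : Subgroup (E n ≃ₜ E n)} {β : ℝ} (hβ : 0 < β)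
    (step : ∀ q v : E n, nm q ≤ 1 / 2 → nm v ≤ β → ∀ u ∈ X q, ∃ u' ∈ X (q + v), u * u'⁻¹ ∈ N)
    {q q' : E n} (hq : nm q ≤ 1 / 2) (hq' : nm q' ≤ 1 / 2) {u : E n ≃ₜ E n} (hu : u ∈ X q) :
    ∃ u' ∈ X q', u * u'⁻¹ ∈ N := by
  obtain ⟨m, hm⟩ := exists_nat_gt (nm (q' - q) / β)
  have hm0 : (0 : ℝ) < m := (div_nonneg (nm_nonneg _) hβ.le).trans_lt hm
  have hv : nm (q' - q) / m ≤ β := by
    rw [div_lt_iff₀ hβ] at hm
    rw [div_le_iff₀ hm0]
    linarith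
  have key : ∀ k : ℕ, k ≤ m → ∃ u' ∈ X (q + ((k : ℝ) / m) • (q' - q)), u * u'⁻¹ ∈ N := by
    intro k
    induction k with
    | zero =>
      intro _
      refine ⟨u, by simpa using hu, by rw [mul_inv_cancel]; exact N.one_mem⟩
    | succ k ih =>
      intro hk
      obtain ⟨w, hw, hwN⟩ := ih (by omega)
      have hkm : (k : ℝ) / m ≤ 1 := by
        rw [div_le_one hm0]
        exact_mod_cast (by omega : k ≤ m)
      have hk0 : 0 ≤ (k : ℝ) / m := by positivity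
      have hnq : nm (q + ((k : ℝ) / m) • (q' - q)) ≤ 1 / 2 := by
        have e : q + ((k : ℝ) / m) • (q' - q) = (1 - (k : ℝ) / m) • q + ((k : ℝ) / m) • q' := by
          rw [smul_sub, sub_smul, one_smul]
          abel
        rw [e]
        refine (nm_add _ _).trans ?_
        rw [nm_smul, nm_smul, abs_of_nonneg hk0, abs_of_nonneg (by linarith)]
        nlinarith
      obtain ⟨w', hw', hwN'⟩ := step _ ((1 / (m : ℝ)) • (q' - q)) hnq (by
        rw [nm_smul, abs_of_pos (by positivity), one_div_mul_eq_div]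
        exact hv) w hw
      refine ⟨w', ?_, ?_⟩
      · have e : q + ((k : ℝ) / m) • (q' - q) + (1 / (m : ℝ)) • (q' - q) =
            q + (((k + 1 : ℕ) : ℝ) / m) • (q' - q) := by
          rw [add_assoc, ← add_smul]
          congr 2
          push_cast
          ring
        rwa [e] at hw'
      · have := N.mul_mem hwN hwN'
        have e : u * w⁻¹ * (w * w'⁻¹) = u * w'⁻¹ := by group
        rwa [e] at this
  obtain ⟨w, hw, hwN⟩ := key m le_rfl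
  rw [div_self hm0.ne', one_smul, add_sub_cancel] at hw
  exact ⟨w, hw, hwN⟩

/-- conjugation by small elements -/
theorem farconj (hn : 0 < n) {X : E n → Set (E n ≃ₜ E n)} {N : Subgroup (E n ≃ₜ E n)} {β : ℝ}
    (hβ : 0 < β)
    (step : ∀ q v : E n, nm q ≤ 1 / 2 → nm v ≤ β → ∀ u ∈ X q, ∃ u' ∈ X (q + v), u * u'⁻¹ ∈ N)
    {η r : ℝ} (hηr : η + r < 1 / 4) (hX : ∀ q, ∀ u ∈ X q, Supp (D q η) u) {q : E n}
    (hq : nm q ≤ 1 / 2) {u : E n ≃ₜ E n} (hu : u ∈ X q) {x : E n ≃ₜ E n} (hx : x ∈ N)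
    {q₂ : E n} (hxs : Supp (D q₂ r) x) : u * x * u⁻¹ ∈ N := by
  obtain ⟨e, he⟩ := exists_vec hn (show (0 : ℝ) < 1 / 4 by norm_num)
  obtain ⟨q', hq', hd⟩ : ∃ q' : E n, nm q' ≤ 1 / 2 ∧ 1 / 4 ≤ nm (q' - q₂) := by
    by_contra hcon
    push Not at hcon
    have h1 := hcon e (by rw [he]; norm_num)
    have h2 := hcon (-e) (by rw [nm_neg, he]; norm_num)
    have h3 := nm_tri e q₂ (-e)
    rw [nm_sub_comm q₂ (-e)] at h3
    have e1 : e - -e = (2 : ℝ) • e := by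
      rw [two_smul]
      abel
    rw [e1, nm_smul, he, abs_of_pos (show (0 : ℝ) < 2 by norm_num)] at h3
    linarith
  obtain ⟨w, hw, hwN⟩ := chain hβ step hq hq' hu
  have hdis : Disjoint (D q' η) (D q₂ r) := by
    rw [Set.disjoint_left]
    intro y hy hy'
    have h1 : nm (y - q') ≤ η := hy
    have h2 : nm (y - q₂) ≤ r := hy'
    have h3 := nm_tri q' y q₂
    rw [nm_sub_comm q' y] at h3
    linarith
  have hc : w * x = x * w := (hX q' w hw).commute hdis hxs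
  have e1 : u * x * u⁻¹ = (u * w⁻¹) * x * (u * w⁻¹)⁻¹ := by
    have : (u * w⁻¹) * x * (u * w⁻¹)⁻¹ = u * (w⁻¹ * (x * w)) * u⁻¹ := by group
    rw [this, ← hc]
    group
  rw [e1]
  exact N.mul_mem (N.mul_mem hwN hx) (N.inv_mem hwN)

/-- the commutators of small elements generate -/
theorem loc1 (hn : 0 < n) {N : Subgroup (E n ≃ₜ E n)} {r : ℝ} (hr : 0 < r) (hr1 : r ≤ 1 / 16)
    (hA : ∀ q : E n, nm q ≤ 1 / 2 → ∀ f g : E n ≃ₜ E n, IsHam f → IsHam g → Supp (D q r) f →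
      Supp (D q r) g → ⁅f, g⁆ ∈ N) :
    ∀ x ∈ Mono (Sm n), cpy 0 (1 / 2) (by norm_num) x ∈ N := by
  set Y : Set (E n ≃ₜ E n) := {y | ∃ q : E n, nm q ≤ 1 / 2 ∧ ∃ f g : E n ≃ₜ E n, IsHam f ∧
    IsHam g ∧ Supp (D q r) f ∧ Supp (D q r) g ∧ y = ⁅f, g⁆} with hY
  set T := Subgroup.closure Y with hTdef
  have hTN : T ≤ N := by
    rw [hTdef, Subgroup.closure_le]
    rintro _ ⟨q, hq, f, g, hf, hg, hfs, hgs, rfl⟩
    exact hA q hq f g hf hg hfs hgs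
  let X : E n → Set (E n ≃ₜ E n) := fun q => {u | IsHam u ∧ Supp (D q (r / 2)) u}
  have hsub : ∀ q : E n, D q (r / 2) ⊆ D q r := fun q x hx => by
    have h1 : nm (x - q) ≤ r / 2 := hx
    show nm (x - q) ≤ r
    linarith
  have step : ∀ q v : E n, nm q ≤ 1 / 2 → nm v ≤ r / 4 → ∀ u ∈ X q, ∃ u' ∈ X (q + v),
      u * u'⁻¹ ∈ T := by
    rintro q v hq hv u ⟨hu, hus⟩
    obtain ⟨κ, hκ, hκs, hκx⟩ := hT n q q v (r / 2) r (by linarith) (by linarith)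
      (by rw [sub_self, nm_zero]; linarith) (by rw [add_sub_cancel_left]; linarith)
    refine ⟨κ * u * κ⁻¹, ⟨ham_conj hκ hu, (hus.conj κ).mono (image_D hκx)⟩, ?_⟩
    have e : u * (κ * u * κ⁻¹)⁻¹ = ⁅u, κ⁆ := by
      rw [commutatorElement_def]
      group
    rw [e]
    exact Subgroup.subset_closure ⟨q, hq, u, κ, hu, hκ, hus.mono (hsub q), hκs, rfl⟩
  have hconj : ∀ q : E n, nm q ≤ 1 / 2 → ∀ u ∈ X q, ∀ x ∈ T, u * x * u⁻¹ ∈ T := by
    intro q hq u hu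
    refine conj_closure ?_
    rintro x ⟨q₂, hq₂, f, g, hf, hg, hfs, hgs, rfl⟩
    exact farconj hn (X := X) (η := r / 2) (r := r) (by linarith) step (by linarith)
      (fun q u hu => hu.2) hq hu
      (Subgroup.subset_closure ⟨q₂, hq₂, f, g, hf, hg, hfs, hgs, rfl⟩) (hfs.comm hgs)
  have hnrm : ∀ q : E n, nm q ≤ 1 / 2 → ∀ u ∈ X q, u ∈ Nrm T := by
    intro q hq u hu
    refine ⟨hconj q hq u hu, fun x hx => ?_⟩
    have := hconj q hq u⁻¹ ⟨ham_inv hu.1, hu.2.inv⟩ x hx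
    rwa [inv_inv] at this
  have hh : (0 : ℝ) < 1 / 2 := by norm_num
  have hsc : ∀ (q : E n) (ρ : ℝ) (u : E n ≃ₜ E n), Supp (D q ρ) u →
      Supp (D ((1 / 2 : ℝ) • q) (ρ / 2)) (cpy 0 (1 / 2) hh u) := by
    intro q ρ u hu x hx
    rw [cpy_apply', sub_zero, hu, smul_smul, mul_inv_cancel₀ hh.ne', one_smul, zero_add]
    intro hc
    apply hx
    have h1 : nm ((1 / 2 : ℝ)⁻¹ • x - q) ≤ ρ := hc
    have h2 : x - (1 / 2 : ℝ) • q = (1 / 2 : ℝ) • ((1 / 2 : ℝ)⁻¹ • x - q) := by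
      rw [smul_sub, smul_smul, mul_inv_cancel₀ hh.ne', one_smul]
    show nm (x - (1 / 2 : ℝ) • q) ≤ ρ / 2
    rw [h2, nm_smul, abs_of_pos hh]
    linarith
  have hcham : ∀ u : E n ≃ₜ E n, IsHam u → IsHam (cpy 0 (1 / 2) hh u) := fun u hu =>
    cpy_ham hh (by rw [nm_zero]; norm_num) hu
  have hall : ∀ g : E n ≃ₜ E n, IsHam g → cpy 0 (1 / 2) hh g ∈ Nrm T := by
    intro g hg
    have h1 := hFr n g hg (r / 2) (by linarith) (by linarith)
    induction h1 using Subgroup.closure_induction with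
    | mem v hv =>
      obtain ⟨hv1, q, ρ, hρ, hρη, hqρ, hvs⟩ := hv
      refine hnrm ((1 / 2 : ℝ) • q) ?_ _ ⟨hcham v hv1, (hsc q ρ v hvs).mono fun x hx => ?_⟩
      · rw [nm_smul, abs_of_pos hh]
        linarith
      · have h2 : nm (x - (1 / 2 : ℝ) • q) ≤ ρ / 2 := hx
        show nm (x - (1 / 2 : ℝ) • q) ≤ r / 2
        linarith
    | one =>
      rw [cpy_one]
      exact Subgroup.one_mem _
    | mul x y hx hy h1 h2 =>
      rw [cpy_mul]
      refine Subgroup.mul_mem _ (h1 ?_) (h2 ?_)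
      · exact (Subgroup.closure_le (Sm n)).2 (fun v hv => hv.1) hx
      · exact (Subgroup.closure_le (Sm n)).2 (fun v hv => hv.1) hy
    | inv x hx h1 =>
      rw [cpy_inv]
      exact Subgroup.inv_mem _ (h1 ((Subgroup.closure_le (Sm n)).2 (fun v hv => hv.1) hx))
  let NT : Subgroup (E n ≃ₜ E n) :=
    { carrier := {x | IsHam x ∧ cpy 0 (1 / 2) hh x ∈ T}
      one_mem' := ⟨(Sm n).one_mem, by rw [cpy_one]; exact T.one_mem⟩
      mul_mem' := fun h h' => ⟨ham_mul h.1 h'.1, by rw [cpy_mul]; exact T.mul_mem h.2 h'.2⟩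
      inv_mem' := fun h => ⟨ham_inv h.1, by rw [cpy_inv]; exact T.inv_mem h.2⟩ }
  have hNT : NormIn (Sm n) NT := by
    refine ⟨fun x hx => hx.1, fun g hg x hx => ⟨ham_conj hg hx.1, ?_⟩⟩
    rw [cpy_mul, cpy_mul, cpy_inv]
    exact (hall g hg).1 _ hx.2
  have hne : NT ≠ ⊥ := by
    obtain ⟨a, b, ha, hb, has, hbs, hab⟩ := L3 hT hn (q := (0 : E n)) (r := r) hr
      (by rw [nm_zero]; linarith)
    intro hbot
    have h1 : ⁅a, b⁆ ∈ NT := by
      refine ⟨ham_comm ha hb, Subgroup.subset_closure ⟨0, by rw [nm_zero]; norm_num,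
        cpy 0 (1 / 2) hh a, cpy 0 (1 / 2) hh b, hcham a ha, hcham b hb, ?_, ?_, ?_⟩⟩
      · have h2 := hsc 0 r a has
        rw [smul_zero] at h2
        exact h2.mono (hsub 0)
      · have h2 := hsc 0 r b hbs
        rw [smul_zero] at h2
        exact h2.mono (hsub 0)
      · simp only [commutatorElement_def, cpy_mul, cpy_inv]
    rw [hbot, Subgroup.mem_bot] at h1
    exact hab h1
  exact fun x hx => hTN (Mono_le hNT hne hx).2

/-- the double commutators of small elements generate -/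
theorem loc2 (hn : 0 < n) {H : Subgroup (E n ≃ₜ E n)} {r : ℝ} (hr : 0 < r) (hr1 : r ≤ 1 / 16)
    (hA : ∀ q : E n, nm q ≤ 1 / 2 → ∀ f₁ f₂ g₁ g₂ : E n ≃ₜ E n, IsHam f₁ → IsHam f₂ →
      IsHam g₁ → IsHam g₂ → Supp (D q r) f₁ → Supp (D q r) f₂ → Supp (D q r) g₁ →
      Supp (D q r) g₂ → ⁅⁅f₁, f₂⁆, ⁅g₁, g₂⁆⁆ ∈ H) :
    ∀ x ∈ Mono (Sm n), cpy 0 (1 / 2) (by norm_num) x ∈ H := by
  set Y : Set (E n ≃ₜ E n) := {y | ∃ q : E n, nm q ≤ 1 / 2 ∧ ∃ f₁ f₂ g₁ g₂ : E n ≃ₜ E n,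
    IsHam f₁ ∧ IsHam f₂ ∧ IsHam g₁ ∧ IsHam g₂ ∧ Supp (D q r) f₁ ∧ Supp (D q r) f₂ ∧
    Supp (D q r) g₁ ∧ Supp (D q r) g₂ ∧ y = ⁅⁅f₁, f₂⁆, ⁅g₁, g₂⁆⁆} with hY
  set T := Subgroup.closure Y with hTdef
  have hTN : T ≤ H := by
    rw [hTdef, Subgroup.closure_le]
    rintro _ ⟨q, hq, f₁, f₂, g₁, g₂, hf₁, hf₂, hg₁, hg₂, sf₁, sf₂, sg₁, sg₂, rfl⟩
    exact hA q hq _ _ _ _ hf₁ hf₂ hg₁ hg₂ sf₁ sf₂ sg₁ sg₂
  let X : E n → Set (E n ≃ₜ E n) := fun q => {u | ∃ a b : E n ≃ₜ E n, IsHam a ∧ IsHam b ∧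
    Supp (D q (r / 16)) a ∧ Supp (D q (r / 16)) b ∧ u = ⁅a, b⁆}
  have hsub : ∀ q : E n, D q (r / 16) ⊆ D q r := fun q x hx => by
    have h1 : nm (x - q) ≤ r / 16 := hx
    show nm (x - q) ≤ r
    linarith
  have step : ∀ q v : E n, nm q ≤ 1 / 2 → nm v ≤ r / 8 → ∀ u ∈ X q, ∃ u' ∈ X (q + v),
      u * u'⁻¹ ∈ T := by
    rintro q v hq hv _ ⟨a, b, ha, hb, has, hbs, rfl⟩
    obtain ⟨κ₁, κ₂, hκ₁, hκ₂, s₁, s₂, hκx⟩ := ctrans hn (q := q) (v := v) (R := r)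
      (ε := r / 16) hr (by linarith) hv (by linarith) le_rfl
    set κ : E n ≃ₜ E n := ⁅κ₁, κ₂⁆ with hκdef
    have hκ : IsHam κ := ham_comm hκ₁ hκ₂
    refine ⟨κ * ⁅a, b⁆ * κ⁻¹, ⟨κ * a * κ⁻¹, κ * b * κ⁻¹, ham_conj hκ ha, ham_conj hκ hb,
      (has.conj κ).mono (image_D hκx), (hbs.conj κ).mono (image_D hκx), ?_⟩, ?_⟩
    · simp only [commutatorElement_def]
      group
    · have e : ⁅a, b⁆ * (κ * ⁅a, b⁆ * κ⁻¹)⁻¹ = ⁅⁅a, b⁆, κ⁆ := by
        rw [commutatorElement_def ⁅a, b⁆ κ]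
        group
      rw [e]
      exact Subgroup.subset_closure ⟨q, hq, a, b, κ₁, κ₂, ha, hb, hκ₁, hκ₂, has.mono (hsub q),
        hbs.mono (hsub q), s₁, s₂, rfl⟩
  have hconj : ∀ q : E n, nm q ≤ 1 / 2 → ∀ u ∈ X q, ∀ x ∈ T, u * x * u⁻¹ ∈ T := by
    intro q hq u hu
    refine conj_closure ?_
    rintro x ⟨q₂, hq₂, f₁, f₂, g₁, g₂, hf₁, hf₂, hg₁, hg₂, sf₁, sf₂, sg₁, sg₂, rfl⟩
    refine farconj hn (X := X) (η := r / 16) (r := r) (by linarith) step (by linarith)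
      ?_ hq hu
      (Subgroup.subset_closure ⟨q₂, hq₂, f₁, f₂, g₁, g₂, hf₁, hf₂, hg₁, hg₂, sf₁, sf₂, sg₁,
        sg₂, rfl⟩) ((sf₁.comm sf₂).comm (sg₁.comm sg₂))
    rintro q _ ⟨a, b, ha, hb, has, hbs, rfl⟩
    exact has.comm hbs
  have hnrm : ∀ q : E n, nm q ≤ 1 / 2 → ∀ a b : E n ≃ₜ E n, IsHam a → IsHam b →
      Supp (D q (r / 16)) a → Supp (D q (r / 16)) b → ⁅a, b⁆ ∈ Nrm T := by
    intro q hq a b ha hb has hbs
    refine ⟨hconj q hq _ ⟨a, b, ha, hb, has, hbs, rfl⟩, fun x hx => ?_⟩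
    have := hconj q hq ⁅b, a⁆ ⟨b, a, hb, ha, hbs, has, rfl⟩ x hx
    rw [← commutatorElement_inv, inv_inv] at this
    exact this
  have hh : (0 : ℝ) < 1 / 2 := by norm_num
  have hall := loc1 hn (N := Nrm T) (r := r / 16) (by linarith) (by linarith) hnrm
  let M : Subgroup (E n ≃ₜ E n) :=
    { carrier := {x | x ∈ Mono (Sm n) ∧ cpy 0 (1 / 2) hh x ∈ T}
      one_mem' := ⟨(Mono (Sm n)).one_mem, by rw [cpy_one]; exact T.one_mem⟩
      mul_mem' := fun h h' => ⟨(Mono (Sm n)).mul_mem h.1 h'.1, by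
        rw [cpy_mul]; exact T.mul_mem h.2 h'.2⟩
      inv_mem' := fun h => ⟨(Mono (Sm n)).inv_mem h.1, by
        rw [cpy_inv]; exact T.inv_mem h.2⟩ }
  have hM : NormIn (Mono (Sm n)) M := by
    refine ⟨fun x hx => hx.1, fun g hg x hx => ⟨?_, ?_⟩⟩
    · exact (Mono (Sm n)).mul_mem ((Mono (Sm n)).mul_mem hg hx.1) ((Mono (Sm n)).inv_mem hg)
    · rw [cpy_mul, cpy_mul, cpy_inv]
      exact (hall g hg).1 _ hx.2
  have hne : M ≠ ⊥ := by
    obtain ⟨a, b, c, d, ha, hb, hc, hd, has, hbs, hcs, hds, habcd⟩ := L4 hT hn (q := (0 : E n))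
      (r := r) hr (by rw [nm_zero]; linarith)
    have hsc : ∀ u : E n ≃ₜ E n, Supp (D 0 r) u → Supp (D 0 r) (cpy 0 (1 / 2) hh u) := by
      intro u hu x hx
      rw [cpy_apply', sub_zero, hu, smul_smul, mul_inv_cancel₀ hh.ne', one_smul, zero_add]
      intro hc
      apply hx
      have h1 : nm ((1 / 2 : ℝ)⁻¹ • x - 0) ≤ r := hc
      rw [sub_zero, nm_smul, abs_of_pos (by norm_num)] at h1
      show nm (x - 0) ≤ r
      rw [sub_zero]
      have := nm_nonneg x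
      norm_num at h1
      linarith
    have hcham : ∀ u : E n ≃ₜ E n, IsHam u → IsHam (cpy 0 (1 / 2) hh u) := fun u hu =>
      cpy_ham hh (by rw [nm_zero]; norm_num) hu
    intro hbot
    have h1 : ⁅⁅a, b⁆, ⁅c, d⁆⁆ ∈ M := by
      refine ⟨comm_ball hT hR hn (mid_sm n) (z := 0) (r := r) hr (by linarith)
        (by rw [nm_zero]; linarith) (ham_comm ha hb) (ham_comm hc hd) (has.comm hbs)
        (hcs.comm hds), Subgroup.subset_closure ⟨0, by rw [nm_zero]; norm_num, _, _, _, _,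
        hcham a ha, hcham b hb, hcham c hc, hcham d hd, hsc a has, hsc b hbs, hsc c hcs,
        hsc d hds, ?_⟩⟩
      simp only [commutatorElement_def, cpy_mul, cpy_inv]
    rw [hbot, Subgroup.mem_bot] at h1
    exact habcd h1
  exact fun x hx => hTN (Mono_simple hT hR hn (mid_sm n) hM hne hx).2

/-- **Small index.** -/
theorem small_index (hn : 0 < n) {H : Subgroup (E n ≃ₜ E n)}
    (hH : SmallIn (Mono (HamBar n)) H) : Mono (HamBar n) ≤ H := by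
  have hh : (0 : ℝ) < 1 / 2 := by norm_num
  obtain ⟨⟨x₀, hx₀⟩, hx₀'⟩ := (Subgroup.ne_bot_iff_exists_ne_one).1
    (Mono_ne hT hR hn (mid_sm n))
  have hx1 : x₀ ≠ 1 := fun h' => hx₀' (Subtype.ext h')
  set y₀ : E n ≃ₜ E n := cpy 0 (1 / 2) hh x₀ with hy₀
  have hy1 : y₀ ≠ 1 := by
    intro h
    apply hx1
    have e : x₀ = (af 0 (1 / 2) hh)⁻¹ * y₀ * af 0 (1 / 2) hh := by
      rw [hy₀]
      unfold cpy
      group
    rw [e, h]
    group
  have key : ∀ H' : Subgroup (E n ≃ₜ E n), SmallIn (Mono (HamBar n)) H' → y₀ ∈ H' := by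
    intro H' hH'
    obtain ⟨r, hr, hr1, hg⟩ := leb hn hH'
    refine loc2 hn hr hr1 (fun q hq f₁ f₂ g₁ g₂ hf₁ hf₂ hg₁ hg₂ sf₁ sf₂ sg₁ sg₂ => ?_) x₀ hx₀
    have hDK : D q r ⊆ D 0 (3 / 4) := fun z hz => by
      have h1 : nm (z - q) ≤ r := hz
      have h2 := nm_add (z - q) q
      rw [sub_add_cancel] at h2
      show nm (z - 0) ≤ 3 / 4
      rw [sub_zero]
      linarith
    have hk : ∀ f : E n ≃ₜ E n, IsHam f → Supp (D q r) f → f ∈ HK n (D 0 (3 / 4)) :=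
      fun f hf hs => HK_ham hf (hs.mono hDK)
    exact hg q hq _ _ _ _ (hk _ hf₁ sf₁) (hk _ hf₂ sf₂) (hk _ hg₁ sg₁) (hk _ hg₂ sg₂) sf₁ sf₂
      sg₁ sg₂
  set I : Subgroup (E n ≃ₜ E n) :=
    sInf {H' | SmallIn (Mono (HamBar n)) H'} ⊓ HamBar n with hI
  have hnorm := Mono_norm (HamBar n)
  have hIn : NormIn (HamBar n) I := by
    refine ⟨inf_le_right, fun g hg x hx => ?_⟩
    obtain ⟨h1, h2⟩ := Subgroup.mem_inf.1 hx
    refine Subgroup.mem_inf.2 ⟨?_, (HamBar n).mul_mem ((HamBar n).mul_mem hg h2)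
      ((HamBar n).inv_mem hg)⟩
    rw [Subgroup.mem_sInf] at h1 ⊢
    intro H' hH'
    have h3 : SmallIn (Mono (HamBar n)) (H'.comap (MulAut.conj g).toMonoidHom) := by
      refine SmallIn.comap hH' _ fun y hy => ?_
      rw [Subgroup.mem_comap]
      exact hnorm.2 g hg y hy
    exact h1 _ h3
  have hIne : I ≠ ⊥ := by
    intro hbot
    have h1 : y₀ ∈ I := by
      refine Subgroup.mem_inf.2 ⟨?_, ?_⟩
      · rw [Subgroup.mem_sInf]
        exact key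
      · exact isHam_mem (cpy_ham hh (by rw [nm_zero]; norm_num) ((Mono_norm (Sm n)).1 hx₀))
    rw [hbot, Subgroup.mem_bot] at h1
    exact hy1 h1
  have h1 := Mono_le hIn hIne
  exact h1.trans (inf_le_left.trans (sInf_le hH))

end Pool.Agent.J6H96.SI
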