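import Pool.Agent.J6H96.SI.PtW
import Pool.Agent.J6H96.SI.Loc
import Pool.Agent.J6H85.LR.Par

/-!
# Elements with small supports and sequences of sets
-/

set_option autoImplicit false

open Set Filter Topology Function
open Pool.Agent.Y453.HB
open Pool.Agent.Y309.HB
open Pool.Agent.N235.DH
open Pool.Agent.R773.HN
open Pool.Agent.J6H85.LR (Prods Comm Sh sc sc_coe sc_sc mem_Sh cpy cpy_mul cpy_inv cpy_mem cpy_HK
  cpy_supp W)
open scoped commutatorElement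

namespace Pool.Agent.J6H96.SI

theorem EEW_prods {G : Type*} [Group G] {X : Set G} (hX : ∀ w ∈ X, w⁻¹ ∈ X) :
    EEW X ⊆ Prods X 12 := by
  rintro _ ⟨h, hh, _, ⟨a, ha, b, hb, c, hc, rfl⟩, rfl⟩
  refine ⟨[h⁻¹, a, b, a⁻¹, b⁻¹, c, b, a, b⁻¹, a⁻¹, c⁻¹, h], by simp, ?_, ?_⟩
  · intro x hx
    simp only [List.mem_cons, List.not_mem_nil, or_false] at hx
    rcases hx with rfl | rfl | rfl | rfl | rfl | rfl | rfl | rfl | rfl | rfl | rfl | rfl
    · exact hX _ hh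
    · exact ha
    · exact hb
    · exact hX _ ha
    · exact hX _ hb
    · exact hc
    · exact hb
    · exact ha
    · exact hX _ hb
    · exact hX _ ha
    · exact hX _ hc
    · exact hh
  · simp only [List.prod_cons, List.prod_nil, commutatorElement_def]
    group

/-- the double commutators -/
def DC (G : Type*) [Group G] : Set G := {z | ∃ a b c d : G, z = ⁅⁅a, b⁆, ⁅c, d⁆⁆}

theorem DC.conj {G : Type*} [Group G] (g : G) {z : G} (hz : z ∈ DC G) : g * z * g⁻¹ ∈ DC G := by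
  obtain ⟨a, b, c, d, rfl⟩ := hz
  refine ⟨g * a * g⁻¹, g * b * g⁻¹, g * c * g⁻¹, g * d * g⁻¹, ?_⟩
  simp only [commutatorElement_def]
  group

theorem prods_two {G : Type*} [Group G] {g : G} (h : g ∈ Prods (Comm G) 2) :
    ∃ a b c d : G, g = ⁅a, b⁆ * ⁅c, d⁆ := by
  obtain ⟨l, h1, h2, rfl⟩ := h
  match l, h1, h2 with
  | [], _, _ => exact ⟨1, 1, 1, 1, by simp⟩
  | [x], _, h2 =>
    obtain ⟨a, b, hx⟩ := h2 x (by simp)
    exact ⟨a, b, 1, 1, by simp [hx]⟩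
  | [x, y], _, h2 =>
    obtain ⟨a, b, hx⟩ := h2 x (by simp)
    obtain ⟨c, d, hy⟩ := h2 y (by simp)
    exact ⟨a, b, c, d, by simp [hx, hy]⟩
  | _ :: _ :: _ :: _, h1, _ => simp at h1

/-- a commutator of products of two commutators is a product of four double commutators -/
theorem comm_four {G : Type*} [Group G] {x y : G} (hx : x ∈ Prods (Comm G) 2)
    (hy : y ∈ Prods (Comm G) 2) : ⁅x, y⁆ ∈ Prods (DC G) 4 := by
  obtain ⟨a, b, c, d, rfl⟩ := prods_two hx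
  obtain ⟨a', b', c', d', rfl⟩ := prods_two hy
  set u₁ := ⁅a, b⁆ with hu₁
  set u₂ := ⁅c, d⁆ with hu₂
  set v₁ := ⁅a', b'⁆ with hv₁
  set v₂ := ⁅c', d'⁆ with hv₂
  refine ⟨[u₁ * ⁅u₂, v₁⁆ * u₁⁻¹, (u₁ * v₁) * ⁅u₂, v₂⁆ * (u₁ * v₁)⁻¹, ⁅u₁, v₁⁆,
    v₁ * ⁅u₁, v₂⁆ * v₁⁻¹], by simp, ?_, ?_⟩
  · intro z hz
    simp only [List.mem_cons, List.not_mem_nil, or_false] at hz
    rcases hz with rfl | rfl | rfl | rfl
    · exact DC.conj _ ⟨_, _, _, _, rfl⟩
    · exact DC.conj _ ⟨_, _, _, _, rfl⟩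
    · exact ⟨_, _, _, _, rfl⟩
    · exact DC.conj _ ⟨_, _, _, _, rfl⟩
  · simp only [List.prod_cons, List.prod_nil]
    clear_value u₁ u₂ v₁ v₂
    simp only [commutatorElement_def]
    group

variable {n : ℕ}

/-- locally the elements are products of eight double commutators -/
theorem eight {r : ℝ} (hr : 0 < r) (hr1 : r ≤ 1) (h : Sh n r ⊆ Prods (Comm (HamBar n)) 2)
    (g : HamBar n) : sc (r * r) (mul_pos hr hr) (mul_le_one₀ hr1 hr.le hr1) g ∈
      Prods (DC (HamBar n)) 8 := by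
  have key : ∀ a : HamBar n, sc r hr hr1 a ∈ Prods (Comm (HamBar n)) 2 := fun a =>
    h ((mem_Sh hr hr1).2 ⟨a, rfl⟩)
  rw [← sc_sc r r hr hr1 hr hr1]
  obtain ⟨a, b, c, d, he⟩ := prods_two (key g)
  rw [he, map_mul, map_commutatorElement, map_commutatorElement]
  exact Pool.Agent.J6H85.LR.Prods.mul (comm_four (key a) (key b)) (comm_four (key c) (key d))

/-- conjugates by elements near the identity -/
theorem conj_HK {t₀ t : ℝ} (ht : t₀ < t) : ∃ η > 0, ∀ y ∈ HamBar n,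
    (∀ z, dist ((y : E n ≃ₜ E n) z) z < η) → ∀ f ∈ HK n (D (0 : E n) t₀),
      y * f * y⁻¹ ∈ HK n (D (0 : E n) t) := by
  obtain ⟨η₂, hη₂, hη⟩ : ∃ η > 0, ∀ v : E n, dist v 0 < η → nm v < t - t₀ := by
    have h1 := (nm_cont (n := n)).tendsto 0
    rw [nm_zero] at h1
    obtain ⟨η, h2, h3⟩ := Metric.eventually_nhds_iff.1 (h1.eventually
      (gt_mem_nhds (show (0 : ℝ) < t - t₀ by linarith)))
    exact ⟨η, h2, fun v hv => h3 hv⟩
  refine ⟨η₂ / 2, by linarith, fun y hy hyd f hf => ?_⟩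
  have himg : ∀ w : E n ≃ₜ E n, (∀ z, dist (w z) z < η₂) → w '' D 0 t₀ ⊆ D 0 t := by
    rintro w hw _ ⟨z, hz, rfl⟩
    have h1 : nm (z - 0) ≤ t₀ := hz
    have h2 : nm (w z - z) < t - t₀ := hη _ (by rw [dist_zero_right, ← dist_eq_norm]; exact hw z)
    have h3 := nm_tri (w z) z 0
    show nm (w z - 0) ≤ t
    linarith
  have hsup : ∀ w f : E n ≃ₜ E n, (∀ z, dist (w z) z < η₂) → Supp (D 0 t₀) f →
      Supp (D 0 t) (w * f * w⁻¹) := fun w f hw hf => (hf.conj w).mono (himg w hw)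
  obtain ⟨L, hL, hL1, hL2, u, hu1, hu2, hu3⟩ := (mem_iff Pool.Agent.Y907.HB.mul
    Pool.Agent.Y510.HB.inv uc).1 hy
  obtain ⟨hf1, v, hv1, hv2, hv3⟩ := hf
  obtain ⟨N, hN⟩ := eventually_atTop.1 (Metric.tendstoUniformly_iff.1 hu3 (η₂ / 2) (by linarith))
  have hU := uconv_of uc hL hL2 hu3
  have hV := uconv_of uc (D_compact (0 : E n) t₀) hf1 hv3
  have hW := uc_mul (uc_mul hU hV) (uc_inv hU)
  have hsh : Tendsto (fun k : ℕ => k + N) atTop atTop := tendsto_add_atTop_nat N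
  refine ⟨hsup y f (fun z => (hyd z).trans (by linarith)) hf1,
    fun k => u (k + N) * v (k + N) * (u (k + N))⁻¹, fun k => ?_, fun k => ?_, ?_⟩
  · refine hsup _ _ (fun z => ?_) (hv1 _)
    have h1 := hN (k + N) (Nat.le_add_left N k) z
    rw [dist_comm] at h1
    have h2 := hyd z
    have h3 := dist_triangle (u (k + N) z) (y z) z
    linarith
  · exact ham_conj (hu2 _) (hv2 _)
  · rw [Metric.tendstoUniformly_iff]
    intro ε hε
    exact hsh.eventually (Metric.tendstoUniformly_iff.1 hW.1 ε hε)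

/-- **The conjugates of elements with small supports by elements near the identity.** -/
theorem small_conj (hn : 0 < n) (h2 : Pool.Agent.J6H85.LR.LocallyTwoCommutators n)
    {X : ℕ → Set (E n ≃ₜ E n)} (hX : Fills (Mono (HamBar n)) X)
    (hsym : ∀ k, ∀ w ∈ X k, w⁻¹ ∈ X k) :
    ∃ k : ℕ, ∃ s : ℝ, ∃ hs : 0 < s, ∃ hs1 : s ≤ 1, ∃ η > 0, ∀ g y : HamBar n,
      (∀ z, dist ((y : E n ≃ₜ E n) z) z < η) →
        ((y * sc s hs hs1 g * y⁻¹ : HamBar n) : E n ≃ₜ E n) ∈ Prods (X k) 96 := by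
  obtain ⟨r, hr, hr1, h2⟩ := h2
  obtain ⟨k, t, ht, hgood⟩ := pointS hn hX (R₀ := 1 / 2) (by norm_num) (p := (0 : E n))
    (by rw [nm_zero]; norm_num)
  set t' := min t (1 / 2) with ht'
  have ht'0 : 0 < t' := lt_min ht (by norm_num)
  have ht't : t' ≤ t := min_le_left _ _
  have ht'2 : t' ≤ 1 / 2 := min_le_right _ _
  obtain ⟨η, hη, hconj⟩ := conj_HK (n := n) (t₀ := t' / 2) (t := t') (by linarith)
  have ht2 : 0 < t' / 2 := by linarith
  have ht21 : t' / 2 ≤ 1 := by linarith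
  refine ⟨k, t' / 2 * (r * r), by positivity, mul_le_one₀ ht21 (by positivity)
    (mul_le_one₀ hr1 hr.le hr1), η, hη, fun g y hy => ?_⟩
  have e1 := sc_sc (n := n) (t' / 2) (r * r) ht2 ht21 (mul_pos hr hr)
    (mul_le_one₀ hr1 hr.le hr1) g
  rw [← e1]
  let f : HamBar n →* (E n ≃ₜ E n) := (HamBar n).subtype.comp
    ((MulAut.conj y).toMonoidHom.comp (sc (t' / 2) ht2 ht21))
  have h3 : f (sc (r * r) (mul_pos hr hr) (mul_le_one₀ hr1 hr.le hr1) g) ∈ Prods (EEW (X k)) 8 := by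
    refine Pool.Agent.J6H85.LR.Prods.map f ?_ (eight hr hr1 h2 g)
    rintro _ ⟨a, b, c, d, rfl⟩
    simp only [map_commutatorElement]
    have hf : ∀ a : HamBar n, f a ∈ HK n (D (0 : E n) t') := by
      intro a
      refine hconj y y.2 hy _ ?_
      exact cpy_HK ht2 (by rw [nm_zero]; linarith) a.2 fun x hx => by
        have h5 : nm (x - 0) < t' / 2 := hx
        exact h5.le
    have hK : ∀ a : HamBar n, f a ∈ HK n (D (0 : E n) (1 / 2)) := fun a => by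
      obtain ⟨h4, u, h5, h6, h7⟩ := hf a
      have hsub : D (0 : E n) t' ⊆ D 0 (1 / 2) := fun x hx => by
        have h5 : nm (x - 0) ≤ t' := hx
        exact h5.trans ht'2
      exact ⟨fun x hx => h4 x fun h => hx (hsub h), u,
        fun k x hx => h5 k x fun h => hx (hsub h), h6, h7⟩
    have hs : ∀ a : HamBar n, Supp (D (0 : E n) t) (f a) := fun a x hx => (hf a).1 x fun h => hx (by
      have h5 : nm (x - 0) ≤ t' := h
      exact h5.trans ht't)
    exact hgood _ _ _ _ (hK _) (hK _) (hK _) (hK _) (hs _) (hs _) (hs _) (hs _)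
  have h4 := Pool.Agent.J6H85.LR.Prods.bind (EEW_prods (hsym k)) h3
  exact h4

/-- small elements without conjugation -/
theorem small_sh (hn : 0 < n) (h2 : Pool.Agent.J6H85.LR.LocallyTwoCommutators n)
    {X : ℕ → Set (E n ≃ₜ E n)} (hX : Fills (Mono (HamBar n)) X)
    (hsym : ∀ k, ∀ w ∈ X k, w⁻¹ ∈ X k) :
    ∃ k : ℕ, ∃ s : ℝ, 0 < s ∧ s ≤ 1 ∧ ∀ x ∈ Sh n s, (x : E n ≃ₜ E n) ∈ Prods (X k) 96 := by
  obtain ⟨k, s, hs, hs1, η, hη, h⟩ := small_conj hn h2 hX hsym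
  refine ⟨k, s, hs, hs1, fun x hx => ?_⟩
  obtain ⟨g, rfl⟩ := (mem_Sh hs hs1).1 hx
  have h1 := h g 1 fun z => by
    show dist z z < η
    rw [dist_self]
    exact hη
  rwa [one_mul, inv_one, mul_one] at h1

end Pool.Agent.J6H96.SI
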