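import Pool.Agent.J6H85.ZO.Pub
import Pool.Agent.J6H96.SI.Gen2

/-!
# Subadditive functions and homomorphisms to topological groups: definitions

`HamGroup n` is the group of the compactly supported Hamiltonian homeomorphisms of the open unit ball
of `ℝ^{2n}` (`Pool/Agent/Results/MP_68f289_gt/HomogeneousQuasimorphisms.lean`, the same as in the
frozen statement S13311), `φ.map` is the homeomorphism `φ` as a map. `Sh n t` (the Hamiltonian
homeomorphisms of the concentric open ball of radius `t`), `BoundedFragmentation`, `Fragmentation`: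
`Pool/Agent/J6H85/LR/Pub.lean`. `GK K` (the group `G_K` of the uniform limits, supported in `K`, of
Hamiltonian diffeomorphisms supported in `K`), `LocallyBounded`: `Pool/Agent/J6H85/ZO/Pub.lean`.
`Subadd`, `Narrow`: `Pool/Agent/J6H96/SI/Gen2.lean`.
-/

set_option autoImplicit false

open Pool.Agent.Results.MP_68f289_gt.HomogeneousQuasimorphisms (E HamGroup ball)
open Pool.Agent.J6H85.Frag (Sh)
open Pool.Agent.J6H85.Baire (LocallyBounded)
open Pool.Agent.J6H96.SI (Subadd Narrow)
open scoped commutatorElement

namespace Pool.Agent.J6H96.Sub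

/-- every subadditive function on the group is bounded above on `Sh n t` for some `t` -/
def BoundedOnSmall (n : ℕ) : Prop := ∀ ν : HamGroup n → ℝ, Subadd ν → ∃ t C : ℝ,
  0 < t ∧ t ≤ 1 ∧ ∀ φ ∈ Sh n t, ν φ ≤ C

/-- every subadditive function on the group is locally bounded above: for every compact subset `K`
of the ball it is bounded above on a neighbourhood of the identity in `G_K`, for the topology of
uniform convergence -/
def AllLocallyBounded (n : ℕ) : Prop := ∀ ν : HamGroup n → ℝ, Subadd ν → LocallyBounded ν

/-- for every homomorphism `π` to a narrow topological group and every neighbourhood `V` of the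
identity `π (Sh n t)` is contained in `V` for some `t` -/
def SmallImages (n : ℕ) : Prop :=
  ∀ (L : Type) [Group L] [TopologicalSpace L] [IsTopologicalGroup L], Narrow L →
    ∀ (π : HamGroup n →* L), ∀ V ∈ nhds (1 : L), ∃ t : ℝ, 0 < t ∧ t ≤ 1 ∧
      ∀ φ ∈ Sh n t, π φ ∈ V

/-- every homomorphism to a countable group is trivial on `Sh n t` for some `t` -/
def CountableImages (n : ℕ) : Prop := ∀ (D : Type) [Group D], Countable D →
  ∀ π : HamGroup n →* D, ∃ t : ℝ, 0 < t ∧ t ≤ 1 ∧ ∀ φ ∈ Sh n t, π φ = 1

variable {n : ℕ}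

/-- the affine map `x ↦ p + t x` -/
noncomputable def place (p : E n) (t : ℝ) (x : E n) : E n := p + t • x

/-- `t > 0` and the ball with centre `p` and radius `t` is contained in the unit ball -/
def Inside (p : E n) (t : ℝ) : Prop := 0 < t ∧ ∀ x : E n, x ∈ ball n → place p t x ∈ ball n

/-- the Hamiltonian homeomorphisms of the ball with centre `p` and radius `t`: the conjugates of the
elements of the group by the map `x ↦ p + t x` -/
def ShAt (p : E n) (t : ℝ) : Set (HamGroup n) :=
  {φ | ∃ g : HamGroup n, ∀ x : E n, φ.map (place p t x) = place p t (g.map x)}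

/-- the double commutators `[[f₁, f₂], [g₁, g₂]]` of elements of `ShAt p t` -/
def DoubleCommutators (p : E n) (t : ℝ) : Set (HamGroup n) :=
  {φ | ∃ f₁ ∈ ShAt p t, ∃ f₂ ∈ ShAt p t, ∃ g₁ ∈ ShAt p t, ∃ g₂ ∈ ShAt p t,
    φ = ⁅⁅f₁, f₂⁆, ⁅g₁, g₂⁆⁆}

/-- for every subadditive function `ν` on `S` and every point `p` of the ball there is `t` such that
the double commutators of elements of `ShAt p t` belong to `S` and `ν` is bounded above on them -/
def CoreBounded (S : Subgroup (HamGroup n)) : Prop := ∀ ν : S → ℝ, Subadd ν →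
  ∀ p : E n, p ∈ ball n → ∃ t C : ℝ, Inside p t ∧
    ∀ φ ∈ DoubleCommutators p t, ∃ h : φ ∈ S, ν ⟨φ, h⟩ ≤ C

/-- for every homomorphism `π` from `S` to a narrow topological group, every neighbourhood `V` of
the identity and every point `p` of the ball there is `t` such that the double commutators of
elements of `ShAt p t` belong to `S` and `π` maps them to `V` -/
def CoreSmall (S : Subgroup (HamGroup n)) : Prop :=
  ∀ (L : Type) [Group L] [TopologicalSpace L] [IsTopologicalGroup L], Narrow L →
    ∀ (π : S →* L), ∀ V ∈ nhds (1 : L), ∀ p : E n, p ∈ ball n →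
      ∃ t : ℝ, Inside p t ∧ ∀ φ ∈ DoubleCommutators p t, ∃ h : φ ∈ S, π ⟨φ, h⟩ ∈ V

end Pool.Agent.J6H96.Sub
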