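import Pool.Agent.J6H96.SI.Fin2
import Pool.Agent.J6H96.SI.Pub2
import Pool.Agent.J6H85.ZO.Main

/-!
# The theorem
-/

set_option autoImplicit false

open Pool.Agent.Results.MP_68f289_gt.HomogeneousQuasimorphisms (E HamGroup ball closure_eq)
open Pool.Agent.J6H85.Frag (Sh BoundedFragmentation Fragmentation)
open Pool.Agent.J6H85.Baire (GK mem_GK)

namespace Pool.Agent.J6H96.Sub

theorem main (n : ℕ) (hn : 0 < n) :
    List.TFAE [BoundedFragmentation n, BoundedOnSmall n, SmallImages n, CountableImages n] ∧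
    (IsSimpleGroup (HamGroup n) ↔ AllLocallyBounded n ∧ Fragmentation n) ∧
    (IsSimpleGroup (HamGroup n) ↔ BoundedOnSmall n ∧ Fragmentation n) ∧
    (IsSimpleGroup (HamGroup n) ↔ SmallImages n ∧ Fragmentation n) ∧
    (AllLocallyBounded n → commutator (HamGroup n) = ⊤) ∧
    ∃ S : Subgroup (HamGroup n), S.Normal ∧ IsSimpleGroup S ∧
      (∀ N : Subgroup (HamGroup n), N.Normal → N ≠ ⊥ → S ≤ N) ∧ CoreBounded S ∧ CoreSmall S :=
  Pool.Agent.J6H96.SI.main_gen2 _ GK hn (closure_eq n) mem_GK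

end Pool.Agent.J6H96.Sub
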