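import Pool.Agent.J6H96.SI.Lb
import Pool.Agent.J6H96.SI.Fin

/-!
# Subadditive functions: the theorem for any subgroup
-/

set_option autoImplicit false

open Set Filter Topology Function TopologicalSpace
open Pool.Agent.Y453.HB
open Pool.Agent.N235.DH
open Pool.Agent.J6H85.LR (Prods Sh sc sc_coe mem_Sh cpy cpy_HK cpy_supp)
open Pool.Agent.J6H85.ZO
open scoped commutatorElement

namespace Pool.Agent.J6H96.SI.Par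

variable {n : ℕ} (Γ : Subgroup (E n ≃ₜ E n)) (G : Set (E n) → Set Γ)

def Inside (n : ℕ) (p : E n) (t : ℝ) : Prop := 0 < t ∧ ∀ x : E n, Q x < 1 → Q (p + t • x) < 1

def At (p : E n) (t : ℝ) : Set Γ :=
  {φ | ∃ g : Γ, ∀ x : E n, (φ : E n ≃ₜ E n) (p + t • x) = p + t • (g : E n ≃ₜ E n) x}

def DoubleCommutators (p : E n) (t : ℝ) : Set Γ :=
  {φ | ∃ f₁ ∈ At Γ p t, ∃ f₂ ∈ At Γ p t, ∃ g₁ ∈ At Γ p t, ∃ g₂ ∈ At Γ p t,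
    φ = ⁅⁅f₁, f₂⁆, ⁅g₁, g₂⁆⁆}

def BoundedOnSmall : Prop := ∀ ν : Γ → ℝ, Subadd ν → ∃ t C : ℝ, 0 < t ∧ t ≤ 1 ∧
  ∀ φ ∈ Pool.Agent.J6H85.LR.Par.Sh Γ t, ν φ ≤ C

def AllLocallyBounded : Prop := ∀ ν : Γ → ℝ, Subadd ν → Pool.Agent.J6H85.ZO.Par.LocallyBounded G ν

def SmallImages : Prop := ∀ (L : Type) [Group L] [TopologicalSpace L] [IsTopologicalGroup L],
  Narrow L → ∀ (π : Γ →* L), ∀ V ∈ nhds (1 : L), ∃ t : ℝ, 0 < t ∧ t ≤ 1 ∧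
    ∀ φ ∈ Pool.Agent.J6H85.LR.Par.Sh Γ t, π φ ∈ V

def CountableImages : Prop := ∀ (D : Type) [Group D], Countable D → ∀ π : Γ →* D,
  ∃ t : ℝ, 0 < t ∧ t ≤ 1 ∧ ∀ φ ∈ Pool.Agent.J6H85.LR.Par.Sh Γ t, π φ = 1

variable {Γ}

def CoreBounded (S : Subgroup Γ) : Prop := ∀ ν : S → ℝ, Subadd ν → ∀ p : E n, Q p < 1 →
  ∃ t C : ℝ, Inside n p t ∧ ∀ φ ∈ DoubleCommutators Γ p t, ∃ h : φ ∈ S, ν ⟨φ, h⟩ ≤ C

def CoreSmall (S : Subgroup Γ) : Prop :=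
  ∀ (L : Type) [Group L] [TopologicalSpace L] [IsTopologicalGroup L], Narrow L →
    ∀ (π : S →* L), ∀ V ∈ nhds (1 : L), ∀ p : E n, Q p < 1 →
      ∃ t : ℝ, Inside n p t ∧ ∀ φ ∈ DoubleCommutators Γ p t, ∃ h : φ ∈ S, π ⟨φ, h⟩ ∈ V

variable (Γ)

def Statement : Prop :=
  List.TFAE [Pool.Agent.J6H85.LR.Par.BoundedFragmentation Γ, BoundedOnSmall Γ, SmallImages Γ,
    CountableImages Γ] ∧
  (IsSimpleGroup Γ ↔ AllLocallyBounded Γ G ∧ Pool.Agent.J6H85.LR.Par.Fragmentation Γ) ∧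
  (IsSimpleGroup Γ ↔ BoundedOnSmall Γ ∧ Pool.Agent.J6H85.LR.Par.Fragmentation Γ) ∧
  (IsSimpleGroup Γ ↔ SmallImages Γ ∧ Pool.Agent.J6H85.LR.Par.Fragmentation Γ) ∧
  (AllLocallyBounded Γ G → commutator Γ = ⊤) ∧
  ∃ S : Subgroup Γ, S.Normal ∧ IsSimpleGroup S ∧
    (∀ N : Subgroup Γ, N.Normal → N ≠ ⊥ → S ≤ N) ∧ CoreBounded S ∧ CoreSmall S

end Pool.Agent.J6H96.SI.Par

namespace Pool.Agent.J6H96.SI

open Pool.Agent.R773.HN (nm nm_add nm_zero D D_compact D_closed Supp Mono nm_lt_one nm_smul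
  norm_le_nm main_of' hSm hCo Mono_norm MS_normal MS_ne MS_le)

variable {n : ℕ}

end Pool.Agent.J6H96.SI
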