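import Pool.Agent.J6H96.SI.Inf
import Pool.Agent.J6H85.LR.Fam
import Pool.Agent.R773.HN.Fin3

/-!
# Small balls
-/

set_option autoImplicit false

open Set Filter Topology Function
open Pool.Agent.Y453.HB
open Pool.Agent.Y309.HB
open Pool.Agent.N235.DH
open Pool.Agent.R773.HN
open Pool.Agent.J6H85.LR (W W_dist D_sub_Q)
open scoped commutatorElement

namespace Pool.Agent.J6H96.SI

variable {n : ℕ}

/-- a translation which is a commutator -/
theorem ctrans (hn : 0 < n) {q v : E n} {R ε : ℝ} (hR : 0 < R) (hq : nm q + R < 1)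
    (hv : nm v ≤ R / 8) (hε : 0 < ε) (hεR : ε ≤ R / 16) :
    ∃ κ₁ κ₂ : E n ≃ₜ E n, IsHam κ₁ ∧ IsHam κ₂ ∧ Supp (D q R) κ₁ ∧ Supp (D q R) κ₂ ∧
      ∀ x ∈ D q ε, (⁅κ₁, κ₂⁆ : E n ≃ₜ E n) x = x + v := by
  obtain ⟨κ₁, h1, h1s, h1x⟩ := hT n q q v ε (R / 5) hε (by linarith)
    (by rw [sub_self, nm_zero]; linarith) (by rw [add_sub_cancel_left]; linarith)
  obtain ⟨v₂, hv₂⟩ := exists_vec hn (show 0 < 3 * R / 5 by linarith)
  obtain ⟨κ₂, h2, h2s, h2x⟩ := hT n q q v₂ (R / 5) R (by linarith) hq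
    (by rw [sub_self, nm_zero]; linarith) (by rw [add_sub_cancel_left, hv₂]; linarith)
  have hd : Disjoint (κ₂ '' D q (R / 5)) (D q (R / 5)) := by
    rw [Set.disjoint_left]
    intro y hy hy'
    have h3 : nm (y - (q + v₂)) ≤ R / 5 := image_D h2x hy
    have h4 : nm (y - q) ≤ R / 5 := hy'
    have h5 := nm_tri (q + v₂) y q
    rw [add_sub_cancel_left, hv₂, nm_sub_comm] at h5
    linarith
  refine ⟨κ₁, κ₂, h1, h2, h1s.mono fun x hx => ?_, h2s, fun x hx => ?_⟩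
  · have h3 : nm (x - q) ≤ R / 5 := hx
    show nm (x - q) ≤ R
    linarith
  · have hx' : x ∈ D q (R / 5) := by
      have h3 : nm (x - q) ≤ ε := hx
      show nm (x - q) ≤ R / 5
      linarith
    show κ₁ (κ₂ (κ₁⁻¹ (κ₂⁻¹ x))) = x + v
    rw [h1s.inv _ (inv_not_mem hd hx'), apply_inv_self, h1x x hx]

theorem bad_seq {P : E n → ℝ → Prop} {p : E n}
    (h : ∀ δ : ℝ, 0 < δ → ∃ c t, 0 < t ∧ 64 * t < nm (c - p) ∧ nm (c - p) + 32 * t < δ ∧ P c t)
    {δ₀ : ℝ} (hδ₀ : 0 < δ₀) : ∃ (c : ℕ → E n) (t : ℕ → ℝ), (∀ j, 0 < t j) ∧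
      (∀ j, nm (c j - p) + 32 * t j < δ₀) ∧
      (∀ i j, i ≠ j → Disjoint (W (c i) (32 * t i)) (W (c j) (32 * t j))) ∧
      Tendsto t atTop (𝓝 0) ∧ ∀ j, P (c j) (t j) := by
  have h' : ∀ δ : ℝ, ∃ c t, 0 < δ → 0 < t ∧ 64 * t < nm (c - p) ∧ nm (c - p) + 32 * t < δ ∧
      P c t := by
    intro δ
    by_cases hδ : 0 < δ
    · obtain ⟨c, t, h1⟩ := h δ hδ
      exact ⟨c, t, fun _ => h1⟩
    · exact ⟨0, 0, fun h => absurd h hδ⟩
  choose c t hct using h'
  let δ : ℕ → ℝ := fun k => Nat.rec δ₀ (fun _ z => t z) k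
  have hδs : ∀ k, δ (k + 1) = t (δ k) := fun k => rfl
  have hδ : ∀ k, 0 < δ k := by
    intro k
    induction k with
    | zero => exact hδ₀
    | succ k ih => exact (hct _ ih).1
  have hlt : ∀ k, δ (k + 1) < δ k / 2 := by
    intro k
    obtain ⟨h1, h2, h3, -⟩ := hct _ (hδ k)
    rw [hδs]
    linarith
  have hanti : ∀ i j, i ≤ j → δ j ≤ δ i := by
    intro i j hij
    induction j, hij using Nat.le_induction with
    | base => exact le_rfl
    | succ j _ ih =>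
      have h1 := hlt j
      have h2 := hδ j
      linarith
  have hlim : Tendsto (fun k => δ (k + 1)) atTop (𝓝 0) := by
    have h1 : ∀ k, δ k ≤ δ₀ * (1 / 2) ^ k := by
      intro k
      induction k with
      | zero =>
        rw [pow_zero, mul_one]
        exact le_rfl
      | succ k ih =>
        have := hlt k
        rw [pow_succ]
        linarith
    refine squeeze_zero (fun k => (hδ (k + 1)).le) (fun k => h1 (k + 1)) ?_
    have h2 := ((tendsto_pow_atTop_nhds_zero_of_lt_one (r := (1 / 2 : ℝ)) (by norm_num)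
      (by norm_num)).comp (tendsto_add_atTop_nat 1)).const_mul δ₀
    rw [mul_zero] at h2
    exact h2
  refine ⟨fun k => c (δ k), fun k => t (δ k), fun k => (hct _ (hδ k)).1, fun k => ?_, ?_, hlim,
    fun k => (hct _ (hδ k)).2.2.2⟩
  · have h1 := (hct _ (hδ k)).2.2.1
    have h2 := hanti 0 k (Nat.zero_le k)
    have h3 : δ 0 = δ₀ := rfl
    linarith
  · have key : ∀ i j : ℕ, i < j →
        Disjoint (W (c (δ i)) (32 * t (δ i))) (W (c (δ j)) (32 * t (δ j))) := by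
      intro i j hij
      rw [Set.disjoint_left]
      intro x hx hx'
      have h3 : nm (x - c (δ i)) < 32 * t (δ i) := hx
      have h4 : nm (x - c (δ j)) < 32 * t (δ j) := hx'
      obtain ⟨a1, a2, a3, -⟩ := hct _ (hδ i)
      obtain ⟨b1, b2, b3, -⟩ := hct _ (hδ j)
      have h5 := nm_tri x (c (δ j)) p
      have h6 := nm_tri (c (δ i)) x p
      rw [nm_sub_comm (c (δ i)) x] at h6
      have h7 := hanti (i + 1) j hij
      rw [hδs] at h7
      linarith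
    intro i j hij
    rcases lt_or_gt_of_ne hij with h1 | h1
    · exact key i j h1
    · exact (key j i h1).symm

/-- the balls near a point -/
theorem near (hn : 0 < n) {H : Subgroup (E n ≃ₜ E n)} (hH : SmallIn (Mono (HamBar n)) H)
    {R₀ : ℝ} (hR₀ : R₀ < 1) {p : E n} (hp : nm p < R₀) :
    ∃ δ > 0, ∀ (c : E n) (t : ℝ), 0 < t → 64 * t < nm (c - p) → nm (c - p) + 32 * t < δ →
      Good H (D 0 R₀) (D c t) := by
  by_contra hcon
  push Not at hcon
  have hp1 : nm p < 1 := hp.trans hR₀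
  obtain ⟨φ, hφ, -, -, hφp⟩ := L1 hT hn (q := p) (r := (1 - nm p) / 2) (by linarith)
    (by linarith)
  obtain ⟨r, hr, hpr, -, hd⟩ := displaced hφp Filter.univ_mem hp1
  obtain ⟨c, t, ht, hle, hdisj, hlim, hbad⟩ := bad_seq (p := p)
    (P := fun c t => ¬ Good H (D 0 R₀) (D c t)) (fun δ hδ => by
      obtain ⟨c, t, h1, h2, h3, h4⟩ := hcon δ hδ
      exact ⟨c, t, h1, h2, h3, h4⟩) (δ₀ := min r (R₀ - nm p)) (lt_min hr (by linarith))
  have hWr : ∀ j, ∀ x ∈ W (c j) (32 * t j), nm (x - p) < min r (R₀ - nm p) := by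
    intro j x hx
    have h1 : nm (x - c j) < 32 * t j := hx
    have h2 := nm_tri x (c j) p
    have h3 := hle j
    linarith
  have hcj : ∀ j, nm (c j) + 32 * t j < R₀ := by
    intro j
    have h1 := nm_add (c j - p) p
    rw [sub_add_cancel] at h1
    have h2 := (hle j).trans_le (min_le_right _ _)
    linarith
  let F : Fam2 n :=
    { V := fun j => W (c j) (32 * t j)
      disj := hdisj
      d := fun j => 2 * (32 * t j)
      lim := by
        have h1 := (hlim.const_mul 32).const_mul 2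
        simpa using h1
      diam := fun j x hx y hy => W_dist hx hy }
  obtain ⟨j, hj⟩ := fam_good (D_compact 0 R₀) (D_sub_Q hR₀) hH F (D_compact p r) (isHam_mem hφ)
    hd (fun j x hx => ((hWr j x hx).trans_le (min_le_left _ _)).le)
    (fun j x hx => by
      have h1 := (hWr j x hx).trans_le (min_le_right _ _)
      have h2 := nm_add (x - p) p
      rw [sub_add_cancel] at h2
      show nm (x - 0) ≤ R₀
      rw [sub_zero]
      linarith)
    (fun j => D (c j) (t j))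
    (fun j x hx => by
      have h1 : nm (x - c j) ≤ t j := hx
      have h2 := ht j
      show nm (x - c j) < 32 * t j
      linarith)
    (fun j => by
      have h2 := ht j
      obtain ⟨v, hv⟩ := exists_vec hn (show 0 < 3 * t j by linarith)
      obtain ⟨κ₁, κ₂, k1, k2, s1, s2, hx⟩ := ctrans hn (q := c j) (v := v) (R := 31 * t j)
        (ε := t j) (by linarith) (by have := hcj j; linarith) (by rw [hv]; linarith) h2
        (by linarith)
      have hsub : D (c j) (31 * t j) ⊆ W (c j) (32 * t j) := fun x hx => by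
        have h1 : nm (x - c j) ≤ 31 * t j := hx
        show nm (x - c j) < 32 * t j
        linarith
      refine ⟨κ₁, κ₂, k1, k2, s1.mono hsub, s2.mono hsub, ?_⟩
      rw [Set.disjoint_left]
      intro y hy hy'
      have h3 : nm (y - (c j + v)) ≤ t j := image_D hx hy
      have h4 : nm (y - c j) ≤ t j := hy'
      have h5 := nm_tri (c j + v) y (c j)
      rw [add_sub_cancel_left, hv, nm_sub_comm] at h5
      linarith)
  exact hbad j hj

theorem exists_inj : ∃ σ : (ℕ → Bool) → ℝ, Function.Injective σ ∧ ∀ x, 0 ≤ σ x ∧ σ x ≤ 1 := by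
  have h1 : Cardinal.mk (ℕ → Bool) ≤ Cardinal.mk (Set.Icc (0 : ℝ) 1) := by
    rw [Cardinal.mk_Icc_real zero_lt_one]
    simp
  obtain ⟨f⟩ := h1
  exact ⟨fun x => f x, fun x y h => f.injective (Subtype.ext h), fun x => (f x).2⟩

/-- all points -/
theorem point (hn : 0 < n) {H : Subgroup (E n ≃ₜ E n)} (hH : SmallIn (Mono (HamBar n)) H)
    {R₀ : ℝ} (hR₀ : R₀ < 1) {p : E n} (hp : nm p < R₀) :
    ∃ t > 0, Good H (D 0 R₀) (D p t) := by
  obtain ⟨δ, hδ, hnear⟩ := near hn hH hR₀ hp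
  set R := min (R₀ - nm p) δ / 2 with hRdef
  have hR0 : 0 < R := by
    have : 0 < min (R₀ - nm p) δ := lt_min (by linarith) hδ
    linarith
  have hR1 : 2 * R ≤ R₀ - nm p := by
    have := min_le_left (R₀ - nm p) δ
    linarith
  have hR2 : 2 * R ≤ δ := by
    have := min_le_right (R₀ - nm p) δ
    linarith
  obtain ⟨v, hv⟩ := exists_vec hn (show 0 < R / 32 by linarith)
  obtain ⟨σ, hσ, hσ1⟩ := exists_inj
  have hex : ∀ x : ℕ → Bool, ∃ κ₁ κ₂ : E n ≃ₜ E n, IsHam κ₁ ∧ IsHam κ₂ ∧ Supp (D p R) κ₁ ∧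
      Supp (D p R) κ₂ ∧ ∀ z ∈ D p (R / 16), (⁅κ₁, κ₂⁆ : E n ≃ₜ E n) z = z + σ x • v := by
    intro x
    refine ctrans hn hR0 (by linarith) ?_ (by linarith) le_rfl
    rw [nm_smul, hv, abs_of_nonneg (hσ1 x).1]
    have := (hσ1 x).2
    nlinarith
  choose κ₁ κ₂ hκ₁ hκ₂ hs₁ hs₂ hκ using hex
  have hM : ∀ x, ⁅κ₁ x, κ₂ x⁆ ∈ Mono (HamBar n) := fun x =>
    hCo n hn _ (mid_bar n) _ _ (hκ₁ x) (hκ₂ x)
  obtain ⟨x, y, hxy, hh⟩ := hH (fun x => ⁅κ₁ x, κ₂ x⁆) hM
  set h : E n ≃ₜ E n := (⁅κ₁ x, κ₂ x⁆)⁻¹ * ⁅κ₁ y, κ₂ y⁆ with hhdef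
  have hDK : D p R ⊆ D 0 R₀ := fun z hz => by
    have h1 : nm (z - p) ≤ R := hz
    have h2 := nm_add (z - p) p
    rw [sub_add_cancel] at h2
    show nm (z - 0) ≤ R₀
    rw [sub_zero]
    linarith
  have hKc := D_compact (0 : E n) R₀
  have hHK : ∀ x, (⁅κ₁ x, κ₂ x⁆ : E n ≃ₜ E n) ∈ HK n (D 0 R₀) := by
    intro x
    have h1 : κ₁ x ∈ HK n (D 0 R₀) := HK_ham (hκ₁ x) ((hs₁ x).mono hDK)
    have h2 : κ₂ x ∈ HK n (D 0 R₀) := HK_ham (hκ₂ x) ((hs₂ x).mono hDK)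
    exact HK_mul hKc (HK_mul hKc (HK_mul hKc h1 h2) (HK_inv hKc h1)) (HK_inv hKc h2)
  have hhHK : h ∈ HK n (D 0 R₀) := HK_mul hKc (HK_inv hKc (hHK x)) (hHK y)
  set w : E n := (σ y - σ x) • v with hw
  have hσne : σ y - σ x ≠ 0 := fun h0 => hxy (hσ (by linarith))
  have hnw : nm w = |σ y - σ x| * (R / 32) := by rw [hw, nm_smul, hv]
  have hnw0 : 0 < nm w := by
    rw [hnw]
    have := abs_pos.2 hσne
    positivity
  have habs : |σ y - σ x| ≤ 1 := by
    rw [abs_le]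
    constructor
    · linarith [(hσ1 x).2, (hσ1 y).1]
    · linarith [(hσ1 y).2, (hσ1 x).1]
  have hnw1 : nm w ≤ R / 32 := by
    rw [hnw]
    nlinarith
  have hhx : ∀ z ∈ D p (R / 32), h z = z + w := by
    intro z hz
    have h1 : nm (z - p) ≤ R / 32 := hz
    have hz1 : z ∈ D p (R / 16) := by
      show nm (z - p) ≤ R / 16
      linarith
    have hz2 : z + w ∈ D p (R / 16) := by
      show nm (z + w - p) ≤ R / 16
      have h2 := nm_add (z - p) w
      have h3 : z + w - p = z - p + w := by abel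
      rw [h3]
      linarith
    show (⁅κ₁ x, κ₂ x⁆ : E n ≃ₜ E n)⁻¹ ((⁅κ₁ y, κ₂ y⁆ : E n ≃ₜ E n) z) = z + w
    rw [hκ y z hz1]
    have h2 : z + σ y • v = (⁅κ₁ x, κ₂ x⁆ : E n ≃ₜ E n) (z + w) := by
      rw [hκ x _ hz2, hw, sub_smul]
      abel
    rw [h2, inv_apply_self]
  set t := min (R / 32) (nm w / 65) with ht
  have ht0 : 0 < t := lt_min (by linarith) (by positivity)
  have ht1 : t ≤ R / 32 := min_le_left _ _
  have ht2 : t ≤ nm w / 65 := min_le_right _ _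
  have hg := hnear (p + w) t ht0 (by rw [add_sub_cancel_left]; linarith)
    (by rw [add_sub_cancel_left]; linarith)
  have him : h '' D p t ⊆ D (p + w) t := image_D fun z hz => hhx z (by
    have h1 : nm (z - p) ≤ t := hz
    show nm (z - p) ≤ R / 32
    linarith)
  refine ⟨t, ht0, fun f₁ f₂ g₁ g₂ hf₁ hf₂ hg₁ hg₂ sf₁ sf₂ sg₁ sg₂ => ?_⟩
  have cj : ∀ f : E n ≃ₜ E n, f ∈ HK n (D 0 R₀) → h * f * h⁻¹ ∈ HK n (D 0 R₀) := fun f hf =>
    HK_mul hKc (HK_mul hKc hhHK hf) (HK_inv hKc hhHK)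
  have h1 := hg _ _ _ _ (cj _ hf₁) (cj _ hf₂) (cj _ hg₁) (cj _ hg₂) ((sf₁.conj h).mono him)
    ((sf₂.conj h).mono him) ((sg₁.conj h).mono him) ((sg₂.conj h).mono him)
  have h2 := H.mul_mem (H.mul_mem (H.inv_mem hh) h1) hh
  have e : h⁻¹ * ⁅⁅h * f₁ * h⁻¹, h * f₂ * h⁻¹⁆, ⁅h * g₁ * h⁻¹, h * g₂ * h⁻¹⁆⁆ * h =
      ⁅⁅f₁, f₂⁆, ⁅g₁, g₂⁆⁆ := by
    simp only [commutatorElement_def]
    group
  rw [← e]
  exact h2

theorem Good.mono {H : Subgroup (E n ≃ₜ E n)} {K B B' : Set (E n)} (h : Good H K B)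
    (hB : B' ⊆ B) : Good H K B' := fun f₁ f₂ g₁ g₂ hf₁ hf₂ hg₁ hg₂ sf₁ sf₂ sg₁ sg₂ =>
  h f₁ f₂ g₁ g₂ hf₁ hf₂ hg₁ hg₂ (sf₁.mono hB) (sf₂.mono hB) (sg₁.mono hB) (sg₂.mono hB)

/-- one radius for all points of the ball of radius `1 / 2` -/
theorem leb (hn : 0 < n) {H : Subgroup (E n ≃ₜ E n)} (hH : SmallIn (Mono (HamBar n)) H) :
    ∃ r > 0, r ≤ 1 / 16 ∧ ∀ q : E n, nm q ≤ 1 / 2 → Good H (D 0 (3 / 4)) (D q r) := by
  have h1 : ∀ p : D (0 : E n) (1 / 2), ∃ t > 0, Good H (D 0 (3 / 4)) (D (p : E n) t) := by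
    intro p
    have h2 : nm ((p : E n) - 0) ≤ 1 / 2 := p.2
    rw [sub_zero] at h2
    exact point hn hH (by norm_num) (by linarith)
  choose t ht hg using h1
  have hcov : D (0 : E n) (1 / 2) ⊆ ⋃ p : D (0 : E n) (1 / 2), {x | nm (x - (p : E n)) < t p} := by
    intro x hx
    refine mem_iUnion.2 ⟨⟨x, hx⟩, ?_⟩
    show nm (x - x) < _
    rw [sub_self, nm_zero]
    exact ht _
  obtain ⟨δ, hδ, hleb⟩ := lebesgue_number_lemma_of_metric (D_compact (0 : E n) (1 / 2))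
    (fun p : D (0 : E n) (1 / 2) => isOpen_lt (nm_cont.comp (continuous_id.sub continuous_const))
      continuous_const) hcov
  refine ⟨min (δ / 2) (1 / 16), lt_min (by linarith) (by norm_num), min_le_right _ _,
    fun q hq => ?_⟩
  obtain ⟨p, hp⟩ := hleb q (by
    show nm (q - 0) ≤ 1 / 2
    rwa [sub_zero])
  refine (hg p).mono fun x hx => ?_
  have h3 : nm (x - q) ≤ min (δ / 2) (1 / 16) := hx
  have h4 : x ∈ Metric.ball q δ := by
    rw [Metric.mem_ball, dist_eq_norm]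
    have h5 := norm_le_nm (x - q)
    have h6 := min_le_left (δ / 2) (1 / 16)
    linarith
  have h7 : nm (x - (p : E n)) < t p := hp h4
  exact h7.le

end Pool.Agent.J6H96.SI
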