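import Pool.Agent.J6H96.SI.Pt
import Pool.Agent.J6H96.SI.AlgW

/-!
# Small balls, for sequences of sets
-/

set_option autoImplicit false

open Set Filter Topology Function
open Pool.Agent.Y453.HB
open Pool.Agent.Y309.HB
open Pool.Agent.N235.DH
open Pool.Agent.R773.HN
open Pool.Agent.J6H85.LR (W W_dist D_sub_Q)
open scoped commutatorElement

namespace Pool.Agent.J6H96.SI

variable {n : ℕ}

/-- double commutators of elements supported in `B` are in `X` -/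
def GoodS (X : Set (E n ≃ₜ E n)) (K B : Set (E n)) : Prop :=
  ∀ f₁ f₂ g₁ g₂ : E n ≃ₜ E n, f₁ ∈ HK n K → f₂ ∈ HK n K → g₁ ∈ HK n K → g₂ ∈ HK n K →
    Supp B f₁ → Supp B f₂ → Supp B g₁ → Supp B g₂ → ⁅⁅f₁, f₂⁆, ⁅g₁, g₂⁆⁆ ∈ X

theorem GoodS.mono {X Y : Set (E n ≃ₜ E n)} {K B B' : Set (E n)} (h : GoodS X K B)
    (hXY : X ⊆ Y) (hB : B' ⊆ B) : GoodS Y K B' :=
  fun f₁ f₂ g₁ g₂ hf₁ hf₂ hg₁ hg₂ sf₁ sf₂ sg₁ sg₂ => hXY
    (h f₁ f₂ g₁ g₂ hf₁ hf₂ hg₁ hg₂ (sf₁.mono hB) (sf₂.mono hB) (sg₁.mono hB) (sg₂.mono hB))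

/-- one member of each family is good -/
theorem fam_goodS {K : Set (E n)} (hK : IsCompact K) (hKQ : K ⊆ {p : E n | Q p < 1})
    {X : ℕ → Set (E n ≃ₜ E n)} (hX : Fills (Mono (HamBar n)) X) (F : Fam2 n)
    {A : Set (E n)} (hA : IsCompact A) {κ : E n ≃ₜ E n} (hκ : κ ∈ HamBar n)
    (hd : Disjoint (κ '' A) A) (hVA : ∀ j, F.V j ⊆ A) (hVK : ∀ j, F.V j ⊆ K)
    (B : ℕ → Set (E n)) (hB : ∀ j, B j ⊆ F.V j)
    (hdisp : ∀ j, ∃ κ₁ κ₂ : E n ≃ₜ E n, IsHam κ₁ ∧ IsHam κ₂ ∧ Supp (F.V j) κ₁ ∧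
      Supp (F.V j) κ₂ ∧
      Disjoint ((⁅κ₁, κ₂⁆ : E n ≃ₜ E n) '' B j) (B j)) : ∃ j, GoodS (DDW (X j)) K (B j) := by
  choose κ₁ κ₂ hκ₁ hκ₂ hs₁ hs₂ hdis using hdisp
  have hsub : commutator (∀ j, LK hK (F.V j)) ≤ (Mono (HamBar n)).comap (F.P hK) := by
    rw [commutator_def, Subgroup.commutator_le]
    intro b _ c _
    rw [Subgroup.mem_comap, map_commutatorElement]
    have hs : ∀ a : (∀ j, LK hK (F.V j)), Supp A (F.P hK a) := fun a x hx =>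
      (F.P_spec hK a).2.2 x fun j hj => hx (hVA j hj)
    exact comm_mono hT hR (mid_bar n) hA hκ hd (HK_mem hK hKQ (F.P_spec hK b).1)
      (HK_mem hK hKQ (F.P_spec hK c).1) (hs b) (hs c)
  have hm : ∀ j (k : E n ≃ₜ E n), IsHam k → Supp (F.V j) k → k ∈ LK hK (F.V j) :=
    fun j k h1 h2 => ⟨HK_ham h1 fun x hx => h2 x fun h => hx (hVK j h), h2⟩
  obtain ⟨j, h1⟩ := hX.blk (fun j => LK hK (F.V j)) (F.P hK) hsub
    (fun j => ⁅(⟨κ₁ j, hm j _ (hκ₁ j) (hs₁ j)⟩ : LK hK (F.V j)),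
      (⟨κ₂ j, hm j _ (hκ₂ j) (hs₂ j)⟩ : LK hK (F.V j))⁆) fun j => ⟨_, _, rfl⟩
  refine ⟨j, fun f₁ f₂ g₁ g₂ hf₁ hf₂ hg₁ hg₂ sf₁ sf₂ sg₁ sg₂ => ?_⟩
  have hm' : ∀ k : E n ≃ₜ E n, k ∈ HK n K → Supp (B j) k → k ∈ LK hK (F.V j) :=
    fun k h3 h4 => ⟨h3, h4.mono (hB j)⟩
  have h2 := h1 ⟨f₁, hm' _ hf₁ sf₁⟩ ⟨f₂, hm' _ hf₂ sf₂⟩ ⟨g₁, hm' _ hg₁ sg₁⟩ ⟨g₂, hm' _ hg₂ sg₂⟩
  rw [F.P_single] at h2
  have h3 : ⁅⁅⁅f₁, f₂⁆, ⁅κ₁ j, κ₂ j⁆⁆, ⁅g₁, g₂⁆⁆ ∈ DDW (X j) := by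
    simp only [commutatorElement_def, Subgroup.coe_mul, Subgroup.coe_inv] at h2 ⊢
    exact h2
  rw [higman (sf₁.comm sf₂) (sg₁.comm sg₂) (hdis j)] at h3
  exact h3

theorem bad_seqW {P : ℕ → E n → ℝ → Prop} {p : E n}
    (h : ∀ k, ∀ δ : ℝ, 0 < δ →
      ∃ c t, 0 < t ∧ 64 * t < nm (c - p) ∧ nm (c - p) + 32 * t < δ ∧ P k c t)
    {δ₀ : ℝ} (hδ₀ : 0 < δ₀) : ∃ (c : ℕ → E n) (t : ℕ → ℝ), (∀ j, 0 < t j) ∧
      (∀ j, nm (c j - p) + 32 * t j < δ₀) ∧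
      (∀ i j, i ≠ j → Disjoint (W (c i) (32 * t i)) (W (c j) (32 * t j))) ∧
      Tendsto t atTop (𝓝 0) ∧ ∀ j, P j (c j) (t j) := by
  have h' : ∀ (k : ℕ) (δ : ℝ), ∃ c t, 0 < δ → 0 < t ∧ 64 * t < nm (c - p) ∧
      nm (c - p) + 32 * t < δ ∧ P k c t := by
    intro k δ
    by_cases hδ : 0 < δ
    · obtain ⟨c, t, h1⟩ := h k δ hδ
      exact ⟨c, t, fun _ => h1⟩
    · exact ⟨0, 0, fun h => absurd h hδ⟩
  choose c t hct using h'
  let δ : ℕ → ℝ := fun k => Nat.rec δ₀ (fun k z => t k z) k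
  have hδs : ∀ k, δ (k + 1) = t k (δ k) := fun k => rfl
  have hδ : ∀ k, 0 < δ k := by
    intro k
    induction k with
    | zero => exact hδ₀
    | succ k ih => exact (hct _ _ ih).1
  have hlt : ∀ k, δ (k + 1) < δ k / 2 := by
    intro k
    obtain ⟨h1, h2, h3, -⟩ := hct k _ (hδ k)
    rw [hδs]
    linarith
  have hanti : ∀ i j, i ≤ j → δ j ≤ δ i := by
    intro i j hij
    induction j, hij using Nat.le_induction with
    | base => exact le_rfl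
    | succ j _ ih =>
      have h1 := hlt j
      have h2 := hδ j
      linarith
  have hlim : Tendsto (fun k => δ (k + 1)) atTop (𝓝 0) := by
    have h1 : ∀ k, δ k ≤ δ₀ * (1 / 2) ^ k := by
      intro k
      induction k with
      | zero =>
        rw [pow_zero, mul_one]
        exact le_rfl
      | succ k ih =>
        have := hlt k
        rw [pow_succ]
        linarith
    refine squeeze_zero (fun k => (hδ (k + 1)).le) (fun k => h1 (k + 1)) ?_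
    have h2 := ((tendsto_pow_atTop_nhds_zero_of_lt_one (r := (1 / 2 : ℝ)) (by norm_num)
      (by norm_num)).comp (tendsto_add_atTop_nat 1)).const_mul δ₀
    rw [mul_zero] at h2
    exact h2
  refine ⟨fun k => c k (δ k), fun k => t k (δ k), fun k => (hct _ _ (hδ k)).1, fun k => ?_, ?_,
    hlim, fun k => (hct _ _ (hδ k)).2.2.2⟩
  · have h1 := (hct k _ (hδ k)).2.2.1
    have h2 := hanti 0 k (Nat.zero_le k)
    have h3 : δ 0 = δ₀ := rfl
    linarith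
  · have key : ∀ i j : ℕ, i < j →
        Disjoint (W (c i (δ i)) (32 * t i (δ i))) (W (c j (δ j)) (32 * t j (δ j))) := by
      intro i j hij
      rw [Set.disjoint_left]
      intro x hx hx'
      have h3 : nm (x - c i (δ i)) < 32 * t i (δ i) := hx
      have h4 : nm (x - c j (δ j)) < 32 * t j (δ j) := hx'
      obtain ⟨a1, a2, a3, -⟩ := hct i _ (hδ i)
      obtain ⟨b1, b2, b3, -⟩ := hct j _ (hδ j)
      have h5 := nm_tri x (c j (δ j)) p
      have h6 := nm_tri (c i (δ i)) x p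
      rw [nm_sub_comm (c i (δ i)) x] at h6
      have h7 := hanti (i + 1) j hij
      rw [hδs] at h7
      linarith
    intro i j hij
    rcases lt_or_gt_of_ne hij with h1 | h1
    · exact key i j h1
    · exact (key j i h1).symm

/-- the balls near a point -/
theorem nearS (hn : 0 < n) {X : ℕ → Set (E n ≃ₜ E n)} (hX : Fills (Mono (HamBar n)) X)
    {R₀ : ℝ} (hR₀ : R₀ < 1) {p : E n} (hp : nm p < R₀) :
    ∃ k, ∃ δ > 0, ∀ (c : E n) (t : ℝ), 0 < t → 64 * t < nm (c - p) →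
      nm (c - p) + 32 * t < δ → GoodS (DDW (X k)) (D 0 R₀) (D c t) := by
  by_contra hcon
  push Not at hcon
  have hp1 : nm p < 1 := hp.trans hR₀
  obtain ⟨φ, hφ, -, -, hφp⟩ := L1 hT hn (q := p) (r := (1 - nm p) / 2) (by linarith)
    (by linarith)
  obtain ⟨r, hr, hpr, -, hd⟩ := displaced hφp Filter.univ_mem hp1
  obtain ⟨c, t, ht, hle, hdisj, hlim, hbad⟩ := bad_seqW (p := p)
    (P := fun k c t => ¬ GoodS (DDW (X k)) (D 0 R₀) (D c t)) (fun k δ hδ => by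
      obtain ⟨c, t, h1, h2, h3, h4⟩ := hcon k δ hδ
      exact ⟨c, t, h1, h2, h3, h4⟩) (δ₀ := min r (R₀ - nm p)) (lt_min hr (by linarith))
  have hWr : ∀ j, ∀ x ∈ W (c j) (32 * t j), nm (x - p) < min r (R₀ - nm p) := by
    intro j x hx
    have h1 : nm (x - c j) < 32 * t j := hx
    have h2 := nm_tri x (c j) p
    have h3 := hle j
    linarith
  have hcj : ∀ j, nm (c j) + 32 * t j < R₀ := by
    intro j
    have h1 := nm_add (c j - p) p
    rw [sub_add_cancel] at h1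
    have h2 := (hle j).trans_le (min_le_right _ _)
    linarith
  let F : Fam2 n :=
    { V := fun j => W (c j) (32 * t j)
      disj := hdisj
      d := fun j => 2 * (32 * t j)
      lim := by
        have h1 := (hlim.const_mul 32).const_mul 2
        simpa using h1
      diam := fun j x hx y hy => W_dist hx hy }
  obtain ⟨j, hj⟩ := fam_goodS (D_compact 0 R₀) (D_sub_Q hR₀) hX F (D_compact p r) (isHam_mem hφ)
    hd (fun j x hx => ((hWr j x hx).trans_le (min_le_left _ _)).le)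
    (fun j x hx => by
      have h1 := (hWr j x hx).trans_le (min_le_right _ _)
      have h2 := nm_add (x - p) p
      rw [sub_add_cancel] at h2
      show nm (x - 0) ≤ R₀
      rw [sub_zero]
      linarith)
    (fun j => D (c j) (t j))
    (fun j x hx => by
      have h1 : nm (x - c j) ≤ t j := hx
      have h2 := ht j
      show nm (x - c j) < 32 * t j
      linarith)
    (fun j => by
      have h2 := ht j
      obtain ⟨v, hv⟩ := exists_vec hn (show 0 < 3 * t j by linarith)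
      obtain ⟨κ₁, κ₂, k1, k2, s1, s2, hx⟩ := ctrans hn (q := c j) (v := v) (R := 31 * t j)
        (ε := t j) (by linarith) (by have := hcj j; linarith) (by rw [hv]; linarith) h2
        (by linarith)
      have hsub : D (c j) (31 * t j) ⊆ W (c j) (32 * t j) := fun x hx => by
        have h1 : nm (x - c j) ≤ 31 * t j := hx
        show nm (x - c j) < 32 * t j
        linarith
      refine ⟨κ₁, κ₂, k1, k2, s1.mono hsub, s2.mono hsub, ?_⟩
      rw [Set.disjoint_left]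
      intro y hy hy'
      have h3 : nm (y - (c j + v)) ≤ t j := image_D hx hy
      have h4 : nm (y - c j) ≤ t j := hy'
      have h5 := nm_tri (c j + v) y (c j)
      rw [add_sub_cancel_left, hv, nm_sub_comm] at h5
      linarith)
  exact hbad j hj

/-- all points -/
theorem pointS (hn : 0 < n) {X : ℕ → Set (E n ≃ₜ E n)} (hX : Fills (Mono (HamBar n)) X)
    {R₀ : ℝ} (hR₀ : R₀ < 1) {p : E n} (hp : nm p < R₀) :
    ∃ k, ∃ t > 0, GoodS (EEW (X k)) (D 0 R₀) (D p t) := by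
  obtain ⟨k₁, δ, hδ, hnear⟩ := nearS hn hX hR₀ hp
  set R := min (R₀ - nm p) δ / 2 with hRdef
  have hR0 : 0 < R := by
    have : 0 < min (R₀ - nm p) δ := lt_min (by linarith) hδ
    linarith
  have hR1 : 2 * R ≤ R₀ - nm p := by
    have := min_le_left (R₀ - nm p) δ
    linarith
  have hR2 : 2 * R ≤ δ := by
    have := min_le_right (R₀ - nm p) δ
    linarith
  obtain ⟨v, hv⟩ := exists_vec hn (show 0 < R / 32 by linarith)
  obtain ⟨σ, hσ, hσ1⟩ := exists_inj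
  have hex : ∀ x : ℕ → Bool, ∃ κ₁ κ₂ : E n ≃ₜ E n, IsHam κ₁ ∧ IsHam κ₂ ∧ Supp (D p R) κ₁ ∧
      Supp (D p R) κ₂ ∧ ∀ z ∈ D p (R / 16), (⁅κ₁, κ₂⁆ : E n ≃ₜ E n) z = z + σ x • v := by
    intro x
    refine ctrans hn hR0 (by linarith) ?_ (by linarith) le_rfl
    rw [nm_smul, hv, abs_of_nonneg (hσ1 x).1]
    have := (hσ1 x).2
    nlinarith
  choose κ₁ κ₂ hκ₁ hκ₂ hs₁ hs₂ hκ using hex
  have hM : ∀ x, ⁅κ₁ x, κ₂ x⁆ ∈ Mono (HamBar n) := fun x =>
    hCo n hn _ (mid_bar n) _ _ (hκ₁ x) (hκ₂ x)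
  obtain ⟨k₂, x, y, hxy, hh'⟩ := hX.two (fun x => ⁅κ₁ x, κ₂ x⁆) hM
  set h : E n ≃ₜ E n := (⁅κ₁ x, κ₂ x⁆)⁻¹ * ⁅κ₁ y, κ₂ y⁆ with hhdef
  have hh : h ∈ X (max k₁ k₂) := hX.mono (le_max_right _ _) hh'
  have hDK : D p R ⊆ D 0 R₀ := fun z hz => by
    have h1 : nm (z - p) ≤ R := hz
    have h2 := nm_add (z - p) p
    rw [sub_add_cancel] at h2
    show nm (z - 0) ≤ R₀
    rw [sub_zero]
    linarith
  have hKc := D_compact (0 : E n) R₀
  have hHK : ∀ x, (⁅κ₁ x, κ₂ x⁆ : E n ≃ₜ E n) ∈ HK n (D 0 R₀) := by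
    intro x
    have h1 : κ₁ x ∈ HK n (D 0 R₀) := HK_ham (hκ₁ x) ((hs₁ x).mono hDK)
    have h2 : κ₂ x ∈ HK n (D 0 R₀) := HK_ham (hκ₂ x) ((hs₂ x).mono hDK)
    exact HK_mul hKc (HK_mul hKc (HK_mul hKc h1 h2) (HK_inv hKc h1)) (HK_inv hKc h2)
  have hhHK : h ∈ HK n (D 0 R₀) := HK_mul hKc (HK_inv hKc (hHK x)) (hHK y)
  set w : E n := (σ y - σ x) • v with hw
  have hσne : σ y - σ x ≠ 0 := fun h0 => hxy (hσ (by linarith))
  have hnw : nm w = |σ y - σ x| * (R / 32) := by rw [hw, nm_smul, hv]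
  have hnw0 : 0 < nm w := by
    rw [hnw]
    have := abs_pos.2 hσne
    positivity
  have habs : |σ y - σ x| ≤ 1 := by
    rw [abs_le]
    constructor
    · linarith [(hσ1 x).2, (hσ1 y).1]
    · linarith [(hσ1 y).2, (hσ1 x).1]
  have hnw1 : nm w ≤ R / 32 := by
    rw [hnw]
    nlinarith
  have hhx : ∀ z ∈ D p (R / 32), h z = z + w := by
    intro z hz
    have h1 : nm (z - p) ≤ R / 32 := hz
    have hz1 : z ∈ D p (R / 16) := by
      show nm (z - p) ≤ R / 16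
      linarith
    have hz2 : z + w ∈ D p (R / 16) := by
      show nm (z + w - p) ≤ R / 16
      have h2 := nm_add (z - p) w
      have h3 : z + w - p = z - p + w := by abel
      rw [h3]
      linarith
    show (⁅κ₁ x, κ₂ x⁆ : E n ≃ₜ E n)⁻¹ ((⁅κ₁ y, κ₂ y⁆ : E n ≃ₜ E n) z) = z + w
    rw [hκ y z hz1]
    have h2 : z + σ y • v = (⁅κ₁ x, κ₂ x⁆ : E n ≃ₜ E n) (z + w) := by
      rw [hκ x _ hz2, hw, sub_smul]
      abel
    rw [h2, inv_apply_self]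
  set t := min (R / 32) (nm w / 65) with ht
  have ht0 : 0 < t := lt_min (by linarith) (by positivity)
  have ht1 : t ≤ R / 32 := min_le_left _ _
  have ht2 : t ≤ nm w / 65 := min_le_right _ _
  have hg := hnear (p + w) t ht0 (by rw [add_sub_cancel_left]; linarith)
    (by rw [add_sub_cancel_left]; linarith)
  have him : h '' D p t ⊆ D (p + w) t := image_D fun z hz => hhx z (by
    have h1 : nm (z - p) ≤ t := hz
    show nm (z - p) ≤ R / 32
    linarith)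
  refine ⟨max k₁ k₂, t, ht0, fun f₁ f₂ g₁ g₂ hf₁ hf₂ hg₁ hg₂ sf₁ sf₂ sg₁ sg₂ => ?_⟩
  have cj : ∀ f : E n ≃ₜ E n, f ∈ HK n (D 0 R₀) → h * f * h⁻¹ ∈ HK n (D 0 R₀) := fun f hf =>
    HK_mul hKc (HK_mul hKc hhHK hf) (HK_inv hKc hhHK)
  have h1 := hg _ _ _ _ (cj _ hf₁) (cj _ hf₂) (cj _ hg₁) (cj _ hg₂) ((sf₁.conj h).mono him)
    ((sf₂.conj h).mono him) ((sg₁.conj h).mono him) ((sg₂.conj h).mono him)
  refine ⟨h, hh, _, DDW.mono (hX.mono (le_max_left k₁ k₂)) h1, ?_⟩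
  simp only [commutatorElement_def]
  group

end Pool.Agent.J6H96.SI
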